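import Pool.Agent.WCT.Basic

/-!
# Admissible families (module AdmL)
-/

namespace Pool.Agent.WCT

open Finset Filter Topology

noncomputable section

variable {f : (ℕ → ℕ) → (ℕ → Bool)}

private theorem adml_prefix {x : ℕ → Bool} {s t : Node} (hs : On x s) (ht : On x t)
    (h : s.length ≤ t.length) : s <+: t := by
  rw [List.prefix_iff_eq_take]
  apply List.ext_getElem
  · rw [List.length_take, min_eq_left h]
  · intro i h1 h2
    rw [List.getElem_take, hs i h1, ht i (by omega)]

private theorem adml_cnt_pos {E : ℕ → Finset Node} {x : ℕ → Bool} {k : ℕ} (h : cnt E x k ≠ 0) :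
    ∃ i < k, Meets x (E i) := by
  classical
  unfold cnt at h
  rw [card_ne_zero] at h
  obtain ⟨i, hi⟩ := h
  rw [mem_filter, mem_range] at hi
  exact ⟨i, hi.1, hi.2⟩

private theorem adml_cnt_zero {E : ℕ → Finset Node} {x : ℕ → Bool} {k : ℕ} (h : cnt E x k = 0)
    {i : ℕ} (hi : i < k) : ¬ Meets x (E i) := by
  classical
  intro hm
  unfold cnt at h
  rw [card_eq_zero] at h
  have h1 : i ∈ (range k).filter (fun j => Meets x (E j)) := mem_filter.2 ⟨mem_range.2 hi, hm⟩
  rw [h] at h1
  exact notMem_empty i h1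

private theorem adml_cnt_le {E : ℕ → Finset Node} {x : ℕ → Bool} {k i : ℕ}
    (h : ∀ j < k, Meets x (E j) → j ≤ i) : cnt E x k ≤ i + 1 := by
  classical
  unfold cnt
  have h1 : (range k).filter (fun j => Meets x (E j)) ⊆ range (i + 1) := by
    intro j hj
    rw [mem_filter, mem_range] at hj
    rw [mem_range]
    have := h j hj.1 hj.2
    omega
  have h2 := card_le_card h1
  rwa [card_range] at h2

/-- **Incomparable families are admissible.**  For every `x` at most one `i` has `Meets x (E i)`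
(two nodes on `x` are comparable: if `On x s`, `On x t`, `s.length < t.length` then `s <+: t`), so
`cnt E x k ≤ 1` and `cnt E x i = 0` for the `i` that meets `x`; take the `α` of `h0 (x 0)`. If no `i < k` meets `x`
then `cnt E x k = 0` and any `α` works. -/
theorem adm_incomp {n0 : ℕ} (h0 : ∀ b : Bool, ∃ α : ℕ → ℕ, f α 0 = b ∧ α 0 ≤ n0)
    {E : ℕ → Finset Node}
    (hlev : ∀ i j, i < j → ∀ s ∈ E i, ∀ t ∈ E j, s.length < t.length)
    (hn : ∀ i, ∀ s ∈ E i, n0 ≤ s.length)
    (hinc : ∀ i j, i < j → ∀ s ∈ E i, ∀ t ∈ E j, ¬ s <+: t) (k : ℕ) : Adm f E k := by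
  classical
  refine ⟨fun i j hij _ => hlev i j hij, fun x => ?_⟩
  obtain ⟨α, h1, h2⟩ := h0 (x 0)
  have huniq : ∀ i j, i < j → Meets x (E i) → Meets x (E j) → False := by
    rintro i j hij ⟨s, hs, hos⟩ ⟨t, ht, hot⟩
    exact hinc i j hij s hs t ht (adml_prefix hos hot (hlev i j hij s hs t ht).le)
  have hzero : ∀ i, Meets x (E i) → cnt E x i = 0 := by
    intro i hi
    by_contra hne
    obtain ⟨j, hj, hm⟩ := adml_cnt_pos hne
    exact huniq j i hj hm hi
  refine ⟨α, ?_, ?_⟩
  · intro q hq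
    have hne : cnt E x k ≠ 0 := by omega
    have hle : cnt E x k ≤ 1 := by
      unfold cnt
      rw [card_le_one]
      intro a ha b hb
      rw [mem_filter] at ha hb
      rcases lt_trichotomy a b with h | h | h
      · exact (huniq a b h ha.2 hb.2).elim
      · exact h
      · exact (huniq b a h hb.2 ha.2).elim
    have hq0 : q = 0 := by omega
    rw [hq0]
    exact h1
  · intro i _ hm q hq s hs
    rw [hzero i hm] at hq
    have hq0 : q = 0 := by omega
    rw [hq0]
    exact h2.trans (hn i s hs)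

/-- **Families along a compact set `{α ≤ g}`.**  Let `x` be given, `r = cnt E x k`. If `r = 0` trivial. Otherwise
let `i < k` be the largest index with `Meets x (E i)`, `s ∈ E i` with `On x s`; `r ≤ i + 1 ≤ s.length`; take the `α` of
`hc i s`: `f α q = s[q] = x q` for `q ≤ i`, and `α q ≤ g q ≤ t.length` for `t ∈ E j`, `q ≤ cnt E x j ≤ j`. -/
theorem adm_cantor {g : ℕ → ℕ} {E : ℕ → Finset Node}
    (hlev : ∀ i j, i < j → ∀ s ∈ E i, ∀ t ∈ E j, s.length < t.length)
    (hg : ∀ j, ∀ s ∈ E j, ∀ q ≤ j, g q ≤ s.length)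
    (hj : ∀ j, ∀ s ∈ E j, j < s.length)
    (hc : ∀ j, ∀ s ∈ E j, ∃ α : ℕ → ℕ, (∀ q, α q ≤ g q) ∧
      ∀ q (hq : q < s.length), q ≤ j → f α q = s[q]) (k : ℕ) : Adm f E k := by
  classical
  refine ⟨fun i j hij _ => hlev i j hij, fun x => ?_⟩
  by_cases h0 : cnt E x k = 0
  · refine ⟨fun _ => 0, fun q hq => ?_, fun i hi hm => (adml_cnt_zero h0 hi hm).elim⟩
    omega
  · have hne : ((range k).filter (fun j => Meets x (E j))).Nonempty := by
      obtain ⟨i, hi, hm⟩ := adml_cnt_pos h0
      exact ⟨i, mem_filter.2 ⟨mem_range.2 hi, hm⟩⟩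
    set i := ((range k).filter (fun j => Meets x (E j))).max' hne with hidef
    have hi := max'_mem _ hne
    rw [← hidef, mem_filter, mem_range] at hi
    have hmax : ∀ j < k, Meets x (E j) → j ≤ i := by
      intro j hj hm
      exact le_max' _ _ (mem_filter.2 ⟨mem_range.2 hj, hm⟩)
    obtain ⟨s, hs, hos⟩ := hi.2
    obtain ⟨α, hα1, hα2⟩ := hc i s hs
    refine ⟨α, ?_, ?_⟩
    · intro q hq
      have h1 := adml_cnt_le hmax
      have h2 : q ≤ i := by omega
      have h3 := hj i s hs
      rw [hα2 q (by omega) h2]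
      exact hos q (by omega)
    · intro j _ _ q hq t ht
      have h1 : cnt E x j ≤ j := cnt_le
      exact (hα1 q).trans (hg j t ht q (hq.trans h1))

/-- **Families on one branch.**  For `y` with `cnt E y k > 0` some `E i` contains a node `s` with `On y s`,
`On x s`, `k ≤ n ≤ s.length`, so `y q = x q` for `q < k`; take `α`.  (`cnt E y k ≤ k`, `cnt E y i ≤ i < k`.) -/
theorem adm_branch {x : ℕ → Bool} {k n : ℕ} (hkn : k ≤ n) {α : ℕ → ℕ}
    (hα : ∀ q < k, f α q = x q) (hn : ∀ q < k, α q ≤ n) {E : ℕ → Finset Node}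
    (hlev : ∀ i j, i < j → j < k → ∀ s ∈ E i, ∀ t ∈ E j, s.length < t.length)
    (hE : ∀ i < k, ∀ s ∈ E i, On x s ∧ n ≤ s.length) : Adm f E k := by
  classical
  refine ⟨hlev, fun y => ?_⟩
  by_cases h0 : cnt E y k = 0
  · refine ⟨fun _ => 0, fun q hq => ?_, fun i hi hm => (adml_cnt_zero h0 hi hm).elim⟩
    omega
  · obtain ⟨i, hi, s, hs, hos⟩ := adml_cnt_pos h0
    obtain ⟨hxs, hns⟩ := hE i hi s hs
    have hxy : ∀ q < k, x q = y q := by
      intro q hq
      have hq' : q < s.length := by omega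
      rw [← hxs q hq', ← hos q hq']
    refine ⟨α, ?_, ?_⟩
    · intro q hq
      have h1 : cnt E y k ≤ k := cnt_le
      rw [hα q (by omega), hxy q (by omega)]
    · intro j hj _ q hq t ht
      have h1 : cnt E y j ≤ j := cnt_le
      exact (hn q (by omega)).trans (hE j hj t ht).2

end

end Pool.Agent.WCT
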