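import Mathlib

/-! # Tsirelson-type spaces on the binary tree (MP_65e9d7_lc)

`f : (ℕ → ℕ) → (ℕ → Bool)` is a continuous map.  The space `X f` is the closed span of the
vectors `ee s` (one for every node `s` of the binary tree) in `l_inf(N)`, `N` the norming set. -/

namespace Pool.Agent.WCT

open Finset Filter Topology

noncomputable section

/-- nodes of the binary tree -/
abbrev Node := List Bool

/-- the node `s` is an initial segment of `x` -/
def On (x : ℕ → Bool) (s : Node) : Prop := ∀ i (h : i < s.length), s[i] = x i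

/-- the set `E` contains an initial segment of `x` -/
def Meets (x : ℕ → Bool) (E : Finset Node) : Prop := ∃ s ∈ E, On x s

open Classical in
/-- number of `j < i` such that `E j` meets the branch of `x` -/
def cnt (E : ℕ → Finset Node) (x : ℕ → Bool) (i : ℕ) : ℕ :=
  ((range i).filter (fun j => Meets x (E j))).card

/-- admissible families `E 0, ..., E (k-1)` -/
def Adm (f : (ℕ → ℕ) → (ℕ → Bool)) (E : ℕ → Finset Node) (k : ℕ) : Prop :=
  (∀ i j, i < j → j < k → ∀ s ∈ E i, ∀ t ∈ E j, s.length < t.length) ∧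
  ∀ x, ∃ α : ℕ → ℕ, (∀ q < cnt E x k, f α q = x q) ∧
    ∀ i < k, Meets x (E i) → ∀ q ≤ cnt E x i, ∀ s ∈ E i, α q ≤ s.length

/-- the norming set -/
inductive Nrm (f : (ℕ → ℕ) → (ℕ → Bool)) : (Node →₀ ℝ) → Prop
  | single (s : Node) (c : ℝ) (h : |c| ≤ 1) : Nrm f (Finsupp.single s c)
  | comb (k : ℕ) (φ : ℕ → (Node →₀ ℝ)) (h : ∀ i < k, Nrm f (φ i))
      (ha : Adm f (fun i => (φ i).support) k) : Nrm f ((1 / 2 : ℝ) • ∑ i ∈ range k, φ i)

variable {f : (ℕ → ℕ) → (ℕ → Bool)}

theorem meets_mono {x : ℕ → Bool} {E E' : Finset Node} (h : E' ⊆ E) (hm : Meets x E') :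
    Meets x E := by
  obtain ⟨s, hs, ho⟩ := hm
  exact ⟨s, h hs, ho⟩

theorem cnt_mono_left {E E' : ℕ → Finset Node} {x : ℕ → Bool} {i : ℕ}
    (h : ∀ j < i, E' j ⊆ E j) : cnt E' x i ≤ cnt E x i := by
  classical
  unfold cnt
  apply card_le_card
  intro j hj
  simp only [mem_filter, mem_range] at hj ⊢
  exact ⟨hj.1, meets_mono (h j hj.1) hj.2⟩

theorem cnt_mono_right {E : ℕ → Finset Node} {x : ℕ → Bool} {i j : ℕ}
    (h : i ≤ j) : cnt E x i ≤ cnt E x j := by
  classical
  unfold cnt
  apply card_le_card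
  intro l hl
  simp only [mem_filter, mem_range] at hl ⊢
  exact ⟨by omega, hl.2⟩

theorem cnt_le {E : ℕ → Finset Node} {x : ℕ → Bool} {i : ℕ} : cnt E x i ≤ i := by
  classical
  unfold cnt
  calc _ ≤ (range i).card := card_le_card (filter_subset _ _)
    _ = i := card_range i

/-- admissibility is hereditary -/
theorem Adm.mono {E E' : ℕ → Finset Node} {k : ℕ} (h : Adm f E k) (hs : ∀ i < k, E' i ⊆ E i) :
    Adm f E' k := by
  refine ⟨fun i j hij hj s hs' t ht => h.1 i j hij hj s (hs i (by omega) hs') t (hs j hj ht), ?_⟩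
  intro x
  obtain ⟨α, h1, h2⟩ := h.2 x
  refine ⟨α, fun q hq => h1 q (lt_of_lt_of_le hq (cnt_mono_left hs)), ?_⟩
  intro i hi hm q hq s hs'
  exact h2 i hi (meets_mono (hs i hi) hm) q
    (hq.trans (cnt_mono_left (fun j hj => hs j (by omega)))) s (hs i hi hs')

theorem Adm.congr {E E' : ℕ → Finset Node} {k : ℕ} (h : Adm f E k) (hs : ∀ i < k, E' i = E i) :
    Adm f E' k := h.mono (fun i hi => (hs i hi).le)

theorem Adm.le {E : ℕ → Finset Node} {k l : ℕ} (h : Adm f E k) (hl : l ≤ k) : Adm f E l := by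
  refine ⟨fun i j hij hj => h.1 i j hij (by omega), ?_⟩
  intro x
  obtain ⟨α, h1, h2⟩ := h.2 x
  exact ⟨α, fun q hq => h1 q (lt_of_lt_of_le hq (cnt_mono_right hl)),
    fun i hi => h2 i (by omega)⟩

/-- coordinatewise product -/
def mulF (σ : Node → ℝ) (φ : Node →₀ ℝ) : Node →₀ ℝ :=
  Finsupp.onFinset φ.support (fun s => σ s * φ s) (by
    intro s hs
    simp only [Finsupp.mem_support_iff]
    intro h
    apply hs
    rw [h, mul_zero])

@[simp] theorem mulF_apply (σ : Node → ℝ) (φ : Node →₀ ℝ) (s : Node) :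
    mulF σ φ s = σ s * φ s := rfl

theorem mulF_support (σ : Node → ℝ) (φ : Node →₀ ℝ) : (mulF σ φ).support ⊆ φ.support := by
  intro s hs
  simp only [Finsupp.mem_support_iff, mulF_apply] at hs ⊢
  intro h
  apply hs
  rw [h, mul_zero]

theorem Nrm.zero : Nrm f 0 := by
  have h := Nrm.single (f := f) ([] : Node) 0 (by simp)
  simpa using h

theorem Nrm.mul {φ : Node →₀ ℝ} (h : Nrm f φ) {σ : Node → ℝ} (hσ : ∀ s, |σ s| ≤ 1) :
    Nrm f (mulF σ φ) := by
  induction h with
  | single s c hc =>
    have : mulF σ (Finsupp.single s c) = Finsupp.single s (σ s * c) := by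
      ext t
      simp only [mulF_apply, Finsupp.single_apply]
      split_ifs with h
      · rw [h]
      · simp
    rw [this]
    apply Nrm.single
    rw [abs_mul]
    exact mul_le_one₀ (hσ s) (abs_nonneg _) hc
  | comb k φ h ha ih =>
    have : mulF σ ((1 / 2 : ℝ) • ∑ i ∈ range k, φ i) =
        (1 / 2 : ℝ) • ∑ i ∈ range k, mulF σ (φ i) := by
      ext t
      simp only [mulF_apply, Finsupp.smul_apply, Finsupp.finsetSum_apply, smul_eq_mul]
      rw [mul_left_comm, Finset.mul_sum]
    rw [this]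
    exact Nrm.comb k _ ih (ha.mono (fun i _ => mulF_support σ (φ i)))

theorem Nrm.neg {φ : Node →₀ ℝ} (h : Nrm f φ) : Nrm f (-φ) := by
  have h1 := h.mul (σ := fun _ => -1) (by intro; simp)
  have : mulF (fun _ => (-1 : ℝ)) φ = -φ := by
    ext s; simp
  rwa [this] at h1

/-- restriction to a set of nodes -/
def resF (S : Set Node) (φ : Node →₀ ℝ) : Node →₀ ℝ := mulF (S.indicator 1) φ

theorem resF_apply_mem {S : Set Node} {φ : Node →₀ ℝ} {s : Node} (h : s ∈ S) :
    resF S φ s = φ s := by simp [resF, h]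

theorem resF_apply_not_mem {S : Set Node} {φ : Node →₀ ℝ} {s : Node} (h : s ∉ S) :
    resF S φ s = 0 := by simp [resF, h]

theorem Nrm.res {φ : Node →₀ ℝ} (h : Nrm f φ) (S : Set Node) : Nrm f (resF S φ) := by
  apply h.mul
  intro s
  by_cases hs : s ∈ S <;> simp [hs]

theorem resF_support_mem {S : Set Node} {φ : Node →₀ ℝ} {s : Node}
    (h : s ∈ (resF S φ).support) : s ∈ S ∧ s ∈ φ.support := by
  constructor
  · by_contra hs
    exact (Finsupp.mem_support_iff.1 h) (resF_apply_not_mem hs)
  · exact mulF_support _ _ h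

theorem Nrm.abs_le {φ : Node →₀ ℝ} (h : Nrm f φ) (s : Node) : |φ s| ≤ 1 := by
  induction h with
  | single t c hc =>
    rw [Finsupp.single_apply]
    split_ifs
    · exact hc
    · simp
  | comb k φ h ha ih =>
    simp only [Finsupp.smul_apply, Finsupp.finsetSum_apply, smul_eq_mul]
    by_cases hex : ∃ i ∈ range k, φ i s ≠ 0
    · obtain ⟨i, hi, his⟩ := hex
      rw [mem_range] at hi
      have : ∑ j ∈ range k, φ j s = φ i s := by
        apply Finset.sum_eq_single_of_mem i (mem_range.2 hi)
        intro j hj hji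
        rw [mem_range] at hj
        by_contra hne
        rcases lt_or_gt_of_ne hji with h1 | h1
        · exact lt_irrefl _ (ha.1 j i h1 hi s (Finsupp.mem_support_iff.2 hne) s
            (Finsupp.mem_support_iff.2 his))
        · exact lt_irrefl _ (ha.1 i j h1 hj s (Finsupp.mem_support_iff.2 his) s
            (Finsupp.mem_support_iff.2 hne))
      rw [this, abs_mul]
      have := ih i hi
      rw [abs_of_pos (by norm_num : (0 : ℝ) < 1 / 2)]
      linarith [abs_nonneg (φ i s)]
    · push Not at hex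
      rw [Finset.sum_eq_zero hex]
      simp

/-- the norming set as a type -/
abbrev NN (f : (ℕ → ℕ) → (ℕ → Bool)) := {φ : Node →₀ ℝ // Nrm f φ}

/-- the ambient space -/
abbrev Amb (f : (ℕ → ℕ) → (ℕ → Bool)) := lp (fun _ : NN f => ℝ) ⊤

/-- the vector of the node `s` -/
def ee (f : (ℕ → ℕ) → (ℕ → Bool)) (s : Node) : Amb f :=
  ⟨fun φ => φ.1 s, memℓp_infty ⟨1, by
    rintro _ ⟨φ, rfl⟩
    exact φ.2.abs_le s⟩⟩

theorem ee_apply (s : Node) (φ : NN f) : (ee f s) φ = φ.1 s := rfl

/-- the Banach space attached to `f`, as a closed subspace of the ambient space -/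
def XS (f : (ℕ → ℕ) → (ℕ → Bool)) : Submodule ℝ (Amb f) :=
  (Submodule.span ℝ (Set.range (ee f))).topologicalClosure

theorem isClosed_XS : IsClosed (XS f : Set (Amb f)) :=
  Submodule.isClosed_topologicalClosure _

/-- the Banach space attached to `f` -/
def X (f : (ℕ → ℕ) → (ℕ → Bool)) : Type := XS f

instance : NormedAddCommGroup (X f) := inferInstanceAs (NormedAddCommGroup (XS f))

instance : NormedSpace ℝ (X f) := inferInstanceAs (NormedSpace ℝ (XS f))

instance : CompleteSpace (X f) :=
  (isClosed_XS (f := f)).completeSpace_coe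

/-- the inclusion in the ambient space -/
def inc (f : (ℕ → ℕ) → (ℕ → Bool)) : X f →L[ℝ] Amb f := (XS f).subtypeL

theorem inc_mem (x : X f) : inc f x ∈ XS f := Subtype.property (p := fun y => y ∈ XS f) x

/-- elements of `X f` from elements of the subspace -/
def mkX (y : Amb f) (h : y ∈ XS f) : X f := ⟨y, h⟩

theorem inc_mkX (y : Amb f) (h : y ∈ XS f) : inc f (mkX y h) = y := rfl

theorem inc_inj {x y : X f} (h : inc f x = inc f y) : x = y := Subtype.ext h

theorem norm_inc (x : X f) : ‖inc f x‖ = ‖x‖ := rfl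

/-- the vector of the node `s` in `X f` -/
def eX (f : (ℕ → ℕ) → (ℕ → Bool)) (s : Node) : X f :=
  mkX (ee f s) (Submodule.le_topologicalClosure _ (Submodule.subset_span ⟨s, rfl⟩))

/-- evaluation at an element of the norming set -/
def evA (φ : NN f) : Amb f →L[ℝ] ℝ :=
  LinearMap.mkContinuous
    { toFun := fun x => x φ
      map_add' := fun x y => by simp
      map_smul' := fun c x => by simp } 1 (by
      intro x
      rw [one_mul]
      exact lp.norm_apply_le_norm (by simp) x φ)

theorem evA_apply (φ : NN f) (x : Amb f) : evA φ x = x φ := rfl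

/-- the functional `single s 1` of the norming set -/
def sg (f : (ℕ → ℕ) → (ℕ → Bool)) (s : Node) : NN f :=
  ⟨Finsupp.single s 1, Nrm.single s 1 (by simp)⟩

/-- the coordinate functional -/
def coL (f : (ℕ → ℕ) → (ℕ → Bool)) (s : Node) : X f →L[ℝ] ℝ :=
  (evA (sg f s)).comp (inc f)

/-- the coordinate of `x` at `s` -/
def co (x : X f) (s : Node) : ℝ := coL f s x

theorem co_eq (x : X f) (s : Node) : co x s = (inc f x) (sg f s) := rfl

theorem coL_apply (s : Node) (x : X f) : coL f s x = co x s := rfl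

theorem co_add (x y : X f) (s : Node) : co (x + y) s = co x s + co y s := by
  simp [co]

theorem co_sub (x y : X f) (s : Node) : co (x - y) s = co x s - co y s := by
  simp [co]

theorem co_smul (c : ℝ) (x : X f) (s : Node) : co (c • x) s = c * co x s := by
  simp [co]

theorem co_zero (s : Node) : co (0 : X f) s = 0 := by simp [co]

theorem co_sum {ι : Type*} (A : Finset ι) (x : ι → X f) (s : Node) :
    co (∑ i ∈ A, x i) s = ∑ i ∈ A, co (x i) s := by
  simp [co]

theorem co_eX (s t : Node) : co (eX f s) t = if s = t then 1 else 0 := by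
  rw [co_eq, eX, inc_mkX, ee_apply, sg, Finsupp.single_apply]
  simp only [eq_comm]

/-- evaluation at a finitely supported functional -/
def ev (φ : Node →₀ ℝ) : X f →L[ℝ] ℝ := ∑ s ∈ φ.support, φ s • coL f s

theorem ev_apply (φ : Node →₀ ℝ) (x : X f) : ev φ x = ∑ s ∈ φ.support, φ s * co x s := by
  simp [ev, co]

theorem ev_eq_sum (φ : Node →₀ ℝ) (x : X f) {A : Finset Node} (h : φ.support ⊆ A) :
    ev φ x = ∑ s ∈ A, φ s * co x s := by
  rw [ev_apply]
  apply Finset.sum_subset h
  intro s _ hs
  rw [Finsupp.notMem_support_iff.1 hs, zero_mul]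

theorem ev_add (φ ψ : Node →₀ ℝ) (x : X f) : ev (φ + ψ) x = ev φ x + ev ψ x := by
  classical
  rw [ev_eq_sum (φ + ψ) x (A := φ.support ∪ ψ.support) Finsupp.support_add,
    ev_eq_sum φ x (A := φ.support ∪ ψ.support) subset_union_left,
    ev_eq_sum ψ x (A := φ.support ∪ ψ.support) subset_union_right, ← Finset.sum_add_distrib]
  apply Finset.sum_congr rfl
  intro s _
  rw [Finsupp.add_apply, add_mul]

theorem ev_smul (c : ℝ) (φ : Node →₀ ℝ) (x : X f) : ev (c • φ) x = c * ev φ x := by
  rw [ev_eq_sum (c • φ) x (A := φ.support) Finsupp.support_smul, ev_apply, Finset.mul_sum]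
  apply Finset.sum_congr rfl
  intro s _
  rw [Finsupp.smul_apply, smul_eq_mul, mul_assoc]

theorem ev_zero (x : X f) : ev (0 : Node →₀ ℝ) x = 0 := by simp [ev_apply]

theorem ev_neg (φ : Node →₀ ℝ) (x : X f) : ev (-φ) x = -ev φ x := by
  have := ev_smul (-1) φ x
  simpa using this

theorem ev_finset_sum {ι : Type*} (A : Finset ι) (φ : ι → Node →₀ ℝ) (x : X f) :
    ev (∑ i ∈ A, φ i) x = ∑ i ∈ A, ev (φ i) x := by
  classical
  induction A using Finset.induction_on with
  | empty => simp [ev_zero]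
  | insert a A ha ih => rw [Finset.sum_insert ha, Finset.sum_insert ha, ev_add, ih]

theorem ev_single (s : Node) (c : ℝ) (x : X f) : ev (Finsupp.single s c) x = c * co x s := by
  rw [ev_eq_sum _ x (A := {s}) Finsupp.support_single_subset]
  simp

/-- the span of the vectors `eX` is dense -/
theorem dense_span_eX : Dense (Submodule.span ℝ (Set.range (eX f)) : Set (X f)) := by
  intro z
  have hemb : IsEmbedding (inc f) := IsEmbedding.subtypeVal
  rw [hemb.closure_eq_preimage_closure_image]
  have hz : inc f z ∈ closure (Submodule.span ℝ (Set.range (ee f)) : Set (Amb f)) := inc_mem z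
  have himg : inc f '' (Submodule.span ℝ (Set.range (eX f)) : Set (X f)) =
      (Submodule.span ℝ (Set.range (ee f)) : Set (Amb f)) := by
    have h1 : (Submodule.span ℝ (Set.range (eX f))).map (inc f).toLinearMap =
        Submodule.span ℝ (Set.range (ee f)) := by
      rw [Submodule.map_span]
      congr 1
      ext w
      constructor
      · rintro ⟨_, ⟨s, rfl⟩, rfl⟩
        exact ⟨s, rfl⟩
      · rintro ⟨s, rfl⟩
        exact ⟨_, ⟨s, rfl⟩, rfl⟩
    rw [← h1]
    rfl
  rw [Set.mem_preimage, himg]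
  exact hz

/-- the evaluation at `φ` in terms of coordinates -/
theorem coe_apply_eq_ev (x : X f) (φ : NN f) : (inc f x) φ = ev φ.1 x := by
  have hcl : IsClosed {x : X f | (inc f x) φ = ev φ.1 x} := by
    apply isClosed_eq
    · exact (evA φ).continuous.comp (inc f).continuous
    · exact (ev φ.1).continuous
  have key : (Submodule.span ℝ (Set.range (eX f)) : Set (X f)) ⊆
      {x : X f | (inc f x) φ = ev φ.1 x} := by
    intro y hy
    change y ∈ Submodule.span ℝ (Set.range (eX f)) at hy
    change evA φ (inc f y) = ev φ.1 y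
    induction hy using Submodule.span_induction with
    | mem y hy =>
      obtain ⟨s, rfl⟩ := hy
      change φ.1 s = ev φ.1 (eX f s)
      rw [ev_apply]
      simp only [co_eX, mul_ite, mul_one, mul_zero]
      rw [Finset.sum_ite_eq]
      split_ifs with h
      · rfl
      · exact Finsupp.notMem_support_iff.1 h
    | zero => simp only [map_zero]
    | add y z hy hz ihy ihz => simp only [map_add, ihy, ihz]
    | smul c y hy ihy => simp only [map_smul, ihy]
  have := hcl.closure_subset_iff.2 key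
  exact this (dense_span_eX x)

theorem ev_le {φ : Node →₀ ℝ} (h : Nrm f φ) (x : X f) : |ev φ x| ≤ ‖x‖ := by
  have h1 := coe_apply_eq_ev x ⟨φ, h⟩
  rw [← h1]
  exact lp.norm_apply_le_norm (by simp) (inc f x) ⟨φ, h⟩

theorem norm_le {x : X f} {C : ℝ} (hC : 0 ≤ C) (h : ∀ φ, Nrm f φ → |ev φ x| ≤ C) :
    ‖x‖ ≤ C := by
  rw [← norm_inc]
  apply lp.norm_le_of_forall_le hC
  intro φ
  rw [coe_apply_eq_ev]
  exact h φ.1 φ.2

theorem norm_le' {x : X f} {C : ℝ} (h : ∀ φ, Nrm f φ → ev φ x ≤ C) :
    ‖x‖ ≤ C := by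
  apply norm_le
  · have := h 0 Nrm.zero
    rwa [ev_zero] at this
  · intro φ hφ
    rw [abs_le]
    constructor
    · have := h _ hφ.neg
      rw [ev_neg] at this
      linarith
    · exact h φ hφ

theorem abs_co_le (x : X f) (s : Node) : |co x s| ≤ ‖x‖ := by
  have := ev_le (Nrm.single (f := f) s 1 (by simp)) x
  rwa [ev_single, one_mul] at this

theorem X_ext {x y : X f} (h : ∀ s, co x s = co y s) : x = y := by
  apply inc_inj
  ext φ
  rw [coe_apply_eq_ev, coe_apply_eq_ev, ev_apply, ev_apply]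
  apply Finset.sum_congr rfl
  intro s _
  rw [h]

/-- restriction to `S` on the ambient space -/
def PA (f : (ℕ → ℕ) → (ℕ → Bool)) (S : Set Node) : Amb f →L[ℝ] Amb f :=
  LinearMap.mkContinuous
    { toFun := fun x => ⟨fun φ => x ⟨resF S φ.1, φ.2.res S⟩, memℓp_infty ⟨‖x‖, by
        rintro _ ⟨φ, rfl⟩
        exact lp.norm_apply_le_norm (by simp) x _⟩⟩
      map_add' := fun x y => by ext φ; rfl
      map_smul' := fun c x => by ext φ; rfl } 1 (by
      intro x
      rw [one_mul]
      apply lp.norm_le_of_forall_le (norm_nonneg _)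
      intro φ
      exact lp.norm_apply_le_norm (by simp) x _)

theorem PA_apply (S : Set Node) (x : Amb f) (φ : NN f) :
    (PA f S x) φ = x ⟨resF S φ.1, φ.2.res S⟩ := rfl

theorem PA_ee (S : Set Node) (s : Node) : PA f S (ee f s) = S.indicator (fun s => ee f s) s := by
  by_cases h : s ∈ S
  · rw [Set.indicator_of_mem h]
    ext φ
    rw [PA_apply, ee_apply, ee_apply, resF_apply_mem h]
  · rw [Set.indicator_of_notMem h]
    ext φ
    rw [PA_apply, ee_apply, resF_apply_not_mem h]
    rfl

theorem PA_mem (S : Set Node) (x : Amb f) (hx : x ∈ XS f) : PA f S x ∈ XS f := by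
  have h1 : (XS f) ≤ (XS f).comap (PA f S).toLinearMap := by
    apply Submodule.topologicalClosure_minimal
    · rw [Submodule.span_le]
      rintro _ ⟨s, rfl⟩
      change PA f S (ee f s) ∈ XS f
      rw [PA_ee]
      by_cases h : s ∈ S
      · rw [Set.indicator_of_mem h]
        exact inc_mem (eX f s)
      · rw [Set.indicator_of_notMem h]
        exact (XS f).zero_mem
    · exact isClosed_XS.preimage (PA f S).continuous
  exact h1 hx

/-- the projection onto the coordinates in `S` -/
def PS (S : Set Node) : X f →L[ℝ] X f :=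
  ((PA f S).comp (inc f)).codRestrict (XS f) (fun x => PA_mem S (inc f x) (inc_mem x))

theorem inc_PS (S : Set Node) (x : X f) : inc f (PS S x) = PA f S (inc f x) := rfl

theorem resF_single_mem {S : Set Node} {s : Node} (h : s ∈ S) (c : ℝ) :
    resF S (Finsupp.single s c) = Finsupp.single s c := by
  ext t
  by_cases ht : t ∈ S
  · rw [resF_apply_mem ht]
  · rw [resF_apply_not_mem ht, Finsupp.single_apply, if_neg]
    rintro rfl
    exact ht h

theorem resF_single_not_mem {S : Set Node} {s : Node} (h : s ∉ S) (c : ℝ) :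
    resF S (Finsupp.single s c) = 0 := by
  ext t
  by_cases ht : t ∈ S
  · rw [resF_apply_mem ht, Finsupp.single_apply, if_neg]
    · rfl
    · rintro rfl; exact h ht
  · rw [resF_apply_not_mem ht]; rfl

theorem co_PS' (S : Set Node) (s : Node) (x : X f) :
    co (PS S x) s = ev (resF S (Finsupp.single s 1)) x := by
  rw [co_eq, inc_PS, PA_apply, coe_apply_eq_ev]
  rfl

theorem co_PS_mem {S : Set Node} {s : Node} (h : s ∈ S) (x : X f) : co (PS S x) s = co x s := by
  rw [co_PS', resF_single_mem h, ev_single, one_mul]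

theorem co_PS_not_mem {S : Set Node} {s : Node} (h : s ∉ S) (x : X f) :
    co (PS S x) s = 0 := by
  rw [co_PS', resF_single_not_mem h, ev_zero]

open Classical in
theorem co_PS (S : Set Node) (s : Node) (x : X f) :
    co (PS S x) s = if s ∈ S then co x s else 0 := by
  split_ifs with h
  · exact co_PS_mem h x
  · exact co_PS_not_mem h x

theorem ev_PS (S : Set Node) (φ : Node →₀ ℝ) (x : X f) : ev φ (PS S x) = ev (resF S φ) x := by
  rw [ev_apply, ev_eq_sum (resF S φ) x (A := φ.support) (mulF_support _ _)]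
  apply Finset.sum_congr rfl
  intro s _
  by_cases h : s ∈ S
  · rw [co_PS_mem h, resF_apply_mem h]
  · rw [co_PS_not_mem h, resF_apply_not_mem h, mul_zero, zero_mul]

theorem norm_PS_le (S : Set Node) (x : X f) : ‖PS S x‖ ≤ ‖x‖ := by
  apply norm_le (norm_nonneg _)
  intro φ hφ
  rw [ev_PS]
  exact ev_le (hφ.res S) x

theorem PS_PS (S S' : Set Node) (x : X f) : PS S (PS S' x) = PS (S ∩ S') x := by
  classical
  apply X_ext
  intro s
  simp only [co_PS, Set.mem_inter_iff]
  split_ifs <;> tauto

theorem PS_mono_norm {S S' : Set Node} (h : S ⊆ S') (x : X f) : ‖PS S x‖ ≤ ‖PS S' x‖ := by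
  have : PS S x = PS S (PS S' x) := by
    rw [PS_PS, Set.inter_eq_left.2 h]
  rw [this]
  exact norm_PS_le S _

theorem PS_compl (S : Set Node) (x : X f) : PS Sᶜ x = x - PS S x := by
  classical
  apply X_ext
  intro s
  rw [co_sub]
  simp only [co_PS, Set.mem_compl_iff]
  split_ifs <;> simp_all

theorem PS_add_compl (S : Set Node) (x : X f) : PS S x + PS Sᶜ x = x := by
  rw [PS_compl]; abel

theorem PS_eX_mem {S : Set Node} {s : Node} (h : s ∈ S) : PS S (eX f s) = eX f s := by
  apply X_ext
  intro t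
  by_cases ht : t ∈ S
  · rw [co_PS_mem ht]
  · rw [co_PS_not_mem ht, co_eX, if_neg]
    rintro rfl; exact ht h

theorem PS_eX_not_mem {S : Set Node} {s : Node} (h : s ∉ S) : PS S (eX f s) = 0 := by
  apply X_ext
  intro t
  rw [co_zero]
  by_cases ht : t ∈ S
  · rw [co_PS_mem ht, co_eX, if_neg]
    rintro rfl; exact h ht
  · rw [co_PS_not_mem ht]

theorem norm_eX (s : Node) : ‖eX f s‖ = 1 := by
  apply le_antisymm
  · apply norm_le zero_le_one
    intro φ hφ
    have : ev φ (eX f s) = φ s := by
      rw [ev_apply]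
      simp only [co_eX, mul_ite, mul_one, mul_zero]
      rw [Finset.sum_ite_eq]
      split_ifs with h
      · rfl
      · exact (Finsupp.notMem_support_iff.1 h).symm
    rw [this]
    exact hφ.abs_le s
  · have := abs_co_le (eX f s) s
    rw [co_eX, if_pos rfl] at this
    simpa using this

/-- a witness for the norm of a projection -/
theorem exists_phi {S : Set Node} {x : X f} {ε : ℝ} (h : ε < ‖PS S x‖) :
    ∃ φ, Nrm f φ ∧ (∀ s ∈ φ.support, s ∈ S) ∧ ε < ev φ x := by
  by_contra hcon
  push Not at hcon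
  have : ‖PS S x‖ ≤ ε := by
    apply norm_le'
    intro φ hφ
    rw [ev_PS]
    exact hcon _ (hφ.res S) (fun s hs => (resF_support_mem hs).1)
  linarith

/-- the level sets -/
def Lv (n : ℕ) : Set Node := {s | s.length ≤ n}

theorem Lv_mono {m n : ℕ} (h : m ≤ n) : Lv m ⊆ Lv n := fun _ hs => le_trans hs h

/-- tails go to zero -/
theorem tail_tendsto (x : X f) : Tendsto (fun n => ‖PS (Lv n)ᶜ x‖) atTop (𝓝 0) := by
  rw [Metric.tendsto_atTop]
  intro ε hε
  obtain ⟨y, hy, hxy⟩ := Metric.dense_iff.1 (dense_span_eX (f := f)) x ε hε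
  have hspan : ∀ y ∈ Submodule.span ℝ (Set.range (eX f)), ∃ n0, ∀ n ≥ n0,
      PS (f := f) (Lv n)ᶜ y = 0 := by
    intro y hy
    induction hy using Submodule.span_induction with
    | mem y hy =>
      obtain ⟨s, rfl⟩ := hy
      refine ⟨s.length, fun n hn => PS_eX_not_mem ?_⟩
      simp only [Set.mem_compl_iff, not_not]
      exact hn
    | zero => exact ⟨0, fun n _ => map_zero _⟩
    | add y z _ _ ihy ihz =>
      obtain ⟨n1, h1⟩ := ihy
      obtain ⟨n2, h2⟩ := ihz
      refine ⟨max n1 n2, fun n hn => ?_⟩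
      rw [map_add, h1 n (le_trans (le_max_left _ _) hn), h2 n (le_trans (le_max_right _ _) hn),
        add_zero]
    | smul c y _ ihy =>
      obtain ⟨n1, h1⟩ := ihy
      exact ⟨n1, fun n hn => by rw [map_smul, h1 n hn, smul_zero]⟩
  obtain ⟨n0, hn0⟩ := hspan y hxy
  refine ⟨n0, fun n hn => ?_⟩
  rw [Real.dist_eq, sub_zero, abs_of_nonneg (norm_nonneg _)]
  have h3 : PS (Lv n)ᶜ x = PS (Lv n)ᶜ (x - y) := by
    rw [map_sub, hn0 n hn, sub_zero]
  rw [h3]
  refine lt_of_le_of_lt (norm_PS_le _ _) ?_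
  rw [← dist_eq_norm, dist_comm]
  exact hy

theorem PS_Lv_tendsto (x : X f) : Tendsto (fun n => PS (Lv n) x) atTop (𝓝 x) := by
  rw [tendsto_iff_norm_sub_tendsto_zero]
  refine (tail_tendsto x).congr (fun n => ?_)
  rw [PS_compl, norm_sub_rev]

instance : TopologicalSpace.SeparableSpace (X f) := by
  have h1 : TopologicalSpace.IsSeparable
      (Submodule.span ℝ (Set.range (eX f)) : Set (X f)) :=
    (Set.countable_range (eX f)).isSeparable.span
  rw [← TopologicalSpace.isSeparable_univ_iff]
  have h2 := h1.closure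
  rwa [(dense_span_eX (f := f)).closure_eq] at h2

/-- finite sets of nodes of bounded level -/
theorem finite_Lv (n : ℕ) : (Lv n).Finite := by
  have : Lv n ⊆ ⋃ i ∈ Set.Iic n, {s : Node | s.length = i} := by
    intro s hs
    simp only [Set.mem_iUnion, Set.mem_Iic, Set.mem_ofPred_eq]
    exact ⟨s.length, hs, rfl⟩
  refine Set.Finite.subset ?_ this
  exact (Set.finite_Iic n).biUnion (fun i _ => List.finite_length_eq Bool i)

end

end Pool.Agent.WCT
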