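import Pool.Agent.WCT.AdmL

/-!
# Bounded completeness on branches (module Bdd)
-/

namespace Pool.Agent.WCT

open Finset Filter Topology

noncomputable section

variable {f : (ℕ → ℕ) → (ℕ → Bool)}

/-- partial sums -/
private def bdd_y (f : (ℕ → ℕ) → (ℕ → Bool)) (v : Node → ℝ) (n : ℕ) : X f :=
  ∑ s ∈ (finite_Lv n).toFinset, v s • eX f s

private theorem bdd_co_mem {v : Node → ℝ} {n : ℕ} {s : Node} (h : s.length ≤ n) :
    co (bdd_y f v n) s = v s := by
  classical
  unfold bdd_y
  rw [co_sum]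
  simp only [co_smul, co_eX, mul_ite, mul_one, mul_zero]
  rw [Finset.sum_ite_eq', if_pos]
  rw [Set.Finite.mem_toFinset]
  exact h

private theorem bdd_co_not_mem {v : Node → ℝ} {n : ℕ} {s : Node} (h : ¬ s.length ≤ n) :
    co (bdd_y f v n) s = 0 := by
  classical
  unfold bdd_y
  rw [co_sum]
  simp only [co_smul, co_eX, mul_ite, mul_one, mul_zero]
  rw [Finset.sum_ite_eq', if_neg]
  rw [Set.Finite.mem_toFinset]
  exact h

private theorem bdd_step {x : ℕ → Bool} {v : Node → ℝ} (hv : ∀ s, v s ≠ 0 → On x s) {δ : ℝ}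
    {n m : ℕ} (hnm : n ≤ m) (h : δ < ‖bdd_y f v m - bdd_y f v n‖) :
    ∃ φ, Nrm f φ ∧ (∀ s ∈ φ.support, On x s ∧ n < s.length ∧ s.length ≤ m) ∧
      δ < ∑ s ∈ φ.support, φ s * v s := by
  classical
  set S : Set Node := {s | On x s ∧ n < s.length ∧ s.length ≤ m} with hS
  have hP : PS S (bdd_y f v m - bdd_y f v n) = bdd_y f v m - bdd_y f v n := by
    apply X_ext
    intro s
    by_cases hs : s ∈ S
    · rw [co_PS_mem hs]
    · rw [co_PS_not_mem hs, co_sub]
      by_cases h1 : s.length ≤ n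
      · rw [bdd_co_mem (h1.trans hnm), bdd_co_mem h1, sub_self]
      · by_cases h2 : s.length ≤ m
        · rw [bdd_co_mem h2, bdd_co_not_mem h1, sub_zero]
          by_contra hne
          exact hs ⟨hv s (Ne.symm hne), not_le.1 h1, h2⟩
        · rw [bdd_co_not_mem h2, bdd_co_not_mem h1, sub_zero]
  rw [← hP] at h
  obtain ⟨φ, h1, h2, h3⟩ := exists_phi h
  refine ⟨φ, h1, h2, ?_⟩
  rw [ev_apply] at h3
  refine lt_of_lt_of_eq h3 ?_
  apply Finset.sum_congr rfl
  intro s hs
  obtain ⟨_, ha, hb⟩ := h2 s hs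
  rw [co_sub, bdd_co_mem hb, bdd_co_not_mem (not_le.2 ha), sub_zero]

/-- **Bounded completeness.**  Proof. Let `y n = ∑ s ∈ (finite_Lv n).toFinset, v s • eX f s`, so `co (y n) s = v s` for `s.length ≤ n`, `0` otherwise.
If `(y n)` is Cauchy its limit `y` has the coordinates `v` (continuity of `coL f s`). Otherwise there is `δ > 0` with, for all `n`, some `m ≥ n`
with `‖y m - y n‖ > δ` (or use `Metric.cauchySeq_iff'`); by `exists_phi` (or `norm_le'`) this gives `φ ∈ N` with support in
`{s | On x s ∧ n < s.length ∧ s.length ≤ m}` and `∑ φ s * v s > δ`. Take `k` with `k * δ / 2 > C`, `α` with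
`f α q = x q` for `q < k` (`hd`), and `φ_0, ..., φ_{k-1}` of this kind with successive levels, all levels `≥ max k (max α q)`.
By `adm_branch` the supports are admissible, so `(1/2) ∑ φ_i ∈ N`, and its value on `v` is `> k δ / 2 > C`: contradiction with `hC`. -/
theorem bdd (hd : ∀ (x : ℕ → Bool) (k : ℕ), ∃ α, ∀ q < k, f α q = x q)
    {x : ℕ → Bool} {v : Node → ℝ} (hv : ∀ s, v s ≠ 0 → On x s) {C : ℝ}
    (hC : ∀ φ, Nrm f φ → |∑ s ∈ φ.support, φ s * v s| ≤ C) : ∃ y : X f, ∀ s, co y s = v s := by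
  classical
  by_cases hcau : CauchySeq (bdd_y f v)
  · obtain ⟨z, hz⟩ := cauchySeq_tendsto_of_complete hcau
    refine ⟨z, fun s => ?_⟩
    have h1 : Tendsto (fun n => coL f s (bdd_y f v n)) atTop (𝓝 (coL f s z)) :=
      ((coL f s).continuous.tendsto z).comp hz
    have h2 : Tendsto (fun n => coL f s (bdd_y f v n)) atTop (𝓝 (v s)) := by
      apply tendsto_const_nhds.congr'
      filter_upwards [eventually_ge_atTop s.length] with n hn
      exact (bdd_co_mem hn).symm
    exact tendsto_nhds_unique h1 h2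
  · exfalso
    rw [Metric.cauchySeq_iff'] at hcau
    push Not at hcau
    obtain ⟨ε, hε, hN⟩ := hcau
    have hstep : ∀ n : ℕ, ∃ p : (Node →₀ ℝ) × ℕ, n ≤ p.2 ∧ Nrm f p.1 ∧
        (∀ s ∈ p.1.support, On x s ∧ n < s.length ∧ s.length ≤ p.2) ∧
        ε / 2 < ∑ s ∈ p.1.support, p.1 s * v s := by
      intro n
      obtain ⟨m, hm, hd1⟩ := hN n
      have h1 : ε / 2 < ‖bdd_y f v m - bdd_y f v n‖ := by
        rw [← dist_eq_norm]
        linarith
      obtain ⟨φ, h2, h3, h4⟩ := bdd_step hv hm h1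
      exact ⟨(φ, m), hm, h2, h3, h4⟩
    choose p hp1 hp2 hp3 hp4 using hstep
    obtain ⟨k, hk⟩ := exists_nat_gt (C / (ε / 4))
    have hk' : C < k * (ε / 4) := by
      rwa [div_lt_iff₀ (by positivity)] at hk
    obtain ⟨α, hα⟩ := hd x k
    set n0 : ℕ := max k ((range k).sup α) with hn0
    let N : ℕ → ℕ := fun i => Nat.rec n0 (fun _ r => (p r).2) i
    have hNs : ∀ i, N (i + 1) = (p (N i)).2 := fun i => rfl
    have hN0 : N 0 = n0 := rfl
    have hmono : Monotone N := by
      apply monotone_nat_of_le_succ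
      intro i
      rw [hNs]
      exact hp1 (N i)
    have hge : ∀ i, n0 ≤ N i := fun i => by
      rw [← hN0]; exact hmono (Nat.zero_le i)
    have hadm : Adm f (fun i => ((p (N i)).1).support) k := by
      apply adm_branch (x := x) (n := n0) (le_max_left _ _) hα
      · intro q hq
        exact le_trans (Finset.le_sup (f := α) (mem_range.2 hq)) (le_max_right _ _)
      · intro i j hij _ s hs t ht
        have h1 := (hp3 (N i) s hs).2.2
        have h2 := (hp3 (N j) t ht).2.1
        have h3 : N (i + 1) ≤ N j := hmono hij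
        rw [hNs] at h3
        omega
      · intro i _ s hs
        obtain ⟨h1, h2, _⟩ := hp3 (N i) s hs
        exact ⟨h1, (hge i).trans h2.le⟩
    have hnrm := Nrm.comb k (fun i => (p (N i)).1) (fun i _ => hp2 (N i)) hadm
    have hle := hC _ hnrm
    have hL : ∀ φ : Node →₀ ℝ, ∑ s ∈ φ.support, φ s * v s = Finsupp.linearCombination ℝ v φ := by
      intro φ
      rw [Finsupp.linearCombination_apply, Finsupp.sum]
      rfl
    rw [hL, map_smul, map_sum, smul_eq_mul] at hle
    have hsum : (k : ℝ) * (ε / 2) ≤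
        ∑ i ∈ range k, Finsupp.linearCombination ℝ v (p (N i)).1 := by
      have h1 : ∀ i ∈ range k, ε / 2 ≤ Finsupp.linearCombination ℝ v (p (N i)).1 := by
        intro i _
        rw [← hL]
        exact (hp4 (N i)).le
      have h2 := Finset.card_nsmul_le_sum (range k) _ _ h1
      rw [card_range, nsmul_eq_mul] at h2
      exact h2
    have h5 := le_trans (le_abs_self _) hle
    linarith

end

end Pool.Agent.WCT
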