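import Pool.Agent.WCT.Basic

/-!
# Consequences of `#D < 𝔠` (module Card)
-/

namespace Pool.Agent.WCT

open Cardinal

theorem card_cantor : #(ℕ → Bool) = 𝔠 := by
  rw [← Cardinal.power_def, Cardinal.mk_bool, Cardinal.mk_nat, Cardinal.two_power_aleph0]

/-- Proof: a cylinder has `𝔠` elements. -/
theorem dense_of_card {f : (ℕ → ℕ) → (ℕ → Bool)} (h : #((Set.range f)ᶜ : Set (ℕ → Bool)) < 𝔠)
    (x : ℕ → Bool) (k : ℕ) : ∃ α, ∀ q < k, f α q = x q := by
  by_contra hcon
  push Not at hcon
  let j : (ℕ → Bool) → ((Set.range f)ᶜ : Set (ℕ → Bool)) := fun z =>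
    ⟨fun i => if i < k then x i else z (i - k), by
      rintro ⟨α, hα⟩
      obtain ⟨q, hq, hne⟩ := hcon α
      apply hne
      rw [hα]
      simp [hq]⟩
  have hj : Function.Injective j := by
    intro z z' hz
    have h1 : (fun i => if i < k then x i else z (i - k)) =
      (fun i => if i < k then x i else z' (i - k)) := congrArg Subtype.val hz
    funext i
    have h2 := congrFun h1 (i + k)
    simpa using h2
  have h3 := Cardinal.mk_le_of_injective hj
  rw [card_cantor] at h3
  exact absurd h (not_lt.2 h3)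

/-- Proof: an uncountable compact (closed) set has `𝔠` elements. -/
theorem countable_of_card {A : Set (ℕ → Bool)} (h : #(Aᶜ : Set (ℕ → Bool)) < 𝔠)
    {F : Set (ℕ → Bool)} (hF : IsCompact F) (hd : Disjoint F A) : F.Countable := by
  by_contra hcon
  have hP : PolishSpace (ℕ → Bool) :=
    { toSecondCountableTopology := inferInstance, toIsCompletelyMetrizableSpace := inferInstance }
  obtain ⟨g, hg, -, hinj⟩ := hF.isClosed.exists_nat_bool_injection_of_not_countable hcon
  let j : (ℕ → Bool) → (Aᶜ : Set (ℕ → Bool)) := fun z =>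
    ⟨g z, fun hz => Set.disjoint_left.1 hd (hg ⟨z, rfl⟩) hz⟩
  have hj : Function.Injective j := by
    intro z z' hz
    exact hinj (congrArg Subtype.val hz)
  have h3 := Cardinal.mk_le_of_injective hj
  rw [card_cantor] at h3
  exact absurd h (not_lt.2 h3)

end Pool.Agent.WCT
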