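import Pool.Agent.WCT.Basic

/-!
# Gliding hump (module Hump)
-/

namespace Pool.Agent.WCT

open Finset Filter Topology

noncomputable section

variable {f : (ℕ → ℕ) → (ℕ → Bool)}

/-- Proof. For `σ : ℕ → ℝ` with `|σ j| ≤ 1` and every `k`, `(1/2) ∑_{j<k} σ j • φ j ∈ N` (`Nrm.comb`, `Nrm.mul` with a constant, `Adm.mono`), so
`|∑_{j<k} σ j * ev (φ j) x| ≤ 2 ‖x‖`; choose signs. -/
theorem sum_abs_ev_le (φ : ℕ → Node →₀ ℝ) (hφ : ∀ j, Nrm f (φ j))
    (hadm : ∀ k, Adm f (fun j => (φ j).support) k) (x : X f) (k : ℕ) :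
    ∑ j ∈ range k, |ev (φ j) x| ≤ 2 * ‖x‖ := by
  set σ : ℕ → ℝ := fun j => SignType.sign (ev (φ j) x) with hσ
  have hσ1 : ∀ j, |σ j| ≤ 1 := by
    intro j
    simp only [hσ]
    rcases lt_trichotomy (ev (φ j) x) 0 with h | h | h
    · rw [sign_neg h]; simp
    · rw [h]; simp
    · rw [sign_pos h]; simp
  have h1 : ∀ j, Nrm f (mulF (fun _ => σ j) (φ j)) := fun j => (hφ j).mul (fun _ => hσ1 j)
  have h2 : Nrm f ((1 / 2 : ℝ) • ∑ j ∈ range k, mulF (fun _ => σ j) (φ j)) :=
    Nrm.comb k _ (fun i _ => h1 i) ((hadm k).mono (fun i _ => mulF_support _ _))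
  have h3 := ev_le h2 x
  have h4 : ∀ j, mulF (fun _ => σ j) (φ j) = σ j • φ j := by
    intro j
    ext s
    simp
  rw [ev_smul, ev_finset_sum] at h3
  have h5 : ∑ j ∈ range k, ev (mulF (fun _ => σ j) (φ j)) x = ∑ j ∈ range k, |ev (φ j) x| := by
    refine Finset.sum_congr rfl fun j _ => ?_
    rw [h4, ev_smul]
    simp only [hσ]
    exact sign_mul_self _
  rw [h5, abs_mul, abs_of_pos (by norm_num : (0 : ℝ) < 1 / 2),
    abs_of_nonneg (Finset.sum_nonneg fun _ _ => abs_nonneg _)] at h3
  linarith

theorem hump_summable (φ : ℕ → Node →₀ ℝ) (hφ : ∀ j, Nrm f (φ j))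
    (hadm : ∀ k, Adm f (fun j => (φ j).support) k) (x : X f) :
    Summable (fun j => |ev (φ j) x|) :=
  summable_of_sum_range_le (fun _ => abs_nonneg _) (sum_abs_ev_le φ hφ hadm x)

theorem hump_summable_ind (φ : ℕ → Node →₀ ℝ) (hφ : ∀ j, Nrm f (φ j))
    (hadm : ∀ k, Adm f (fun j => (φ j).support) k) (I : Set ℕ) (x : X f) :
    Summable (fun j => |I.indicator (fun j => ev (φ j) x) j|) := by
  refine Summable.of_nonneg_of_le (fun _ => abs_nonneg _) (fun j => ?_) (hump_summable φ hφ hadm x)
  by_cases h : j ∈ I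
  · rw [Set.indicator_of_mem h]
  · rw [Set.indicator_of_notMem h, abs_zero]
    exact abs_nonneg _

/-- For a set `I` of indices the sum `∑_{j ∈ I} ev (φ j)` is a bounded functional
(`LinearMap.mkContinuous`, `tsum`, summability from `sum_abs_ev_le`). -/
theorem exists_functional (φ : ℕ → Node →₀ ℝ) (hφ : ∀ j, Nrm f (φ j))
    (hadm : ∀ k, Adm f (fun j => (φ j).support) k) (I : Set ℕ) :
    ∃ Ψ : X f →L[ℝ] ℝ, ∀ x, Summable (fun j => I.indicator (fun j => ev (φ j) x) j) ∧
      Ψ x = ∑' j, I.indicator (fun j => ev (φ j) x) j := by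
  have hs : ∀ x : X f, Summable (fun j => I.indicator (fun j => ev (φ j) x) j) := fun x =>
    (hump_summable_ind φ hφ hadm I x).of_abs
  let Ψ : X f →L[ℝ] ℝ := LinearMap.mkContinuous
    { toFun := fun x => ∑' j, I.indicator (fun j => ev (φ j) x) j
      map_add' := fun x y => by
        rw [← (hs x).tsum_add (hs y)]
        refine tsum_congr fun j => ?_
        by_cases h : j ∈ I
        · simp only [Set.indicator_of_mem h, map_add]
        · simp only [Set.indicator_of_notMem h, add_zero]
      map_smul' := fun c x => by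
        rw [RingHom.id_apply, smul_eq_mul, ← tsum_mul_left]
        refine tsum_congr fun j => ?_
        by_cases h : j ∈ I
        · simp only [Set.indicator_of_mem h, map_smul, smul_eq_mul]
        · simp only [Set.indicator_of_notMem h, mul_zero] } 2 (by
      intro x
      change ‖∑' j, I.indicator (fun j => ev (φ j) x) j‖ ≤ 2 * ‖x‖
      refine (norm_tsum_le_tsum_norm (hump_summable_ind φ hφ hadm I x)).trans ?_
      refine Real.tsum_le_of_sum_range_le (fun _ => norm_nonneg _) (fun n => ?_)
      refine le_trans (Finset.sum_le_sum fun j _ => ?_) (sum_abs_ev_le φ hφ hadm x n)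
      by_cases h : j ∈ I
      · rw [Set.indicator_of_mem h, Real.norm_eq_abs]
      · rw [Set.indicator_of_notMem h, norm_zero]
        exact abs_nonneg _)
  exact ⟨Ψ, fun x => ⟨hs x, rfl⟩⟩

theorem hump_continuous_weak (Ψ : X f →L[ℝ] ℝ) :
    Continuous fun w : WeakSpace ℝ (X f) => Ψ ((toWeakSpace ℝ (X f)).symm w) :=
  WeakBilin.eval_continuous (topDualPairing ℝ (X f)).flip Ψ

/-- A weakly compact set is weakly sequentially compact. (The map `co : W → (Node → ℝ)` is continuous and injective on the weakly compact set, so it is an embedding into a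
metrizable space; `W` with the weak topology is compact and metrizable, hence sequentially compact.)
The conclusion is stated with functionals. -/
theorem exists_subseq {W : Set (X f)} (hW : IsCompact (toWeakSpace ℝ (X f) '' W)) (w : ℕ → X f)
    (hw : ∀ j, w j ∈ W) : ∃ w0 ∈ W, ∃ σ : ℕ → ℕ, StrictMono σ ∧
      ∀ Ψ : X f →L[ℝ] ℝ, Tendsto (fun j => Ψ (w (σ j))) atTop (𝓝 (Ψ w0)) := by
  set K : Set (WeakSpace ℝ (X f)) := toWeakSpace ℝ (X f) '' W with hK
  have : CompactSpace K := isCompact_iff_compactSpace.1 hW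
  let g : K → (Node → ℝ) := fun v s => co ((toWeakSpace ℝ (X f)).symm v.1) s
  have hg : Continuous g := by
    refine continuous_pi fun s => ?_
    exact (hump_continuous_weak (coL f s)).comp continuous_subtype_val
  have hinj : Function.Injective g := by
    intro v v' h
    apply Subtype.ext
    have : (toWeakSpace ℝ (X f)).symm v.1 = (toWeakSpace ℝ (X f)).symm v'.1 :=
      X_ext fun s => congrFun h s
    exact (toWeakSpace ℝ (X f)).symm.injective this
  have hemb : IsEmbedding g := (hg.isClosedEmbedding hinj).isEmbedding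
  have : TopologicalSpace.MetrizableSpace K := hemb.metrizableSpace
  obtain ⟨a, σ, hσ, ha⟩ := SeqCompactSpace.tendsto_subseq
    (fun j => (⟨toWeakSpace ℝ (X f) (w j), ⟨w j, hw j, rfl⟩⟩ : K))
  obtain ⟨w0, hw0, hw0a⟩ := a.2
  refine ⟨w0, hw0, σ, hσ, fun Ψ => ?_⟩
  have h1 := ((hump_continuous_weak Ψ).comp continuous_subtype_val).continuousAt (x := a) |>.tendsto.comp ha
  have h2 : ((fun w : WeakSpace ℝ (X f) => Ψ ((toWeakSpace ℝ (X f)).symm w)) ∘ Subtype.val) a = Ψ w0 := by
    change Ψ ((toWeakSpace ℝ (X f)).symm a.1) = Ψ w0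
    rw [← hw0a, LinearEquiv.symm_apply_apply]
  rw [h2] at h1
  refine h1.congr fun j => ?_
  change Ψ ((toWeakSpace ℝ (X f)).symm (toWeakSpace ℝ (X f) (w (σ j)))) = _
  rw [LinearEquiv.symm_apply_apply]

/-- **Gliding hump.**  Proof. Take `w0, σ` from `exists_subseq`; `u j = w (σ j) - w0` tends weakly to `0`. `ev (φ j) w0 → 0` (summable), so for
large `j`, `ev (φ (σ j)) (u j) ≥ ε' / 2`. With `η = ε' / 16` choose (by `exists_seq_of_forall_finset_exists` on `ℕ` with the relation
`r j i : i` so large that `∑_{p ≥ σ i} |ev (φ p) (u j)| ≤ η` and `|ev (φ (σ j)) (u i)| ≤ η / 2^(j+1)`) a strictly increasing sequence `j_0 < j_1 < ...`; put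
`I = {σ (j_p)}`, `Ψ` from `exists_functional`. Then `|Ψ (u (j_p))| ≥ ε' / 2 - 2 η ≥ ε' / 4` for all `p`,
contradiction with `Ψ (u j) → 0`. -/
theorem hump {W : Set (X f)} (hW : IsCompact (toWeakSpace ℝ (X f) '' W)) (w : ℕ → X f)
    (hw : ∀ j, w j ∈ W) (φ : ℕ → Node →₀ ℝ) (hφ : ∀ j, Nrm f (φ j))
    (hadm : ∀ k, Adm f (fun j => (φ j).support) k) {ε' : ℝ} (hε' : 0 < ε')
    (hev : ∀ j, ε' ≤ ev (φ j) (w j)) : False := by
  classical
  obtain ⟨w0, -, σ, hσ, hlim⟩ := exists_subseq hW w hw
  set u : ℕ → X f := fun j => w (σ j) - w0 with hu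
  set a : ℕ → ℕ → ℝ := fun p j => ev (φ p) (u j) with ha
  have hulim : ∀ Ψ : X f →L[ℝ] ℝ, Tendsto (fun j => Ψ (u j)) atTop (𝓝 0) := by
    intro Ψ
    have h := (hlim Ψ).sub_const (Ψ w0)
    rw [sub_self] at h
    refine h.congr fun j => ?_
    simp only [hu, map_sub]
  have hsum : ∀ j, Summable (fun p => |a p j|) := fun j => hump_summable φ hφ hadm (u j)
  set η : ℝ := ε' / 16 with hη
  have hη0 : 0 < η := by positivity
  -- large diagonal entries
  have hdiag : ∃ J, ∀ j ≥ J, ε' / 2 ≤ a (σ j) j := by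
    have h1 : Tendsto (fun p => |ev (φ p) w0|) atTop (𝓝 0) :=
      (hump_summable φ hφ hadm w0).tendsto_atTop_zero
    have h2 := (h1.comp hσ.tendsto_atTop).eventually (gt_mem_nhds (show (0:ℝ) < ε' / 2 by positivity))
    obtain ⟨J, hJ⟩ := eventually_atTop.1 h2
    refine ⟨J, fun j hj => ?_⟩
    have h3 := hJ j hj
    simp only [Function.comp_apply] at h3
    have h4 := hev (σ j)
    have h5 : a (σ j) j = ev (φ (σ j)) (w (σ j)) - ev (φ (σ j)) w0 := by
      simp only [ha, hu, map_sub]
    rw [h5]
    have h6 := le_abs_self (ev (φ (σ j)) w0)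
    linarith
  obtain ⟨J, hJ⟩ := hdiag
  -- the next index
  have hnext : ∀ j : ℕ, ∃ j', j < j' ∧ ∑ p ∈ range (σ j + 1), |a p j'| ≤ η ∧
      ∑' p, |a (p + σ j') j| ≤ η := by
    intro j
    have h1 : Tendsto (fun j' => ∑ p ∈ range (σ j + 1), |a p j'|) atTop (𝓝 0) := by
      have : (0 : ℝ) = ∑ p ∈ range (σ j + 1), |(0 : ℝ)| := by simp
      rw [this]
      refine tendsto_finsetSum _ fun p _ => ?_
      exact (hulim (ev (φ p))).abs
    have h2 : Tendsto (fun N => ∑' p, |a (p + N) j|) atTop (𝓝 0) :=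
      tendsto_sum_nat_add fun p => |a p j|
    have h3 := (h2.comp hσ.tendsto_atTop).eventually (gt_mem_nhds hη0)
    have h4 := h1.eventually (gt_mem_nhds hη0)
    obtain ⟨j', h5, h6, h7⟩ := (h3.and (h4.and (eventually_gt_atTop j))).exists
    exact ⟨j', h7, h6.le, h5.le⟩
  choose nx hnx1 hnx2 hnx3 using hnext
  let N : ℕ → ℕ := fun n => nx^[n] J
  have hNs : ∀ n, N (n + 1) = nx (N n) := fun n => Function.iterate_succ_apply' nx n J
  have hNmono : StrictMono N := strictMono_nat_of_lt_succ fun n => by rw [hNs]; exact hnx1 _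
  have hNJ : ∀ n, J ≤ N n := fun n => hNmono.monotone (Nat.zero_le n)
  set P : ℕ → ℕ := fun n => σ (N n) with hP
  have hPmono : StrictMono P := hσ.comp hNmono
  set I : Set ℕ := Set.range P with hI
  obtain ⟨Ψ, hΨ⟩ := exists_functional φ hφ hadm I
  have hbig : ∀ n, ε' / 4 ≤ Ψ (u (N (n + 1))) := by
    intro n
    obtain ⟨hs, hval⟩ := hΨ (u (N (n + 1)))
    set j := N (n + 1) with hj
    set b : ℕ → ℝ := fun p => I.indicator (fun p => ev (φ p) (u j)) p with hb
    have hb1 : ∀ p, |b p| ≤ |a p j| := by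
      intro p
      simp only [hb]
      by_cases h : p ∈ I
      · rw [Set.indicator_of_mem h]
      · rw [Set.indicator_of_notMem h, abs_zero]
        exact abs_nonneg _
    have hb0 : ∀ p, p ∉ I → b p = 0 := fun p h => Set.indicator_of_notMem h _
    have hsb : Summable b := hs
    have hsplit := hsb.sum_add_tsum_nat_add (P (n + 2))
    rw [hval, ← hsplit]
    have htail : |∑' p, b (p + P (n + 2))| ≤ η := by
      have h1 : Summable fun p => |a (p + P (n + 2)) j| :=
        (summable_nat_add_iff (P (n + 2))).2 (hsum j)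
      have h2 : Summable fun p => |b (p + P (n + 2))| :=
        Summable.of_nonneg_of_le (fun _ => abs_nonneg _) (fun p => hb1 _) h1
      calc |∑' p, b (p + P (n + 2))| ≤ ∑' p, |b (p + P (n + 2))| := by
            have := norm_tsum_le_tsum_norm (f := fun p => b (p + P (n + 2))) (by simpa using h2)
            simpa using this
        _ ≤ ∑' p, |a (p + P (n + 2)) j| := h2.tsum_le_tsum (fun p => hb1 _) h1
        _ ≤ η := by
            have := hnx3 (N (n + 1))
            simp only [hP]
            rw [hNs (n + 1)]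
            exact this
    have hhead : ε' / 2 - η ≤ ∑ p ∈ range (P (n + 2)), b p := by
      have hmem : P (n + 1) ∈ range (P (n + 2)) := mem_range.2 (hPmono (Nat.lt_succ_self _))
      rw [← Finset.add_sum_erase _ _ hmem]
      have h1 : ε' / 2 ≤ b (P (n + 1)) := by
        have h2 : b (P (n + 1)) = a (σ j) j := by
          simp only [hb]
          rw [Set.indicator_of_mem (Set.mem_range_self (n + 1))]
        rw [h2]
        exact hJ j (hNJ _)
      have h2 : |∑ p ∈ (range (P (n + 2))).erase (P (n + 1)), b p| ≤ η := by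
        refine (Finset.abs_sum_le_sum_abs _ _).trans ?_
        have h3 : ∑ p ∈ (range (P (n + 2))).erase (P (n + 1)), |b p| ≤
            ∑ p ∈ range (P n + 1), |a p j| := by
          calc ∑ p ∈ (range (P (n + 2))).erase (P (n + 1)), |b p|
              = ∑ p ∈ ((range (P (n + 2))).erase (P (n + 1))).filter (fun p => p ∈ I), |b p| := by
                symm
                apply Finset.sum_subset (Finset.filter_subset _ _)
                intro p hp1 hp2
                rw [Finset.mem_filter, not_and] at hp2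
                rw [hb0 p (hp2 hp1), abs_zero]
            _ ≤ ∑ p ∈ ((range (P (n + 2))).erase (P (n + 1))).filter (fun p => p ∈ I), |a p j| :=
                Finset.sum_le_sum fun p _ => hb1 p
            _ ≤ ∑ p ∈ range (P n + 1), |a p j| := by
                apply Finset.sum_le_sum_of_subset_of_nonneg
                · intro p hp
                  rw [Finset.mem_filter, Finset.mem_erase, mem_range] at hp
                  obtain ⟨⟨h4, h5⟩, ⟨i, rfl⟩⟩ := hp
                  have h6 : i < n + 2 := hPmono.lt_iff_lt.1 h5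
                  have h7 : i ≠ n + 1 := fun h => h4 (by rw [h])
                  have h8 : i ≤ n := by omega
                  rw [mem_range]
                  exact Nat.lt_succ_of_le (hPmono.monotone h8)
                · intro p _ _
                  exact abs_nonneg _
        refine h3.trans ?_
        have := hnx2 (N n)
        rw [hj, hNs n]
        exact this
      rw [abs_le] at h2
      linarith [h2.1]
    rw [abs_le] at htail
    linarith [htail.1]
  have h1 := (hulim Ψ).comp (hNmono.tendsto_atTop.comp (tendsto_add_atTop_nat 1))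
  have h2 := ge_of_tendsto h1 (Eventually.of_forall fun n => hbig n)
  linarith

end

end Pool.Agent.WCT
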