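import Pool.Agent.WCT.Sel
import Pool.Agent.WCT.Hump

/-!
# Weakly compact sets are almost carried by finitely many branches (module ClaimB)
-/

namespace Pool.Agent.WCT

open Finset Filter Topology

noncomputable section

variable {f : (ℕ → ℕ) → (ℕ → Bool)}

/-- signs that make all terms of `ev φ w` nonnegative -/
def claimb_sgn (φ : Node →₀ ℝ) (w : X f) (s : Node) : ℝ :=
  if 0 ≤ φ s * co w s then 1 else -1

theorem claimb_sgn_abs (φ : Node →₀ ℝ) (w : X f) (s : Node) : |claimb_sgn φ w s| ≤ 1 := by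
  unfold claimb_sgn
  split_ifs <;> simp

theorem claimb_sgn_mul (φ : Node →₀ ℝ) (w : X f) (s : Node) :
    claimb_sgn φ w s * φ s * co w s = |φ s * co w s| := by
  unfold claimb_sgn
  split_ifs with h
  · rw [abs_of_nonneg h, one_mul]
  · rw [abs_of_neg (not_le.1 h)]; ring

/-- the masses `|φ s * co w s|` -/
def claimb_m (φ : Node →₀ ℝ) (w : X f) : Node →₀ ℝ :=
  mulF (fun s => claimb_sgn φ w s * co w s) φ

theorem claimb_m_apply (φ : Node →₀ ℝ) (w : X f) (s : Node) :
    claimb_m φ w s = |φ s * co w s| := by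
  rw [claimb_m, mulF_apply, ← claimb_sgn_mul]; ring

/-- Proof. Otherwise for all finite `Φ` off `range f` and all `n` there is `w ∈ W` with `‖PS {...} w‖ > ε`, so by `exists_phi` a `φ ∈ N` supported on
`{s | n < s.length ∧ ∀ x ∈ Φ, ¬ On x s}` with `ev φ w > ε`; masses `|φ s * co w s|`; `select`; `hump`. -/
theorem claimB (hf : Continuous f) (hd : ∀ (x : ℕ → Bool) (k : ℕ), ∃ α, ∀ q < k, f α q = x q)
    (hcpt : ∀ F : Set (ℕ → Bool), IsCompact F → Disjoint F (Set.range f) → F.Countable)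
    {W : Set (X f)} (hW : IsCompact (toWeakSpace ℝ (X f) '' W)) {ε : ℝ} (hε : 0 < ε) :
    ∃ (Φ : Finset (ℕ → Bool)) (n : ℕ), (∀ x ∈ Φ, x ∉ Set.range f) ∧
      ∀ w ∈ W, ‖PS {s | n < s.length ∧ ∀ x ∈ Φ, ¬ On x s} w‖ ≤ ε := by
  classical
  by_contra hcon
  push Not at hcon
  let ι : Type := {p : X f × (Node →₀ ℝ) // p.1 ∈ W ∧ Nrm f p.2}
  let m : ι → Node →₀ ℝ := fun p => claimb_m p.1.2 p.1.1
  obtain ⟨c, i, E, hc, hadm, hE⟩ := select hf hd hcpt m
    (fun p s => by
      change 0 ≤ claimb_m p.1.2 p.1.1 s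
      rw [claimb_m_apply]; exact abs_nonneg _) hε (by
    intro Φ n hΦ
    obtain ⟨w, hw, hlt⟩ := hcon Φ n hΦ
    obtain ⟨φ, hφ, hsupp, hev⟩ := exists_phi hlt
    refine ⟨⟨(w, φ), hw, hφ⟩, ?_, ?_⟩
    · intro s hs
      have := hsupp s (mulF_support _ _ hs)
      exact this
    · refine hev.le.trans ?_
      rw [ev_apply]
      change _ ≤ mass (claimb_m φ w)
      unfold mass
      have h1 : ∑ s ∈ (claimb_m φ w).support, claimb_m φ w s
          = ∑ s ∈ φ.support, claimb_m φ w s := by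
        apply Finset.sum_subset (mulF_support _ _)
        intro s _ hs
        exact Finsupp.notMem_support_iff.1 hs
      rw [h1]
      apply Finset.sum_le_sum
      intro s _
      rw [claimb_m_apply]
      exact le_abs_self _)
  let φ' : ℕ → Node →₀ ℝ := fun j =>
    mulF (fun s => if s ∈ E j then claimb_sgn (i j).1.2 (i j).1.1 s else 0) (i j).1.2
  have hφ' : ∀ j, Nrm f (φ' j) := by
    intro j
    apply (i j).2.2.mul
    intro s
    split_ifs
    · exact claimb_sgn_abs _ _ _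
    · simp
  have hsup : ∀ j, (φ' j).support ⊆ E j := by
    intro j s hs
    rw [Finsupp.mem_support_iff] at hs
    by_contra h
    apply hs
    simp only [φ', mulF_apply, if_neg h, zero_mul]
  refine hump hW (fun j => (i j).1.1) (fun j => (i j).2.1) φ' hφ'
    (fun k => (hadm k).mono (fun j _ => hsup j)) hc ?_
  intro j
  refine (hE j).trans ?_
  rw [ev_eq_sum _ _ (hsup j)]
  apply Finset.sum_le_sum
  intro s hs
  simp only [φ', mulF_apply, if_pos hs]
  change claimb_m (i j).1.2 (i j).1.1 s ≤ _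
  rw [claimb_m_apply, claimb_sgn_mul]

end

end Pool.Agent.WCT
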