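import Pool.Agent.WCT.TDefs

/-!
# Tukey reductions between posets (module NonEq)
-/

namespace Pool.Agent.WCT

open Cardinal

theorem TLe.trans {P Q R : Type*} {rP : ℝ → P → P → Prop} {rQ : ℝ → Q → Q → Prop}
    {rR : ℝ → R → R → Prop} (h1 : TLe rP rQ) (h2 : TLe rQ rR) : TLe rP rR := by
  classical
  obtain ⟨F, hF⟩ := h1
  obtain ⟨G, hG⟩ := h2
  choose! δ hδ hF' using hF
  refine ⟨fun ε p => G (δ ε) (F ε p), fun ε hε => ?_⟩
  obtain ⟨η, hη, hG'⟩ := hG (δ ε) (hδ ε hε)
  refine ⟨η, hη, fun r₀ => ?_⟩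
  obtain ⟨q₀, hq₀⟩ := hG' r₀
  obtain ⟨p₀, hp₀⟩ := hF' ε hε q₀
  exact ⟨p₀, fun p hp => hp₀ p (hq₀ _ hp)⟩

/-- `F 1` -/
theorem TLe.exists_map {P Q : Type*} [LE P] [LE Q] (h : TLe (po P) (po Q)) :
    ∃ g : P → Q, ∀ q₀, ∃ p₀, ∀ p, g p ≤ q₀ → p ≤ p₀ := by
  obtain ⟨F, hF⟩ := h
  obtain ⟨δ, _, h1⟩ := hF 1 one_pos
  exact ⟨F 1, h1⟩

/-- An infinite set of points `a` such that `g {a} ≤ q₀` gives a contradiction. -/
theorem finset_unbounded {α : Type*} {Q : Type*} [LE Q] {g : Finset α → Q}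
    (hg : ∀ q₀, ∃ p₀, ∀ p, g p ≤ q₀ → p ≤ p₀) {S : Set α} (hS : S.Infinite) {q₀ : Q}
    (h : ∀ a ∈ S, g {a} ≤ q₀) : False := by
  obtain ⟨p₀, hp₀⟩ := hg q₀
  refine hS (p₀.finite_toSet.subset fun a ha => ?_)
  have h1 := hp₀ {a} (h a ha)
  exact Finset.mem_coe.mpr (Finset.singleton_subset_iff.mp h1)

open Filter Topology in
theorem noneq_seq {α X : Type*} [Uncountable α] [TopologicalSpace X] [SecondCountableTopology X]
    (f : α → X) : ∃ (x : X) (a : ℕ → α), Function.Injective a ∧ Tendsto (fun n => f (a n)) atTop (𝓝 x) := by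
  classical
  set B := TopologicalSpace.countableBasis X with hB
  have hBc : B.Countable := TopologicalSpace.countable_countableBasis X
  have hBb := TopologicalSpace.isBasis_countableBasis X
  -- a condensation point
  obtain ⟨a₀, ha₀⟩ : ∃ a₀ : α, ∀ U ∈ B, f a₀ ∈ U → ¬ (f ⁻¹' U).Countable := by
    by_contra hcon
    push Not at hcon
    have h1 : (⋃ U ∈ {U ∈ B | (f ⁻¹' U).Countable}, f ⁻¹' U).Countable := by
      refine Set.Countable.biUnion (hBc.mono fun U hU => hU.1) fun U hU => hU.2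
    have h2 : (⋃ U ∈ {U ∈ B | (f ⁻¹' U).Countable}, f ⁻¹' U) = Set.univ := by
      rw [Set.eq_univ_iff_forall]
      intro a
      obtain ⟨U, hU, haU, hc⟩ := hcon a
      exact Set.mem_biUnion (show U ∈ {U ∈ B | (f ⁻¹' U).Countable} from ⟨hU, hc⟩) haU
    rw [h2] at h1
    exact not_countable (Set.countable_univ_iff.mp h1)
  have hinf : ∀ V ∈ 𝓝 (f a₀), (f ⁻¹' V).Infinite := by
    intro V hV
    obtain ⟨U, hU, haU, hUV⟩ := hBb.mem_nhds_iff.mp hV
    intro hfin
    exact ha₀ U hU haU ((hfin.subset (Set.preimage_mono hUV)).countable)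
  obtain ⟨V, hV⟩ := (𝓝 (f a₀)).exists_antitone_basis
  obtain ⟨s, hs1, hs2⟩ := exists_seq_of_forall_finset_exists
    (fun p : ℕ × α => f p.2 ∈ V p.1) (fun p q => p.1 < q.1 ∧ p.2 ≠ q.2) (by
      intro t _
      obtain ⟨b, hb1, hb2⟩ := (hinf (V (t.sup (fun p => p.1) + 1)) (hV.mem _)).exists_notMem_finset
        (t.image (fun p => p.2))
      refine ⟨(t.sup (fun p => p.1) + 1, b), hb1, fun p hp => ⟨?_, ?_⟩⟩
      · exact Nat.lt_succ_of_le (Finset.le_sup (f := fun p : ℕ × α => p.1) hp)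
      · intro he
        exact hb2 (Finset.mem_image.mpr ⟨p, hp, he⟩))
  have hk : ∀ n, n ≤ (s n).1 := by
    intro n
    induction n with
    | zero => exact Nat.zero_le _
    | succ n ih => exact Nat.succ_le_of_lt (lt_of_le_of_lt ih (hs2 n (n + 1) (Nat.lt_succ_self n)).1)
  refine ⟨f a₀, fun n => (s n).2, ?_, ?_⟩
  · intro m n hmn
    rcases lt_trichotomy m n with h | h | h
    · exact absurd hmn (hs2 m n h).2
    · exact h
    · exact absurd hmn.symm (hs2 n m h).2
  · rw [hV.toHasBasis.tendsto_right_iff]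
    intro i _
    filter_upwards [eventually_ge_atTop i] with n hn
    exact hV.antitone (hn.trans (hk n)) (hs1 n)

/-- Proof: some `n` has infinitely many `a` with `g {a} = n`. -/
theorem not_finset_tle_nat (α : Type*) [Uncountable α] : ¬ TLe (po (Finset α)) (po ℕ) := by
  intro h
  obtain ⟨g, hg⟩ := h.exists_map
  have h1 : ∃ n : ℕ, {a : α | g {a} = n}.Infinite := by
    by_contra hcon
    push Not at hcon
    have h2 : (⋃ n : ℕ, {a : α | g {a} = n}).Countable :=
      Set.countable_iUnion fun n => (Set.not_infinite.mp (by simpa using hcon n)).countable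
    have h3 : (⋃ n : ℕ, {a : α | g {a} = n}) = Set.univ := by
      rw [Set.eq_univ_iff_forall]
      intro a
      exact Set.mem_iUnion.mpr ⟨g {a}, rfl⟩
    rw [h3] at h2
    exact not_countable (Set.countable_univ_iff.mp h2)
  obtain ⟨n, hn⟩ := h1
  exact finset_unbounded hg hn (q₀ := n) fun a ha => le_of_eq ha

open Filter Topology in
/-- Proof: choose decreasing uncountable sets `E k` with `g {a} k` constant (`= c k`) on `E (k+1)`, distinct `a k ∈ E (k + 1)`; then the
functions `g {a k}` are bounded by `q₀ i = max (c i) (max_{k < i+1} g {a k} i)`-like. -/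
theorem not_finset_tle_baire (α : Type*) [Uncountable α] : ¬ TLe (po (Finset α)) (po (ℕ → ℕ)) := by
  intro h
  obtain ⟨g, hg⟩ := h.exists_map
  obtain ⟨x, a, ha, hlim⟩ := noneq_seq (fun a : α => g {a})
  have hK : IsCompact (insert x (Set.range fun n => g {a n})) := hlim.isCompact_insert_range
  have hb : ∀ i, BddAbove ((fun v : ℕ → ℕ => v i) '' (insert x (Set.range fun n => g {a n}))) := fun i =>
    (hK.image (continuous_apply i)).bddAbove
  refine finset_unbounded hg (Set.infinite_range_of_injective ha)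
    (q₀ := fun i => (hb i).some) ?_
  rintro _ ⟨n, rfl⟩ i
  refine (hb i).some_mem ⟨g {a n}, Set.mem_insert_of_mem _ ⟨n, rfl⟩, rfl⟩

open Filter Topology in
/-- Proof: `K a = g {a}`. If infinitely many `a` have `K a = ∅` or the same `K a`, done. Otherwise use the metric space `NonemptyCompacts ℚ` (Hausdorff
distance, second countable): an uncountable subset has a point `K∞` of it that is the limit of a sequence of distinct
points `K (a k)` (`a k` distinct); `K∞ ∪ ⋃ k, K (a k)` is compact (a sequence of points either stays in finitely many of the `K (a k)` or is asymptotic to a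
sequence in `K∞`); this is the upper bound `q₀`. -/
theorem not_finset_tle_compacts (α : Type*) [Uncountable α] :
    ¬ TLe (po (Finset α)) (po (TopologicalSpace.Compacts ℚ)) := by
  intro h
  obtain ⟨g, hg⟩ := h.exists_map
  obtain ⟨x, a, ha, hlim⟩ := noneq_seq (fun a : α => g {a})
  have hK : IsCompact (insert x (Set.range fun n => g {a n})) := hlim.isCompact_insert_range
  have hU := TopologicalSpace.Compacts.isCompact_biUnion_coe_of_isCompact hK
  refine finset_unbounded hg (Set.infinite_range_of_injective ha) (q₀ := ⟨_, hU⟩) ?_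
  rintro _ ⟨n, rfl⟩
  intro y hy
  exact Set.mem_biUnion (Set.mem_insert_of_mem x ⟨n, rfl⟩) hy

/-- Proof: `a ↦ g {a}` from `ℝ` to `Finset α`, `#(Finset α) = #α < 𝔠`, so some fibre is infinite
(if all fibres are finite `𝔠 ≤ #(Finset α) * ℵ₀ = #α`). -/
theorem not_real_tle_finset (α : Type) [Infinite α] (h : #α < 𝔠) :
    ¬ TLe (po (Finset ℝ)) (po (Finset α)) := by
  intro hT
  obtain ⟨g, hg⟩ := hT.exists_map
  have h1 : #(Finset α) < #ℝ := by
    rw [Cardinal.mk_finset_of_infinite, Cardinal.mk_real]; exact h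
  obtain ⟨s, hs⟩ := Cardinal.infinite_pigeonhole_card_lt (fun x : ℝ => g {x}) h1
    (by rw [Cardinal.mk_real]; exact Cardinal.aleph0_le_continuum)
  have hinf : ((fun x : ℝ => g {x}) ⁻¹' {s}).Infinite := by
    rw [← Set.infinite_coe_iff, Cardinal.infinite_iff]
    refine le_trans ?_ hs.le
    rw [← Cardinal.infinite_iff]; infer_instance
  exact finset_unbounded hg hinf (q₀ := s) fun a ha => le_of_eq ha

end Pool.Agent.WCT
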