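import Mathlib

/-!
# The unit ball of a reflexive space is weakly compact (module Refl)
-/

namespace Pool.Agent.WCT

open Filter Topology

/-- Banach-Alaoglu. -/
theorem ball_compact_of_reflexive {Y : Type*} [NormedAddCommGroup Y] [NormedSpace ℝ Y]
    (h : Function.Surjective (NormedSpace.inclusionInDoubleDual ℝ Y)) :
    IsCompact (toWeakSpace ℝ Y '' Metric.closedBall 0 1) := by
  have hK := WeakDual.isCompact_closedBall (𝕜 := ℝ) (E := StrongDual ℝ Y) 0 1
  have h1 := (NormedSpace.isEmbedding_inclusionInDoubleDualWeak ℝ Y).isCompact_preimage' hK (by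
    intro z _
    obtain ⟨y, hy⟩ := h (WeakDual.toStrongDual z)
    refine ⟨toWeakSpace ℝ Y y, ?_⟩
    apply WeakDual.toStrongDual.injective
    rw [← hy]
    rfl)
  have key : ∀ y : Y, toWeakSpace ℝ Y y ∈ NormedSpace.inclusionInDoubleDualWeak ℝ Y ⁻¹'
      (WeakDual.toStrongDual ⁻¹' Metric.closedBall 0 1) ↔ ‖y‖ ≤ 1 := by
    intro y
    have h2 := (NormedSpace.inclusionInDoubleDualLi (E := Y) ℝ).norm_map y
    have h3 := dist_zero_right (NormedSpace.inclusionInDoubleDualLi (E := Y) ℝ y)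
    rw [h2] at h3
    rw [← h3]
    exact Iff.rfl
  convert h1 using 1
  ext w
  constructor
  · rintro ⟨y, hy, rfl⟩
    rw [mem_closedBall_zero_iff] at hy
    exact (key y).2 hy
  · intro hw
    have h4 : w = toWeakSpace ℝ Y ((toWeakSpace ℝ Y).symm w) := by simp
    rw [h4] at hw ⊢
    exact ⟨_, mem_closedBall_zero_iff.2 ((key _).1 hw), rfl⟩

end Pool.Agent.WCT
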