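import Pool.Agent.WCT.Tukey
import Pool.Agent.WCT.NonEq
import Pool.Agent.WCT.Card
import Pool.Agent.WCT.Refl

/-!
# The main theorem
-/

namespace Pool.Agent.WCT

open Cardinal MeasureTheory

/-- a set without uncountable compact subsets contains no cylinder -/
theorem dense_of_thin {A : Set (ℕ → Bool)} (h : ∀ F ⊆ Aᶜ, IsCompact F → F.Countable)
    (x : ℕ → Bool) (k : ℕ) : ∃ y ∈ A, ∀ q < k, y q = x q := by
  by_contra hcon
  push Not at hcon
  let F : Set (ℕ → Bool) := {y | ∀ q < k, y q = x q}
  have hcl : IsClosed F := by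
    have : F = ⋂ q, ⋂ (_ : q < k), {y | y q = x q} := by
      ext y; simp [F]
    rw [this]
    exact isClosed_iInter fun q => isClosed_iInter fun _ =>
      isClosed_eq (continuous_apply q) continuous_const
  have hcount : F.Countable := by
    apply h F _ hcl.isCompact
    intro y hy hyA
    obtain ⟨q, hq, hne⟩ := hcon y hyA
    exact hne (hy q hq)
  let j : (ℕ → Bool) → F := fun z => ⟨fun i => if i < k then x i else z (i - k), by
    intro q hq
    simp [hq]⟩
  have hj : Function.Injective j := by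
    intro z z' hz
    have h1 : (fun i => if i < k then x i else z (i - k)) =
      (fun i => if i < k then x i else z' (i - k)) := congrArg Subtype.val hz
    funext i
    have h2 := congrFun h1 (i + k)
    simpa using h2
  have h3 := Cardinal.mk_le_of_injective hj
  rw [card_cantor] at h3
  have h4 : #F ≤ ℵ₀ := Cardinal.le_aleph0_iff_set_countable.2 hcount
  exact absurd (h3.trans h4) (not_le.2 Cardinal.aleph0_lt_continuum)

/-- the main theorem for a set given by a continuous map -/
theorem main_f {f : (ℕ → ℕ) → (ℕ → Bool)} (hf : Continuous f)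
    (hinf : ((Set.range f)ᶜ).Infinite)
    (hthin : ∀ F ⊆ (Set.range f)ᶜ, IsCompact F → F.Countable) :
    ¬ Function.Surjective (NormedSpace.inclusionInDoubleDual ℝ (X f)) ∧
      TEq (AKr (X f)) (po (Finset ((Set.range f)ᶜ : Set (ℕ → Bool)))) := by
  have hd : ∀ (x : ℕ → Bool) (k : ℕ), ∃ α, ∀ q < k, f α q = x q := by
    intro x k
    obtain ⟨_, ⟨α, rfl⟩, h⟩ := dense_of_thin hthin x k
    exact ⟨α, h⟩
  have hcpt : ∀ F : Set (ℕ → Bool), IsCompact F → Disjoint F (Set.range f) → F.Countable := by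
    intro F hF hdis
    exact hthin F (Set.disjoint_left.1 hdis) hF
  have : Infinite ((Set.range f)ᶜ : Set (ℕ → Bool)) := hinf.to_subtype
  exact ⟨fun hs => ball_not_compact hf hd hcpt (ball_compact_of_reflexive hs),
    tle_AK_finset hf hd hcpt this, tle_finset_AK hf hd hcpt⟩

/-- thin coanalytic sets -/
theorem main_thin (D : Set (ℕ → Bool)) (hD : AnalyticSet Dᶜ) (hinf : D.Infinite)
    (hthin : ∀ F ⊆ D, IsCompact F → F.Countable) :
    ∃ (X : Type) (_ : NormedAddCommGroup X) (_ : NormedSpace ℝ X),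
      CompleteSpace X ∧ TopologicalSpace.SeparableSpace X ∧
      ¬ Function.Surjective (NormedSpace.inclusionInDoubleDual ℝ X) ∧
      TEq (AKr X) (po (Finset D)) := by
  obtain ⟨y, hy, -⟩ := dense_of_thin (A := Dᶜ) (by rwa [compl_compl]) (fun _ => true) 0
  rw [AnalyticSet] at hD
  rcases hD with hD | ⟨f, hf, hfr⟩
  · rw [hD] at hy
    exact absurd hy (Set.notMem_empty y)
  · have hDf : D = (Set.range f)ᶜ := by rw [hfr, compl_compl]
    subst hDf
    obtain ⟨h1, h2⟩ := main_f hf hinf hthin
    exact ⟨X f, inferInstance, inferInstance, inferInstance, inferInstance, h1, h2⟩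

/-- coanalytic sets of size strictly between `ℵ₀` and `𝔠` -/
theorem main_card (D : Set (ℕ → Bool)) (hD : AnalyticSet Dᶜ) (h1 : ℵ₀ < #D) (h2 : #D < 𝔠) :
    ∃ (X : Type) (_ : NormedAddCommGroup X) (_ : NormedSpace ℝ X),
      CompleteSpace X ∧ TopologicalSpace.SeparableSpace X ∧
      ¬ Function.Surjective (NormedSpace.inclusionInDoubleDual ℝ X) ∧
      TEq (AKr X) (po (Finset D)) ∧
      ¬ TEq (AKr X) (po ℕ) ∧ ¬ TEq (AKr X) (po (ℕ → ℕ)) ∧
      ¬ TEq (AKr X) (po (TopologicalSpace.Compacts ℚ)) ∧ ¬ TEq (AKr X) (po (Finset ℝ)) := by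
  have hthin : ∀ F ⊆ D, IsCompact F → F.Countable := by
    intro F hF hc
    apply countable_of_card (A := Dᶜ) (by rwa [compl_compl]) hc
    exact Set.disjoint_left.2 (fun x hx hx' => hx' (hF hx))
  have hunc : Uncountable D := by
    rw [← Cardinal.aleph0_lt_mk_iff]; exact h1
  have hinf : D.Infinite := Set.infinite_coe_iff.1 inferInstance
  obtain ⟨X, i1, i2, h3, h4, h5, h6⟩ := main_thin D hD hinf hthin
  refine ⟨X, i1, i2, h3, h4, h5, h6, ?_, ?_, ?_, ?_⟩
  · exact fun h => not_finset_tle_nat D (h6.2.trans h.1)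
  · exact fun h => not_finset_tle_baire D (h6.2.trans h.1)
  · exact fun h => not_finset_tle_compacts D (h6.2.trans h.1)
  · exact fun h => not_real_tle_finset D h2 (h.2.trans h6.1)

end Pool.Agent.WCT
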