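import Pool.Agent.WCT.Basic

/-!
# Measures on the Cantor space (module Meas)
-/

namespace Pool.Agent.WCT

open Finset Filter Topology MeasureTheory

noncomputable section

variable {f : (ℕ → ℕ) → (ℕ → Bool)}

/-- a point of the Cantor space extending the node `s` -/
def pt (s : Node) : ℕ → Bool := fun i => s.getD i false

open Classical in
/-- the mass of the nodes `s` with `pt s ∈ U` -/
def massIn (m : Node →₀ ℝ) (U : Set (ℕ → Bool)) : ℝ :=
  ∑ s ∈ m.support.filter (fun s => pt s ∈ U), m s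

/-- the normalised discrete measure of `m` -/
private def meas_nu (m : Node →₀ ℝ) : Measure (ℕ → Bool) :=
  ∑ s ∈ m.support, ENNReal.ofReal (m s / ∑ t ∈ m.support, m t) • Measure.dirac (pt s)

open Classical in
private theorem meas_nu_apply (m : Node →₀ ℝ) (h0 : ∀ s, 0 ≤ m s) {U : Set (ℕ → Bool)}
    (hU : MeasurableSet U) :
    meas_nu m U = ENNReal.ofReal (massIn m U / ∑ t ∈ m.support, m t) := by
  have hT : 0 ≤ ∑ t ∈ m.support, m t := Finset.sum_nonneg (fun s _ => h0 s)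
  unfold meas_nu massIn
  rw [Measure.finsetSum_apply, Finset.sum_div,
    ENNReal.ofReal_sum_of_nonneg (fun s _ => div_nonneg (h0 s) hT), Finset.sum_filter]
  apply Finset.sum_congr rfl
  intro s _
  rw [Measure.smul_apply, Measure.dirac_apply' _ hU, smul_eq_mul]
  by_cases h : pt s ∈ U
  · rw [if_pos h, Set.indicator_of_mem h, Pi.one_apply, mul_one]
  · rw [if_neg h, Set.indicator_of_notMem h, mul_zero]

private theorem meas_nu_toReal (m : Node →₀ ℝ) (h0 : ∀ s, 0 ≤ m s) {U : Set (ℕ → Bool)}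
    (hU : MeasurableSet U) :
    (meas_nu m U).toReal = massIn m U / ∑ t ∈ m.support, m t := by
  rw [meas_nu_apply m h0 hU, ENNReal.toReal_ofReal]
  exact div_nonneg (Finset.sum_nonneg (fun s _ => h0 s)) (Finset.sum_nonneg (fun s _ => h0 s))

private theorem meas_nu_prob (m : Node →₀ ℝ) (h0 : ∀ s, 0 ≤ m s)
    (hT : 0 < ∑ s ∈ m.support, m s) : IsProbabilityMeasure (meas_nu m) := by
  classical
  constructor
  rw [meas_nu_apply m h0 MeasurableSet.univ]
  have : massIn m Set.univ = ∑ s ∈ m.support, m s := by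
    unfold massIn
    simp
  rw [this, div_self hT.ne', ENNReal.ofReal_one]

/-- **Limit measure.**  Proof. `ν_i = (∑ m i)⁻¹ ∑ s, m i s δ_{pt s}` is a `ProbabilityMeasure (ℕ → Bool)`; this is a compact space
(`Mathlib/MeasureTheory/Measure/Prokhorov.lean`, instance `CompactSpace (ProbabilityMeasure E)` for compact `E`), so the ultrafilter
`(hyperfilter ℕ).map ν` converges (`Ultrafilter.le_nhds_lim`) to some `ν`; by `ProbabilityMeasure.tendsto_measure_of_isClopen_of_tendsto` (Portmanteau) `ν_i U → ν U` along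
the hyperfilter for clopen `U`, and `massIn (m i) U = (∑ m i) ν_i U ≥ ε ν_i U`. -/
theorem lim_meas (m : ℕ → Node →₀ ℝ) (h0 : ∀ i s, 0 ≤ m i s) {ε : ℝ} (hε : 0 < ε)
    (hm : ∀ i, ε ≤ ∑ s ∈ (m i).support, m i s) :
    ∃ ν : Measure (ℕ → Bool), IsProbabilityMeasure ν ∧ ∀ U : Set (ℕ → Bool), IsClopen U →
      ∀ c : ℝ, c < (ν U).toReal → ∀ᶠ i in (hyperfilter ℕ : Filter ℕ), ε * c < massIn (m i) U := by
  classical
  let P : ℕ → ProbabilityMeasure (ℕ → Bool) := fun i =>
    ⟨meas_nu (m i), meas_nu_prob (m i) (h0 i) (lt_of_lt_of_le hε (hm i))⟩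
  obtain ⟨μ, hμ⟩ : ∃ μ : ProbabilityMeasure (ℕ → Bool),
      Tendsto P (hyperfilter ℕ : Filter ℕ) (𝓝 μ) :=
    ⟨_, ((hyperfilter ℕ).map P).le_nhds_lim⟩
  refine ⟨(μ : Measure (ℕ → Bool)), inferInstance, ?_⟩
  intro U hU c hc
  have h1 := ProbabilityMeasure.tendsto_measure_of_isClopen_of_tendsto hμ hU
  have h2 : Tendsto (fun i => ((P i U : NNReal) : ℝ)) (hyperfilter ℕ : Filter ℕ)
      (𝓝 ((μ U : NNReal) : ℝ)) := (NNReal.continuous_coe.tendsto _).comp h1
  have h3 : ((μ U : NNReal) : ℝ) = ((μ : Measure (ℕ → Bool)) U).toReal := rfl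
  rw [h3] at h2
  filter_upwards [h2.eventually (lt_mem_nhds hc)] with i hi
  have h4 : ((P i U : NNReal) : ℝ) = (meas_nu (m i) U).toReal := rfl
  rw [h4, meas_nu_toReal (m i) (h0 i) hU.isOpen.measurableSet] at hi
  have hT : 0 < ∑ s ∈ (m i).support, m i s := lt_of_lt_of_le hε (hm i)
  rw [lt_div_iff₀ hT] at hi
  by_cases hc0 : 0 ≤ c
  · calc ε * c ≤ (∑ s ∈ (m i).support, m i s) * c := mul_le_mul_of_nonneg_right (hm i) hc0
      _ = c * ∑ s ∈ (m i).support, m i s := mul_comm _ _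
      _ < massIn (m i) U := hi
  · push Not at hc0
    calc ε * c < 0 := mul_neg_of_pos_of_neg hε hc0
      _ ≤ massIn (m i) U := Finset.sum_nonneg (fun s _ => h0 i s)

/-- the image of the points bounded by `g` on the first `k` coordinates -/
private def meas_A (f : (ℕ → ℕ) → (ℕ → Bool)) (k : ℕ) (g : ℕ → ℕ) : Set (ℕ → Bool) :=
  f '' {α | ∀ q < k, α q ≤ g q}

private theorem meas_A_congr (f : (ℕ → ℕ) → (ℕ → Bool)) {k : ℕ} {g g' : ℕ → ℕ}
    (h : ∀ q < k, g q = g' q) : meas_A f k g = meas_A f k g' := by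
  unfold meas_A
  congr 1
  ext α
  constructor
  · intro hα q hq
    rw [← h q hq]
    exact hα q hq
  · intro hα q hq
    rw [h q hq]
    exact hα q hq

private theorem meas_step (f : (ℕ → ℕ) → (ℕ → Bool)) (ν : Measure (ℕ → Bool)) {c : ENNReal}
    (k : ℕ) (g : ℕ → ℕ) (h : c < ν (meas_A f k g)) :
    ∃ g' : ℕ → ℕ, c < ν (meas_A f (k + 1) g') ∧ ∀ q < k, g' q = g q := by
  have hmono : Monotone (fun n => meas_A f (k + 1) (Function.update g k n)) := by
    intro a b hab
    apply Set.image_mono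
    intro α hα q hq
    have h1 := hα q hq
    by_cases hqk : q = k
    · subst hqk
      rw [Function.update_self] at h1 ⊢
      exact h1.trans hab
    · rw [Function.update_of_ne hqk] at h1 ⊢
      exact h1
  have hun : meas_A f k g ⊆ ⋃ n, meas_A f (k + 1) (Function.update g k n) := by
    rintro _ ⟨α, hα, rfl⟩
    rw [Set.mem_iUnion]
    refine ⟨α k, α, ?_, rfl⟩
    intro q hq
    by_cases hqk : q = k
    · subst hqk
      rw [Function.update_self]
    · rw [Function.update_of_ne hqk]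
      exact hα q (by omega)
  have h2 : c < ⨆ n, ν (meas_A f (k + 1) (Function.update g k n)) := by
    rw [← hmono.measure_iUnion]
    exact lt_of_lt_of_le h (measure_mono hun)
  obtain ⟨n, hn⟩ := lt_iSup_iff.1 h2
  exact ⟨Function.update g k n, hn, fun q hq => Function.update_of_ne (by omega) _ _⟩

private theorem meas_seq (f : (ℕ → ℕ) → (ℕ → Bool)) (ν : Measure (ℕ → Bool)) {c : ENNReal}
    (h : c < ν (Set.range f)) : ∃ g : ℕ → ℕ, ∀ k, c < ν (meas_A f k g) := by
  have h0 : c < ν (meas_A f 0 (fun _ => 0)) := by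
    have : meas_A f 0 (fun _ => 0) = Set.range f := by
      unfold meas_A
      rw [← Set.image_univ]
      congr 1
      ext α
      simp
    rwa [this]
  have hstep : ∀ (k : ℕ) (g : {g : ℕ → ℕ // c < ν (meas_A f k g)}),
      ∃ g' : {g : ℕ → ℕ // c < ν (meas_A f (k + 1) g)}, ∀ q < k, g'.1 q = g.1 q := by
    rintro k ⟨g, hg⟩
    obtain ⟨g', h1, h2⟩ := meas_step f ν k g hg
    exact ⟨⟨g', h1⟩, h2⟩
  choose F hF using hstep
  let G : ∀ k : ℕ, {g : ℕ → ℕ // c < ν (meas_A f k g)} := fun k =>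
    Nat.rec (motive := fun k => {g : ℕ → ℕ // c < ν (meas_A f k g)}) ⟨fun _ => 0, h0⟩
      (fun k g => F k g) k
  have hG : ∀ k, ∀ q < k, (G (k + 1)).1 q = (G k).1 q := fun k => hF k (G k)
  have hG2 : ∀ q d, (G (q + 1 + d)).1 q = (G (q + 1)).1 q := by
    intro q d
    induction d with
    | zero => rfl
    | succ d ih =>
      rw [← ih]
      exact hG (q + 1 + d) q (by omega)
  refine ⟨fun q => (G (q + 1)).1 q, fun k => ?_⟩
  have h3 : meas_A f k (fun q => (G (q + 1)).1 q) = meas_A f k (G k).1 := by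
    apply meas_A_congr
    intro q hq
    obtain ⟨d, rfl⟩ := Nat.exists_eq_add_of_le (show q + 1 ≤ k by omega)
    exact (hG2 q d).symm
  rw [h3]
  exact (G k).2

private theorem meas_cyl {V : Set (ℕ → ℕ)} (hV : IsOpen V) {α : ℕ → ℕ} (hα : α ∈ V) :
    ∃ k, ∀ β : ℕ → ℕ, (∀ q < k, β q = α q) → β ∈ V := by
  rw [isOpen_pi_iff] at hV
  obtain ⟨I, u, hu, hsub⟩ := hV α hα
  refine ⟨I.sup id + 1, fun β hβ => hsub ?_⟩
  intro q hq
  have hq2 : q ≤ I.sup id := Finset.le_sup (f := id) hq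
  rw [hβ q (by omega)]
  exact (hu q hq).2

private theorem meas_compact (g : ℕ → ℕ) : IsCompact {α : ℕ → ℕ | ∀ q, α q ≤ g q} := by
  have h1 : {α : ℕ → ℕ | ∀ q, α q ≤ g q} = Set.pi Set.univ (fun q => Set.Iic (g q)) := by
    ext α
    simp only [Set.mem_ofPred_eq, Set.mem_univ_pi, Set.mem_Iic]
  rw [h1]
  exact isCompact_univ_pi (fun q => (Set.finite_Iic (g q)).isCompact)

private theorem meas_leb {V : Set (ℕ → ℕ)} (hV : IsOpen V) (g : ℕ → ℕ)
    (hK : {α : ℕ → ℕ | ∀ q, α q ≤ g q} ⊆ V) :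
    ∃ k, {α : ℕ → ℕ | ∀ q < k, α q ≤ g q} ⊆ V := by
  classical
  have h1 : ∀ α : ℕ → ℕ, ∃ k, α ∈ {α : ℕ → ℕ | ∀ q, α q ≤ g q} →
      ∀ β : ℕ → ℕ, (∀ q < k, β q = α q) → β ∈ V := by
    intro α
    by_cases hα : α ∈ {α : ℕ → ℕ | ∀ q, α q ≤ g q}
    · obtain ⟨k, hk⟩ := meas_cyl hV (hK hα)
      exact ⟨k, fun _ => hk⟩
    · exact ⟨0, fun h => absurd h hα⟩
  choose kk hkk using h1
  have hopen : ∀ α : ℕ → ℕ, IsOpen {β : ℕ → ℕ | ∀ q < kk α, β q = α q} := by
    intro α
    have h2 : {β : ℕ → ℕ | ∀ q < kk α, β q = α q} =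
        ⋂ q ∈ Set.Iio (kk α), {β : ℕ → ℕ | β q = α q} := by
      ext β
      simp
    rw [h2]
    apply (Set.finite_Iio (kk α)).isOpen_biInter
    intro q _
    exact (isOpen_discrete ({α q} : Set ℕ)).preimage
      (continuous_apply q : Continuous (fun β : ℕ → ℕ => β q))
  obtain ⟨T, hT1, hT2⟩ := (meas_compact g).elim_nhds_subcover
    (fun α => {β : ℕ → ℕ | ∀ q < kk α, β q = α q})
    (fun α _ => (hopen α).mem_nhds (fun q _ => rfl))
  refine ⟨T.sup kk, fun β hβ => ?_⟩
  let β' : ℕ → ℕ := fun q => if q < T.sup kk then β q else 0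
  have hβ' : β' ∈ {α : ℕ → ℕ | ∀ q, α q ≤ g q} := by
    intro q
    by_cases hq : q < T.sup kk
    · simp only [β', if_pos hq]
      exact hβ q hq
    · simp only [β', if_neg hq]
      exact Nat.zero_le _
  have h3 := hT2 hβ'
  rw [Set.mem_iUnion₂] at h3
  obtain ⟨α, hα, h4⟩ := h3
  apply hkk α (hT1 α hα)
  intro q hq
  have h5 : q < T.sup kk := lt_of_lt_of_le hq (Finset.le_sup hα)
  have h6 := h4 q hq
  simp only [β', if_pos h5] at h6
  exact h6

private theorem meas_inter (hf : Continuous f) (g : ℕ → ℕ) :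
    ⋂ k, closure (meas_A f k g) ⊆ f '' {α | ∀ q, α q ≤ g q} := by
  intro y hy
  by_contra hcon
  have hcl : IsClosed (f '' {α | ∀ q, α q ≤ g q}) := ((meas_compact g).image hf).isClosed
  obtain ⟨N, hN, hyN, hNs⟩ := compact_exists_isClopen_in_isOpen hcl.isOpen_compl hcon
  have h1 : {α : ℕ → ℕ | ∀ q, α q ≤ g q} ⊆ f ⁻¹' Nᶜ := by
    intro α hα hαN
    exact hNs hαN ⟨α, hα, rfl⟩
  obtain ⟨k, hk⟩ := meas_leb (hN.compl.isOpen.preimage hf) g h1
  have h2 : closure (meas_A f k g) ⊆ Nᶜ := by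
    apply closure_minimal _ hN.compl.isClosed
    rintro _ ⟨α, hα, rfl⟩
    exact hk hα
  exact h2 (Set.mem_iInter.1 hy k) hyN

/-- **Capacity.**  Proof. Let `0 < c < ν (range f)`, `A k g = f '' {α | ∀ q < k, α q ≤ g q}`. `A 0 g = range f`, and for fixed `g 0, ..., g (k-1)` the
sets `A (k+1) g` increase with `g k` to `A k g`, so by `measure_iUnion_eq_iSup`-type continuity from below (valid for monotone sequences of arbitrary
sets, `Monotone.measure_iUnion`) one can choose `g k` recursively with `ν (A (k+1) g) > c`. The closed decreasing sets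
`closure (A k g)` have measure `> c`, so (`tendsto_measure_iInter_atTop` / antitone, finite measure) `ν (⋂ k, closure (A k g)) ≥ c > 0`.
And `⋂ k, closure (A k g) ⊆ f '' {α | ∀ q, α q ≤ g q}`: for `y` in the left side choose `α_k` with `∀ q < k, α_k q ≤ g q` and
`f α_k` agreeing with `y` on `q < k`; all `α_k` lie in a compact product of finite intervals (`q`-th interval up to
`max (g q) (max_{k ≤ q} α_k q)`), a subsequence converges to `α ≤ g`, `f α = y`. -/
theorem capacity (hf : Continuous f) (ν : Measure (ℕ → Bool)) [IsFiniteMeasure ν]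
    (h : 0 < ν (Set.range f)) : ∃ g : ℕ → ℕ, 0 < ν (f '' {α | ∀ q, α q ≤ g q}) := by
  obtain ⟨c, hc0, hc⟩ := exists_between h
  obtain ⟨g, hg⟩ := meas_seq f ν hc
  refine ⟨g, lt_of_lt_of_le hc0 ?_⟩
  have hanti : Antitone (fun k => closure (meas_A f k g)) := by
    intro k l hkl
    apply closure_mono
    apply Set.image_mono
    intro α hα q hq
    exact hα q (lt_of_lt_of_le hq hkl)
  have h1 : ν (⋂ k, closure (meas_A f k g)) = ⨅ k, ν (closure (meas_A f k g)) :=
    hanti.measure_iInter (fun k => isClosed_closure.measurableSet.nullMeasurableSet)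
      ⟨0, measure_ne_top _ _⟩
  calc c ≤ ⨅ k, ν (closure (meas_A f k g)) :=
        le_iInf (fun k => (hg k).le.trans (measure_mono subset_closure))
    _ = ν (⋂ k, closure (meas_A f k g)) := h1.symm
    _ ≤ ν (f '' {α | ∀ q, α q ≤ g q}) := measure_mono (meas_inter hf g)

/-- Proof. If `ν A = 0` there is an open `U ⊇ A` with `ν U < ν univ` (outer regularity, `Set.exists_isOpen_lt_of_lt`); `F = Uᶜ` is compact, disjoint from
`A`, so countable, and `ν F > 0`; but `ν F ≤ ∑ ν {x} = 0` (`Set.Countable.measure_zero`-like). -/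
theorem pos_of_no_atoms (ν : Measure (ℕ → Bool)) [IsFiniteMeasure ν] {A : Set (ℕ → Bool)}
    (hcpt : ∀ F : Set (ℕ → Bool), IsCompact F → Disjoint F A → F.Countable)
    (hat : ∀ x ∉ A, ν {x} = 0) (hν : ν ≠ 0) : 0 < ν A := by
  by_contra hcon
  have hA : ν A = 0 := by simpa using hcon
  have huniv : 0 < ν Set.univ := by
    rw [pos_iff_ne_zero]
    exact fun h => hν (Measure.measure_univ_eq_zero.1 h)
  obtain ⟨U, hAU, hUo, hU⟩ := A.exists_isOpen_lt_of_lt (ν Set.univ) (by rw [hA]; exact huniv)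
  have hF : Uᶜ.Countable := by
    apply hcpt _ hUo.isClosed_compl.isCompact
    rw [Set.disjoint_left]
    intro x hx hxA
    exact hx (hAU hxA)
  have h1 : ν Uᶜ = 0 := by
    have h2 : ν (⋃ x ∈ Uᶜ, {x}) = 0 := by
      rw [measure_biUnion_null_iff hF]
      intro x hx
      exact hat x (fun hxA => hx (hAU hxA))
    rwa [Set.biUnion_of_singleton] at h2
  have h3 : ν Set.univ ≤ ν U + ν Uᶜ := by
    rw [← Set.union_compl_self U]
    exact measure_union_le _ _
  rw [h1, add_zero] at h3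
  exact absurd hU (not_lt.2 h3)

end

end Pool.Agent.WCT
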