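import Pool.Agent.WCT.Basic

/-!
# Ptak's lemma (module Ptak)
-/

namespace Pool.Agent.WCT

open Finset Filter Topology

noncomputable section

variable {f : (ℕ → ℕ) → (ℕ → Bool)}

/-- the finite set `G` of indices is good for `x` -/
def GoodIdx (f : (ℕ → ℕ) → (ℕ → Bool)) (x : ℕ → Bool) (μ : ℕ → ℕ) (G : Finset ℕ) : Prop :=
  ∃ α : ℕ → ℕ, (∀ q < G.card, f α q = x q) ∧
    ∀ l ∈ G, ∀ q ≤ (G.filter (fun l' => l' < l)).card, α q ≤ μ l

/-- subsets of good sets are good -/
theorem ptak_mono {x : ℕ → Bool} {μ : ℕ → ℕ} {G G' : Finset ℕ} (h : GoodIdx f x μ G)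
    (hs : G' ⊆ G) : GoodIdx f x μ G' := by
  obtain ⟨α, h1, h2⟩ := h
  refine ⟨α, fun q hq => h1 q (lt_of_lt_of_le hq (card_le_card hs)), fun l hl q hq =>
    h2 l (hs hl) q (hq.trans (card_le_card (filter_subset_filter _ hs)))⟩

/-- the mass of a finite set is at most the total mass -/
theorem ptak_mass {A : Finset ℕ} {a : ℕ → ℝ} (h0 : ∀ i, 0 ≤ a i) (hA : ∀ i, i ∉ A → a i = 0)
    (G : Finset ℕ) : ∑ i ∈ G, a i ≤ ∑ i ∈ A, a i := by
  have h1 : ∑ i ∈ G ∩ A, a i = ∑ i ∈ G, a i :=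
    sum_subset inter_subset_left fun i hi hi' => hA i fun h => hi' (mem_inter.mpr ⟨hi, h⟩)
  rw [← h1]
  exact sum_le_sum_of_subset_of_nonneg inter_subset_right fun i _ _ => h0 i

/-- the mass of the elements of `G` is carried by a subset -/
theorem ptak_restrict {A : Finset ℕ} {a : ℕ → ℝ} (hA : ∀ i, i ∉ A → a i = 0)
    {G G' : Finset ℕ} (hs : G' ⊆ G) (hG : ∀ i ∈ G, i ∈ A → i ∈ G') :
    ∑ i ∈ G, a i = ∑ i ∈ G', a i :=
  (sum_subset hs fun i hi hi' => hA i fun h => hi' (hG i hi h)).symm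

/-- the finite set `C` of sets of indices is manageable with the constant `δ`: arbitrarily far out
there is a probability such that `F ∪ G` good, `F ∈ C`, `F < G` forces the mass of `G` to be at
most `δ` -/
def ptak_Man (f : (ℕ → ℕ) → (ℕ → Bool)) (x : ℕ → Bool) (μ : ℕ → ℕ) (C : Finset (Finset ℕ))
    (δ : ℝ) : Prop :=
  ∀ n : ℕ, ∃ (A : Finset ℕ) (a : ℕ → ℝ), (∀ i ∈ A, n ≤ i) ∧ (∀ i, 0 ≤ a i) ∧
    (∀ i, i ∉ A → a i = 0) ∧ ∑ i ∈ A, a i = 1 ∧
    ∀ F ∈ C, ∀ G : Finset ℕ, (∀ i ∈ F, ∀ j ∈ G, i < j) → GoodIdx f x μ (F ∪ G) →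
      ∑ i ∈ G, a i ≤ δ

theorem ptak_Man_empty {x : ℕ → Bool} {μ : ℕ → ℕ} {δ : ℝ} : ptak_Man f x μ ∅ δ := by
  intro n
  refine ⟨{n}, Pi.single n 1, ?_, ?_, ?_, ?_, ?_⟩
  · intro i hi
    rw [mem_singleton] at hi
    exact hi.ge
  · intro i
    by_cases h : i = n
    · subst h
      rw [Pi.single_eq_same]
      exact zero_le_one
    · rw [Pi.single_eq_of_ne h]
  · intro i hi
    rw [mem_singleton] at hi
    exact Pi.single_eq_of_ne hi _
  · rw [sum_singleton, Pi.single_eq_same]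
  · intro F hF
    exact absurd hF (notMem_empty F)

/-- a bound for the elements of finitely many finite sets -/
theorem ptak_bound (C : Finset (Finset ℕ)) : ∃ B : ℕ, ∀ F ∈ C, ∀ l ∈ F, l < B := by
  refine ⟨(C.biUnion id).sup id + 1, fun F hF l hl => ?_⟩
  have h1 : l ∈ C.biUnion id := mem_biUnion.mpr ⟨F, hF, hl⟩
  have h2 : l ≤ (C.biUnion id).sup id := le_sup (f := id) h1
  omega

/-- the averaging step, before normalising -/
theorem ptak_avg {x : ℕ → Bool} {μ : ℕ → ℕ} {C : Finset (Finset ℕ)} {δ : ℝ} (hδ : 0 < δ)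
    (h : ∀ C' : Finset (Finset ℕ), (∀ F' ∈ C', GoodIdx f x μ F' ∧ ∃ F ∈ C, ∃ l : ℕ,
      (∀ i ∈ F, i < l) ∧ F' = insert l F) → ptak_Man f x μ C' (δ / 2)) (n N : ℕ) :
    ∃ (A : Finset ℕ) (a : ℕ → ℝ), (∀ i ∈ A, n ≤ i) ∧ (∀ F ∈ C, ∀ i ∈ F, ∀ j ∈ A, i < j) ∧
      (∀ i, 0 ≤ a i) ∧ (∀ i, i ∉ A → a i = 0) ∧ ∑ i ∈ A, a i = N ∧
      ∀ F ∈ C, ∀ G : Finset ℕ, (∀ i ∈ F, ∀ j ∈ G, i < j) → GoodIdx f x μ (F ∪ G) →
        ∑ i ∈ G, a i ≤ 1 + N * (δ / 2) := by
  classical
  induction N with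
  | zero =>
    refine ⟨∅, fun _ => 0, ?_, ?_, fun _ => le_rfl, fun _ _ => rfl, ?_, ?_⟩
    · intro i hi
      exact absurd hi (notMem_empty i)
    · intro F _ i _ j hj
      exact absurd hj (notMem_empty j)
    · simp
    · intro F _ G _ _
      simp
  | succ N ih =>
    obtain ⟨A, a, hn, hF, h0, hA, hs, hG⟩ := ih
    let C' : Finset (Finset ℕ) :=
      ((C ×ˢ A).image (fun p => insert p.2 p.1)).filter (fun F' => GoodIdx f x μ F')
    have hC' : ∀ F' ∈ C', GoodIdx f x μ F' ∧ ∃ F ∈ C, ∃ l : ℕ,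
        (∀ i ∈ F, i < l) ∧ F' = insert l F := by
      intro F' hF'
      obtain ⟨h1, h2⟩ := mem_filter.mp hF'
      obtain ⟨p, hp, rfl⟩ := mem_image.mp h1
      obtain ⟨hp1, hp2⟩ := mem_product.mp hp
      exact ⟨h2, p.1, hp1, p.2, fun i hi => hF p.1 hp1 i hi p.2 hp2, rfl⟩
    obtain ⟨B1, hB1⟩ := ptak_bound C
    obtain ⟨B2, hB2⟩ := ptak_bound {A}
    obtain ⟨A', a', hn', h0', hA', hs', hG'⟩ := h C' hC' (n + B1 + B2)
    have hAA' : ∀ i ∈ A, ∀ j ∈ A', i < j := by
      intro i hi j hj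
      have h1 := hB2 A (mem_singleton_self A) i hi
      have h2 := hn' j hj
      omega
    have hdisj : Disjoint A A' := by
      rw [disjoint_left]
      intro i hi hi'
      exact lt_irrefl i (hAA' i hi i hi')
    refine ⟨A ∪ A', fun i => a i + a' i, ?_, ?_, fun i => add_nonneg (h0 i) (h0' i), ?_, ?_, ?_⟩
    · intro i hi
      rcases mem_union.mp hi with hi | hi
      · exact hn i hi
      · have := hn' i hi
        omega
    · intro F hFC i hi j hj
      rcases mem_union.mp hj with hj | hj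
      · exact hF F hFC i hi j hj
      · have h1 := hn' j hj
        have h2 := hB1 F hFC i hi
        omega
    · intro i hi
      have h1 := hA i fun h => hi (mem_union_left _ h)
      have h2 := hA' i fun h => hi (mem_union_right _ h)
      show a i + a' i = 0
      rw [h1, h2, add_zero]
    · rw [sum_union hdisj, sum_add_distrib, sum_add_distrib, hs, hs']
      have h1 : ∑ i ∈ A, a' i = 0 :=
        sum_eq_zero fun i hi => hA' i fun h => disjoint_left.mp hdisj hi h
      have h2 : ∑ i ∈ A', a i = 0 :=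
        sum_eq_zero fun i hi => hA i fun h => disjoint_left.mp hdisj h hi
      rw [h1, h2]
      push_cast
      ring
    · intro F hFC G hFG hgood
      rw [sum_add_distrib]
      push_cast
      by_cases hGA : ∃ l ∈ G, l ∈ A
      · obtain ⟨l, hlG, hlA⟩ := hGA
        have h1 := hG F hFC G hFG hgood
        have hsub : insert l F ∪ G.filter (fun i => l < i) ⊆ F ∪ G := by
          intro i hi
          rcases mem_union.mp hi with hi | hi
          · rcases mem_insert.mp hi with hi | hi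
            · subst hi
              exact mem_union_right _ hlG
            · exact mem_union_left _ hi
          · exact mem_union_right _ (mem_filter.mp hi).1
        have hmem : insert l F ∈ C' := by
          refine mem_filter.mpr ⟨mem_image.mpr ⟨(F, l), mem_product.mpr ⟨hFC, hlA⟩, rfl⟩, ?_⟩
          exact ptak_mono hgood (subset_union_left.trans hsub)
        have h2 : ∑ i ∈ G, a' i ≤ δ / 2 := by
          rw [ptak_restrict hA' (filter_subset (fun i => l < i) G)
            (fun i hi hi' => mem_filter.mpr ⟨hi, hAA' l hlA i hi'⟩)]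
          refine hG' _ hmem _ ?_ (ptak_mono hgood hsub)
          intro i hi j hj
          obtain ⟨hj1, hj2⟩ := mem_filter.mp hj
          rcases mem_insert.mp hi with hi | hi
          · subst hi
            exact hj2
          · exact hFG i hi j hj1
        linarith
      · have h1 : ∑ i ∈ G, a i = 0 :=
          sum_eq_zero fun i hi => hA i fun h => hGA ⟨i, hi, h⟩
        have h2 := ptak_mass h0' hA' G
        rw [hs'] at h2
        have h3 : 0 ≤ ((N : ℝ) + 1) * (δ / 2) := by positivity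
        linarith

/-- the averaging step -/
theorem ptak_step {x : ℕ → Bool} {μ : ℕ → ℕ} {C : Finset (Finset ℕ)} {δ : ℝ} (hδ : 0 < δ)
    (h : ∀ C' : Finset (Finset ℕ), (∀ F' ∈ C', GoodIdx f x μ F' ∧ ∃ F ∈ C, ∃ l : ℕ,
      (∀ i ∈ F, i < l) ∧ F' = insert l F) → ptak_Man f x μ C' (δ / 2)) :
    ptak_Man f x μ C δ := by
  intro n
  obtain ⟨N, hN⟩ := exists_nat_gt (2 / δ)
  have hN0 : (0 : ℝ) < N := lt_trans (by positivity) hN
  obtain ⟨A, a, hn, _, h0, hA, hs, hG⟩ := ptak_avg hδ h n N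
  refine ⟨A, fun i => a i / N, hn, fun i => div_nonneg (h0 i) hN0.le, ?_, ?_, ?_⟩
  · intro i hi
    simp only
    rw [hA i hi, zero_div]
  · rw [← sum_div, hs, div_self hN0.ne']
  · intro F hF G hFG hgood
    rw [← sum_div, div_le_iff₀ hN0]
    have h1 := hG F hF G hFG hgood
    have h2 : 2 < N * δ := by
      rwa [div_lt_iff₀ hδ] at hN
    linarith

/-- a bad set has a bad set of children -/
theorem ptak_child {x : ℕ → Bool} {μ : ℕ → ℕ} {C : Finset (Finset ℕ)} {δ : ℝ} (hδ : 0 < δ)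
    (h : ¬ ptak_Man f x μ C δ) : ∃ (C' : Finset (Finset ℕ)) (B : ℕ), ¬ ptak_Man f x μ C' (δ / 2) ∧
      ∀ F' ∈ C', GoodIdx f x μ F' ∧ ∃ F ∈ C, ∃ l < B, (∀ i ∈ F, i < l) ∧ F' = insert l F := by
  by_contra hcon
  push Not at hcon
  apply h
  refine ptak_step hδ fun C' hC' => ?_
  by_contra hbad
  obtain ⟨B, hB⟩ := ptak_bound C'
  obtain ⟨F', hF', h2⟩ := hcon C' B hbad
  obtain ⟨h3, F, hF, l, h4, h5⟩ := hC' F' hF'
  refine h2 h3 F hF l (hB F' hF' l ?_) h4 h5
  rw [h5]
  exact mem_insert_self l F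

/-- the sequence of bad sets -/
theorem ptak_seq {x : ℕ → Bool} {μ : ℕ → ℕ} {δ : ℝ} (hδ : 0 < δ)
    (h : ¬ ptak_Man f x μ {∅} δ) : ∃ (C : ℕ → Finset (Finset ℕ)) (B : ℕ → ℕ),
      (∀ k, (C k).Nonempty) ∧ C 0 = {∅} ∧
      ∀ k, ∀ F' ∈ C (k + 1), GoodIdx f x μ F' ∧ ∃ F ∈ C k, ∃ l < B k,
        (∀ i ∈ F, i < l) ∧ F' = insert l F := by
  let S := {p : Finset (Finset ℕ) × ℝ // 0 < p.2 ∧ ¬ ptak_Man f x μ p.1 p.2}
  have hstep : ∀ p : S, ∃ (p' : S) (B : ℕ), ∀ F' ∈ p'.1.1, GoodIdx f x μ F' ∧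
      ∃ F ∈ p.1.1, ∃ l < B, (∀ i ∈ F, i < l) ∧ F' = insert l F := by
    intro p
    obtain ⟨C', B, h1, h2⟩ := ptak_child p.2.1 p.2.2
    exact ⟨⟨(C', p.1.2 / 2), half_pos p.2.1, h1⟩, B, h2⟩
  choose nx B hnx using hstep
  let s : ℕ → S := fun k => Nat.rec ⟨({∅}, δ), hδ, h⟩ (fun _ p => nx p) k
  refine ⟨fun k => (s k).1.1, fun k => B (s k), ?_, rfl, ?_⟩
  · intro k
    rw [nonempty_iff_ne_empty]
    intro he
    apply (s k).2.2
    have he' : (s k).1.1 = ∅ := he
    rw [he']
    exact ptak_Man_empty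
  · intro k
    exact hnx (s k)

theorem ptak_man (hf : Continuous f) {x : ℕ → Bool} (hx : x ∉ Set.range f) (μ : ℕ → ℕ)
    {δ : ℝ} (hδ : 0 < δ) : ptak_Man f x μ {∅} δ := by
  classical
  by_contra hbad
  obtain ⟨C, B, hne, hC0, hC⟩ := ptak_seq hδ hbad
  -- the elements of `C k`
  have hinv : ∀ k, ∀ F ∈ C k, k ≤ F.card ∧
      ∀ q < k, ∃ l ∈ F, l < B q ∧ q ≤ (F.filter (fun i => i < l)).card := by
    intro k
    induction k with
    | zero =>
      intro F _
      exact ⟨Nat.zero_le _, fun q hq => absurd hq (Nat.not_lt_zero q)⟩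
    | succ k ih =>
      intro F' hF'
      obtain ⟨_, F, hF, l, hl, hFl, rfl⟩ := hC k F' hF'
      obtain ⟨h1, h2⟩ := ih F hF
      have hnot : l ∉ F := fun hcon => lt_irrefl l (hFl l hcon)
      refine ⟨by rw [card_insert_of_notMem hnot]; omega, fun q hq => ?_⟩
      rcases Nat.lt_or_ge q k with hqk | hqk
      · obtain ⟨j, hj, hjB, hjc⟩ := h2 q hqk
        exact ⟨j, mem_insert_of_mem hj, hjB,
          hjc.trans (card_le_card (filter_subset_filter _ (subset_insert l F)))⟩
      · have hqk' : q = k := by omega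
        subst hqk'
        refine ⟨l, mem_insert_self l F, hl, h1.trans (card_le_card ?_)⟩
        intro i hi
        exact mem_filter.mpr ⟨mem_insert_of_mem hi, hFl i hi⟩
  -- witnesses
  have hwit : ∀ k, ∃ α : ℕ → ℕ, (∀ q < k + 1, f α q = x q) ∧
      ∀ q < k + 1, α q ≤ ∑ i ∈ range (B q), μ i := by
    intro k
    obtain ⟨F, hF⟩ := hne (k + 1)
    obtain ⟨⟨α, h1, h2⟩, _⟩ := hC k F hF
    obtain ⟨h3, h4⟩ := hinv (k + 1) F hF
    refine ⟨α, fun q hq => h1 q (lt_of_lt_of_le hq h3), fun q hq => ?_⟩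
    obtain ⟨l, hl, hlB, hlc⟩ := h4 q hq
    exact (h2 l hl q hlc).trans
      (single_le_sum (f := μ) (fun i _ => Nat.zero_le _) (mem_range.mpr hlB))
  choose α hα1 hα2 using hwit
  have hlim : ∀ q, ∃ c ∈ Set.Iic (∑ i ∈ range (B q), μ i),
      ∀ᶠ k in (hyperfilter ℕ : Filter ℕ), α k q = c := by
    intro q
    refine (Ultrafilter.eventually_exists_mem_iff (Set.finite_Iic _)).mp ?_
    have h1 : ∀ᶠ k in (atTop : Filter ℕ), q < k + 1 := by
      filter_upwards [eventually_ge_atTop q] with k hk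
      omega
    have h2 : ∀ᶠ k in (hyperfilter ℕ : Filter ℕ), q < k + 1 := Nat.hyperfilter_le_atTop h1
    filter_upwards [h2] with k hk
    exact ⟨_, hα2 k q hk, rfl⟩
  choose c _ hc using hlim
  have ht : Tendsto α (hyperfilter ℕ : Filter ℕ) (𝓝 c) := by
    rw [tendsto_pi_nhds]
    intro q
    exact tendsto_nhds_of_eventually_eq (hc q)
  have ht2 : Tendsto (fun k => f (α k)) (hyperfilter ℕ : Filter ℕ) (𝓝 (f c)) :=
    (hf.tendsto c).comp ht
  apply hx
  refine ⟨c, ?_⟩
  ext q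
  rw [tendsto_pi_nhds] at ht2
  have h1 : ∀ᶠ k in (atTop : Filter ℕ), q < k + 1 := by
    filter_upwards [eventually_ge_atTop q] with k hk
    omega
  have h2 : ∀ᶠ k in (hyperfilter ℕ : Filter ℕ), q < k + 1 := Nat.hyperfilter_le_atTop h1
  have h3 : Tendsto (fun k => f (α k) q) (hyperfilter ℕ : Filter ℕ) (𝓝 (x q)) := by
    refine tendsto_nhds_of_eventually_eq ?_
    filter_upwards [h2] with k hk
    exact hα1 k q hk
  exact tendsto_nhds_unique (ht2 q) h3

/-- **Ptak's lemma** for the family of good sets of a point `x` outside the range of `f`.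

Proof. `GoodIdx` is hereditary (subsets of good sets are good: positions and cardinalities decrease). There is no
infinite set `M` all of whose finite initial segments are good: let `l_0 < l_1 < ...` enumerate `M`, `α_k` a witness for
`{l_0, ..., l_{k-1}}`; then `α_k q ≤ μ (l_q)` for `q < k`, so all `α_k` lie in a compact product of finite intervals,
a subsequence converges to `α`, and `f α = x` by continuity (`f α_k q = x q` for `k > q`). Hence the relation
`F' child of F :<-> F' = insert l F, F' good, every element of F is < l` on finite sets of indices is well founded (restrict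
to good `F`).
Claim (strong induction on the ordinal `ρ`): for every finite set `C` of good sets of rank `< ρ`, every `δ > 0` and every
`n` there are a finite set `A` of indices `≥ n` and weights `a ≥ 0` on `A` with sum `1` such that for `F ∈ C` and every finite `G`
with all elements of `G` above all elements of `F` and `F ∪ G` good, the `a`-mass of `G` is `≤ δ`. (If `C` is empty take one
point.) Let `ρ' < ρ` be the largest rank of an element of `C`, `N ≥ 2 / δ`. Choose successively `a_1, ..., a_N` (finitely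
supported, `a_{i+1}` supported above `a_1, ..., a_i` and above all elements of all `F ∈ C`) such that `a_{i+1}` satisfies the claim with
`δ / 2` for the finite set of all good `insert l F`, `F ∈ C`, `l` in the support of `a_1, ..., a_i`
(children of elements of `C`, so of rank `< ρ'`: induction hypothesis for `ρ'`; for `a_1` any point). Put `a = (a_1 + ... + a_N) / N`. If `F ∪ G` is good
let `l` be the least element of `G` in the support of `a`, in the support of `a_i` say: then `a_{i'}(G) = 0` for `i' < i`,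
`a_i(G) ≤ 1` and `a_{i'}(G) ≤ δ / 2` for `i' > i` (apply it to `insert l F` and the elements of `G` that are `> l`). So the mass of `G`
is `≤ 1 / N + δ / 2 ≤ δ`.
Apply the claim with `C = {∅}` (the empty set is good; ranks by `WellFounded.rank` / `IsWellFounded.rank`). -/
theorem ptak (hf : Continuous f) {x : ℕ → Bool} (hx : x ∉ Set.range f) (μ : ℕ → ℕ)
    {δ : ℝ} (hδ : 0 < δ) : ∃ (L : ℕ) (a : ℕ → ℝ), (∀ l, 0 ≤ a l) ∧ ∑ l ∈ range L, a l = 1 ∧
      ∀ G ⊆ range L, GoodIdx f x μ G → ∑ l ∈ G, a l ≤ δ := by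
  classical
  obtain ⟨A, a, _, h0, hA, hs, hG⟩ := ptak_man hf hx μ hδ 0
  obtain ⟨L, hL⟩ := ptak_bound {A}
  have hAL : A ⊆ range L := fun i hi => mem_range.mpr (hL A (mem_singleton_self A) i hi)
  refine ⟨L, a, h0, ?_, ?_⟩
  · rw [← hs]
    exact (sum_subset hAL fun i _ hi => hA i hi).symm
  · intro G _ hgood
    refine hG ∅ (mem_singleton_self _) G ?_ ?_
    · intro i hi
      exact absurd hi (notMem_empty i)
    · rwa [empty_union]

end

end Pool.Agent.WCT
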