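import Pool.Agent.WCT.SelCases

/-!
# Selection of admissible families (module Sel)
-/

namespace Pool.Agent.WCT

open Finset Filter Topology MeasureTheory

noncomputable section

variable {f : (ℕ → ℕ) → (ℕ → Bool)}

private theorem sel_zero (hd : ∀ (x : ℕ → Bool) (k : ℕ), ∃ α, ∀ q < k, f α q = x q) :
    ∃ n0 : ℕ, ∀ b : Bool, ∃ α : ℕ → ℕ, f α 0 = b ∧ α 0 ≤ n0 := by
  obtain ⟨α, hα⟩ := hd (fun _ => true) 1
  obtain ⟨β, hβ⟩ := hd (fun _ => false) 1
  refine ⟨max (α 0) (β 0), ?_⟩
  intro b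
  cases b with
  | true => exact ⟨α, hα 0 (by norm_num), le_max_left _ _⟩
  | false => exact ⟨β, hβ 0 (by norm_num), le_max_right _ _⟩

private theorem sel_ge (n : ℕ) : ∀ᶠ j in (hyperfilter ℕ : Filter ℕ), n ≤ j := by
  have h : (hyperfilter ℕ : Filter ℕ) ≤ atTop := by
    rw [← Nat.cofinite_eq_atTop]
    exact hyperfilter_le_cofinite
  exact h (eventually_ge_atTop n)

private theorem sel_clopen (n : ℕ) (P : (Fin n → Bool) → Prop) :
    IsClopen {y : ℕ → Bool | P (fun q => y q)} := by
  have hc : Continuous (fun y : ℕ → Bool => (fun q : Fin n => y q)) :=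
    continuous_pi (fun q => continuous_apply _)
  exact (isClopen_discrete {z : Fin n → Bool | P z}).preimage hc

private theorem sel_pt {s : Node} {n : ℕ} (hn : n < s.length) (x : ℕ → Bool) :
    pt s ∈ {y : ℕ → Bool | ∀ q < n, y q = x q} ↔
      (n < s.length ∧ ∀ q (h : q < s.length), q < n → s[q] = x q) := by
  constructor
  · intro h
    refine ⟨hn, fun q hq hqn => ?_⟩
    have h1 := h q hqn
    unfold pt at h1
    rw [List.getD_eq_getElem _ _ hq] at h1
    exact h1
  · rintro ⟨_, h⟩ q hq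
    have hq' : q < s.length := by omega
    have h1 := h q hq' hq
    unfold pt
    rw [List.getD_eq_getElem _ _ hq']
    exact h1

private theorem sel_pt2 {s : Node} {n : ℕ} (hn : n < s.length) (g : ℕ → ℕ) :
    pt s ∈ {y : ℕ → Bool | ∃ α : ℕ → ℕ, (∀ q, α q ≤ g q) ∧ ∀ q < n, f α q = y q} ↔
      (n < s.length ∧ ∃ α : ℕ → ℕ, (∀ q, α q ≤ g q) ∧
        ∀ q (h : q < s.length), q < n → f α q = s[q]) := by
  constructor
  · rintro ⟨α, hα, h⟩
    refine ⟨hn, α, hα, fun q hq hqn => ?_⟩
    have h1 := h q hqn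
    unfold pt at h1
    rw [List.getD_eq_getElem _ _ hq] at h1
    exact h1
  · rintro ⟨_, α, hα, h⟩
    refine ⟨α, hα, fun q hq => ?_⟩
    have hq' : q < s.length := by omega
    have h1 := h q hq' hq
    unfold pt
    rw [List.getD_eq_getElem _ _ hq']
    exact h1

/-- **Selection theorem.**  `D` = complement of the range of `f`. Proof.
(A) If for some `c > 0` there are infinitely many `x` with `∀ n, ∃ i, c ≤ massAt (m i) x n`, use `select_heavy`.
(B) Otherwise the set `H` of the `x` that are `c`-heavy for some `c > 0` is countable (union over `c = 1/(p+1)` of finite sets). Let `Ψ n` be an increasing sequence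
of finite sets with union `H ∩ D`. By `H` choose `i n` with `m (i n)` supported on levels `> n` off the branches of `Ψ n`, mass `≥ ε`.
Let `ν` be given by `lim_meas` for `m (i n)`.
(B1) Some `x ∈ D` has `ν {x} > 0`: with `c = ε ν{x} / 2` every cylinder `U = [x|n]` has `ν U ≥ ν {x}`, so for hyperfilter-many (in particular for arbitrarily large) `j`
`massAt (m (i j)) x n = massIn (m (i j)) [x|n] ≥ c` (levels `> j ≥ n`). So `x` is `c`-heavy, `x ∈ Ψ n'` for large `n'` and `m (i j)` is off the branch of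
`x` for large `j`: `select_atom`.
(B2) Otherwise `ν (range f) > 0` by `pos_of_no_atoms`, `capacity` gives `g` with `C = f '' {α ≤ g}`, `ν C > 0`. For every `n` the clopen set
`U_n = {y | ∃ z ∈ C, ∀ q < n, y q = z q}` contains `C`, so for hyperfilter-many `j`, `massIn (m (i j)) U_n ≥ ε ν(C) / 2`: hypothesis of `select_cantor`
(for `j > n` all levels are `> n`, and `pt s q = s[q]` for `q < s.length`). -/
theorem select (hf : Continuous f) (hd : ∀ (x : ℕ → Bool) (k : ℕ), ∃ α, ∀ q < k, f α q = x q)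
    (hcpt : ∀ F : Set (ℕ → Bool), IsCompact F → Disjoint F (Set.range f) → F.Countable)
    {ι : Type} (m : ι → Node →₀ ℝ) (h0 : ∀ i s, 0 ≤ m i s) {ε : ℝ} (hε : 0 < ε)
    (H : ∀ (Φ : Finset (ℕ → Bool)) (n : ℕ), (∀ x ∈ Φ, x ∉ Set.range f) →
      ∃ i, (∀ s ∈ (m i).support, n < s.length ∧ ∀ x ∈ Φ, ¬ On x s) ∧ ε ≤ mass (m i)) :
    ∃ (c : ℝ) (i : ℕ → ι) (E : ℕ → Finset Node), 0 < c ∧ (∀ k, Adm f E k) ∧
      ∀ j, c ≤ ∑ s ∈ E j, m (i j) s := by
  classical
  obtain ⟨n0, hn0⟩ := sel_zero hd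
  by_cases hA : ∃ c : ℝ, 0 < c ∧ {x | ∀ n, ∃ i, c ≤ massAt (m i) x n}.Infinite
  · obtain ⟨c, hc, hinf⟩ := hA
    obtain ⟨i, E, h1, h2⟩ := select_heavy hn0 m hinf (fun x hx => hx)
    exact ⟨c, i, E, hc, h1, h2⟩
  push Not at hA
  -- the countable set of heavy points
  have hcount : (⋃ p : ℕ, {x : ℕ → Bool | ∀ n, ∃ i, (1 / ((p : ℝ) + 1)) ≤ massAt (m i) x n}).Countable := by
    apply Set.countable_iUnion
    intro p
    exact (hA _ (by positivity)).countable
  obtain ⟨e, he⟩ := Set.countable_iff_exists_subset_range.mp hcount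
  set Ψ : ℕ → Finset (ℕ → Bool) := fun n => ((range (n + 1)).image e).filter (fun x => x ∉ Set.range f)
    with hΨ
  have hΨr : ∀ n, ∀ x ∈ Ψ n, x ∉ Set.range f := fun n x hx => (Finset.mem_filter.mp hx).2
  choose i hi1 hi2 using fun n => H (Ψ n) n (hΨr n)
  obtain ⟨ν, hν, hlim⟩ := lim_meas (fun n => m (i n)) (fun n s => h0 (i n) s) hε hi2
  have hlev : ∀ n, ∀ s ∈ (m (i n)).support, n < s.length := fun n s hs => (hi1 n s hs).1
  by_cases hat : ∃ x, x ∉ Set.range f ∧ ν {x} ≠ 0
  · obtain ⟨x, hx, hx0⟩ := hat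
    set a : ℝ := (ν {x}).toReal with ha
    have hapos : 0 < a := ENNReal.toReal_pos hx0 (measure_ne_top _ _)
    have key : ∀ n, ∀ᶠ j in (hyperfilter ℕ : Filter ℕ), ε * (a / 2) < massAt (m (i j)) x n := by
      intro n
      have hU : IsClopen {y : ℕ → Bool | ∀ q < n, y q = x q} :=
        sel_clopen n (fun y => ∀ q (h : q < n), y ⟨q, h⟩ = x q)
      have hlt : a / 2 < (ν {y : ℕ → Bool | ∀ q < n, y q = x q}).toReal := by
        have h1 : a ≤ (ν {y : ℕ → Bool | ∀ q < n, y q = x q}).toReal := by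
          apply ENNReal.toReal_mono (measure_ne_top _ _)
          apply measure_mono
          intro y hy
          simp only [Set.mem_singleton_iff] at hy
          subst hy
          intro q _
          rfl
        linarith
      have h2 := hlim _ hU _ hlt
      have h3 : ∀ᶠ j in (hyperfilter ℕ : Filter ℕ), n ≤ j := sel_ge n
      filter_upwards [h2, h3] with j hj hnj
      have : massIn (m (i j)) {y : ℕ → Bool | ∀ q < n, y q = x q} = massAt (m (i j)) x n := by
        unfold massIn massAt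
        apply Finset.sum_congr _ (fun _ _ => rfl)
        ext s
        simp only [Finset.mem_filter]
        refine and_congr_right (fun hs => ?_)
        have hl := hlev j s hs
        exact sel_pt (by omega) x
      rw [← this]
      exact hj
    have hheavy : ∀ n, ∃ i, ε * (a / 2) ≤ massAt (m i) x n := by
      intro n
      obtain ⟨j, hj⟩ := (key n).exists
      exact ⟨i j, hj.le⟩
    have hcpos : 0 < ε * (a / 2) := by positivity
    obtain ⟨p, hp⟩ := exists_nat_one_div_lt hcpos
    have hxe : x ∈ Set.range e := by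
      apply he
      refine Set.mem_iUnion.mpr ⟨p, ?_⟩
      intro n
      obtain ⟨i', hi'⟩ := hheavy n
      exact ⟨i', hp.le.trans hi'⟩
    obtain ⟨p', hp'⟩ := hxe
    obtain ⟨i', E, h1, h2⟩ := select_atom (c := ε * (a / 2)) (x := x) hn0 m (by
      intro n
      obtain ⟨j, hj1, hj2⟩ := ((key n).and (sel_ge p')).exists
      refine ⟨i j, ?_, hj1.le⟩
      intro s hs
      refine (hi1 j s hs).2 x ?_
      rw [hΨ]
      refine Finset.mem_filter.mpr ⟨Finset.mem_image.mpr ⟨p', Finset.mem_range.mpr (by omega), hp'⟩, hx⟩)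
    exact ⟨_, i', E, hcpos, h1, h2⟩
  · push Not at hat
    have hν0 : ν ≠ 0 := IsProbabilityMeasure.ne_zero ν
    have hr : 0 < ν (Set.range f) := pos_of_no_atoms ν hcpt hat hν0
    obtain ⟨g, hg⟩ := capacity hf ν hr
    set a : ℝ := (ν (f '' {α | ∀ q, α q ≤ g q})).toReal with ha
    have hapos : 0 < a := ENNReal.toReal_pos hg.ne' (measure_ne_top _ _)
    have hcpos : 0 < ε * (a / 2) := by positivity
    obtain ⟨i', E, h1, h2⟩ := select_cantor (f := f) (c := ε * (a / 2)) (g := g) m (by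
      intro n
      have hU : IsClopen {y : ℕ → Bool | ∃ α : ℕ → ℕ, (∀ q, α q ≤ g q) ∧ ∀ q < n, f α q = y q} :=
        sel_clopen n (fun y => ∃ α : ℕ → ℕ, (∀ q, α q ≤ g q) ∧ ∀ q (h : q < n), f α q = y ⟨q, h⟩)
      have hlt : a / 2 < (ν {y : ℕ → Bool | ∃ α : ℕ → ℕ, (∀ q, α q ≤ g q) ∧
          ∀ q < n, f α q = y q}).toReal := by
        have h1 : a ≤ (ν {y : ℕ → Bool | ∃ α : ℕ → ℕ, (∀ q, α q ≤ g q) ∧
            ∀ q < n, f α q = y q}).toReal := by
          apply ENNReal.toReal_mono (measure_ne_top _ _)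
          apply measure_mono
          rintro y ⟨α, hα, rfl⟩
          exact ⟨α, hα, fun q _ => rfl⟩
        linarith
      obtain ⟨j, hj, hnj⟩ := ((hlim _ hU _ hlt).and (sel_ge n)).exists
      refine ⟨i j, ?_⟩
      have : massIn (m (i j)) {y : ℕ → Bool | ∃ α : ℕ → ℕ, (∀ q, α q ≤ g q) ∧ ∀ q < n, f α q = y q} =
          ∑ s ∈ (m (i j)).support.filter (fun s => n < s.length ∧
            ∃ α : ℕ → ℕ, (∀ q, α q ≤ g q) ∧ ∀ q (h : q < s.length), q < n → f α q = s[q]),
            m (i j) s := by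
        unfold massIn
        apply Finset.sum_congr _ (fun _ _ => rfl)
        ext s
        simp only [Finset.mem_filter]
        refine and_congr_right (fun hs => ?_)
        have hl := hlev j s hs
        exact sel_pt2 (by omega) g
      rw [← this]
      exact hj.le)
    exact ⟨_, i', E, hcpos, h1, h2⟩

end

end Pool.Agent.WCT
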