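import Pool.Agent.WCT.AdmL
import Pool.Agent.WCT.Meas

/-!
# Selection of admissible families (module SelCases)
-/

namespace Pool.Agent.WCT

open Finset Filter Topology MeasureTheory

noncomputable section

variable {f : (ℕ → ℕ) → (ℕ → Bool)}

/-- the total mass -/
def mass (m : Node →₀ ℝ) : ℝ := ∑ s ∈ m.support, m s

open Classical in
/-- the mass of the nodes of level `> n` that extend `x|n` (`∀ q < n, s[q] = x q`) -/
def massAt (m : Node →₀ ℝ) (x : ℕ → Bool) (n : ℕ) : ℝ :=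
  ∑ s ∈ m.support.filter (fun s => n < s.length ∧ ∀ q (h : q < s.length), q < n → s[q] = x q), m s

/-- recursive choice of levels -/
private theorem selcases_rec {ι : Type} (b : ℕ → ℕ) (R : ℕ → ℕ → ι → Finset Node → Prop)
    (h : ∀ j l, ∃ i E, R j l i E) :
    ∃ (L : ℕ → ℕ) (i : ℕ → ι) (E : ℕ → Finset Node), Monotone L ∧ (∀ j, b j ≤ L j) ∧
      (∀ j, R j (L j) (i j) (E j)) ∧ ∀ j, ∀ s ∈ E j, s.length ≤ L (j + 1) := by
  choose i E hR using h
  let L : ℕ → ℕ := fun n =>
    Nat.rec (b 0) (fun j l => max (max l (b (j + 1))) ((E j l).sup List.length)) n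
  have hL : ∀ j, L (j + 1) = max (max (L j) (b (j + 1))) ((E j (L j)).sup List.length) :=
    fun j => rfl
  refine ⟨L, fun j => i j (L j), fun j => E j (L j), ?_, ?_, fun j => hR j (L j), ?_⟩
  · refine monotone_nat_of_le_succ (fun j => ?_)
    rw [hL]
    exact le_max_of_le_left (le_max_left _ _)
  · intro j
    cases j with
    | zero => exact le_rfl
    | succ j =>
      rw [hL]
      exact le_max_of_le_left (le_max_right _ _)
  · intro j s hs
    rw [hL]
    exact le_max_of_le_right (Finset.le_sup (f := List.length) hs)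

/-- points of an infinite set with pairwise disjoint cylinders -/
private theorem selcases_sep {Q : Set (ℕ → Bool)} (hQ : Q.Infinite) :
    ∃ (x : ℕ → ℕ → Bool) (nn : ℕ → ℕ), (∀ j, x j ∈ Q) ∧
      ∀ i j, i ≠ j → ∃ q < nn i, x j q ≠ x i q := by
  have : Infinite Q := hQ.to_subtype
  obtain ⟨U, hUi, hUo, hUd⟩ := exists_seq_infinite_isOpen_pairwise_disjoint Q
  choose y hy using fun n => (hUi n).nonempty
  have h1 : ∀ n, ∃ k, ∀ z ∈ Q, (∀ q < k, z q = (y n : ℕ → Bool) q) → ∃ hz, (⟨z, hz⟩ : Q) ∈ U n := by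
    intro n
    obtain ⟨V, hV, hVU⟩ := isOpen_induced_iff.1 (hUo n)
    have hyV : (y n : ℕ → Bool) ∈ V := by
      have : y n ∈ Subtype.val ⁻¹' V := by rw [hVU]; exact hy n
      exact this
    obtain ⟨W, ⟨w, k, rfl⟩, hyW, hWV⟩ :=
      (PiNat.isTopologicalBasis_cylinders (fun _ : ℕ => Bool)).exists_subset_of_mem_open hyV hV
    refine ⟨k, fun z hz hzk => ⟨hz, ?_⟩⟩
    rw [← hVU]
    apply hWV
    rw [PiNat.mem_cylinder_iff] at hyW ⊢
    intro q hq
    exact (hzk q hq).trans (hyW q hq)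
  choose nn hnn using h1
  refine ⟨fun j => y j, nn, fun j => (y j).2, fun i j hij => ?_⟩
  by_contra hcon
  push Not at hcon
  obtain ⟨hz, hmem⟩ := hnn i (y j) (y j).2 hcon
  exact Set.disjoint_left.1 (hUd hij) hmem (hy j)

/-- **Case A**: infinitely many `c`-heavy points.  Proof. Apply
`exists_seq_infinite_isOpen_pairwise_disjoint` to the (infinite, Hausdorff) subtype `Q`: pairwise disjoint open `U j` (subsets of `Q`) with points `x j ∈ U j`,
and cylinders `[x j | n j]` of the Cantor space with `[x j | n j] ∩ Q ⊆ U j`; then the cylinders are pairwise disjoint (two cylinders are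
nested or disjoint, and if one contains the other it contains the centre of the other, which is in `Q`). Choose recursively (e.g.
with `exists_seq_of_forall_finset_exists`, on triples (index `j`, `i : ι`, `E`)) increasing `j`s and `E = {s ∈ supp (m i) | n' < s.length, s extends x j | n'}` with `n' ≥ n j, n0`, and all levels of the
previous sets `< n'`, mass `≥ c` (heaviness at level `n'`). The `E`s are pairwise incomparable: use `adm_incomp`. -/
theorem select_heavy {n0 : ℕ} (h0 : ∀ b : Bool, ∃ α : ℕ → ℕ, f α 0 = b ∧ α 0 ≤ n0)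
    {ι : Type} (m : ι → Node →₀ ℝ) {c : ℝ} {Q : Set (ℕ → Bool)} (hQ : Q.Infinite)
    (hh : ∀ x ∈ Q, ∀ n, ∃ i, c ≤ massAt (m i) x n) :
    ∃ (i : ℕ → ι) (E : ℕ → Finset Node), (∀ k, Adm f E k) ∧ ∀ j, c ≤ ∑ s ∈ E j, m (i j) s := by
  classical
  obtain ⟨x, nn, hx, hsep⟩ := selcases_sep hQ
  obtain ⟨L, i, E, hL, hb, hR, hE⟩ := selcases_rec (ι := ι) (fun j => max n0 (nn j))
    (fun j l i E => (∀ s ∈ E, l < s.length ∧ ∀ q (h : q < s.length), q < l → s[q] = x j q) ∧
      c ≤ ∑ s ∈ E, m i s) (by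
      intro j l
      obtain ⟨i, hi⟩ := hh (x j) (hx j) l
      exact ⟨i, _, fun s hs => (Finset.mem_filter.1 hs).2, hi⟩)
  refine ⟨i, E, ?_, fun j => (hR j).2⟩
  refine adm_incomp h0 ?_ ?_ ?_
  · intro a b hab s hs t ht
    exact lt_of_le_of_lt ((hE a s hs).trans (hL (Nat.succ_le_of_lt hab))) ((hR b).1 t ht).1
  · intro a s hs
    exact ((le_max_left _ _).trans (hb a)).trans ((hR a).1 s hs).1.le
  · intro a b hab s hs t ht hst
    obtain ⟨q, hq, hne⟩ := hsep a b hab.ne
    apply hne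
    have hqa : q < L a := lt_of_lt_of_le hq ((le_max_right _ _).trans (hb a))
    have hqs : q < s.length := hqa.trans ((hR a).1 s hs).1
    have hqb : q < L b := lt_of_lt_of_le hqa (hL hab.le)
    have hqt : q < t.length := hqb.trans ((hR b).1 t ht).1
    rw [← ((hR a).1 s hs).2 q hqs hqa, ← ((hR b).1 t ht).2 q hqt hqb]
    exact (hst.getElem hqs).symm

/-- **Case B1**: an atom approached from outside its branch.  Proof. Choose recursively `l_j` larger than `n0` and all levels of the previous sets, an `i` with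
`c ≤ massAt (m i) x l_j`, `E_j = {s ∈ supp (m i) | l_j < s.length, s extends x | l_j}`. A node `s ∈ E_i` cannot be a prefix of
`t ∈ E_j` (`i < j`): `t` extends `x | l_j` and `s.length < l_j`, so `s` would be on `x`, excluded by `hoff`. Use `adm_incomp`. -/
theorem select_atom {n0 : ℕ} (h0 : ∀ b : Bool, ∃ α : ℕ → ℕ, f α 0 = b ∧ α 0 ≤ n0)
    {ι : Type} (m : ι → Node →₀ ℝ) {c : ℝ} {x : ℕ → Bool}
    (hh : ∀ n, ∃ i, (∀ s ∈ (m i).support, ¬ On x s) ∧ c ≤ massAt (m i) x n) :
    ∃ (i : ℕ → ι) (E : ℕ → Finset Node), (∀ k, Adm f E k) ∧ ∀ j, c ≤ ∑ s ∈ E j, m (i j) s := by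
  classical
  obtain ⟨L, i, E, hL, hb, hR, hE⟩ := selcases_rec (ι := ι) (fun _ => n0)
    (fun _ l i E => (∀ s ∈ E, ¬ On x s ∧ l < s.length ∧
      ∀ q (h : q < s.length), q < l → s[q] = x q) ∧ c ≤ ∑ s ∈ E, m i s) (by
      intro j l
      obtain ⟨i, hi, hc⟩ := hh l
      exact ⟨i, _, fun s hs => ⟨hi s (Finset.mem_filter.1 hs).1, (Finset.mem_filter.1 hs).2⟩, hc⟩)
  refine ⟨i, E, ?_, fun j => (hR j).2⟩
  refine adm_incomp h0 ?_ ?_ ?_
  · intro a b hab s hs t ht
    exact lt_of_le_of_lt ((hE a s hs).trans (hL (Nat.succ_le_of_lt hab))) ((hR b).1 t ht).2.1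
  · intro a s hs
    exact (hb a).trans ((hR a).1 s hs).2.1.le
  · intro a b hab s hs t ht hst
    apply ((hR a).1 s hs).1
    intro q hqs
    have hqb : q < L b := lt_of_lt_of_le hqs ((hE a s hs).trans (hL (Nat.succ_le_of_lt hab)))
    have hqt : q < t.length := hqb.trans ((hR b).1 t ht).2.1
    rw [← ((hR b).1 t ht).2.2 q hqt hqb]
    exact hst.getElem hqs

open Classical in
/-- **Case B2**: mass near a compact set `f '' {α ≤ g}`.  Proof. Choose recursively `i_j` with the hypothesis for `n_j ≥ j + 1`, `g q` (`q ≤ j`) and all levels of the previous sets,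
`E_j` = the set of the filter, and use `adm_cantor`. -/
theorem select_cantor {ι : Type} (m : ι → Node →₀ ℝ) {c : ℝ} {g : ℕ → ℕ}
    (hh : ∀ n, ∃ i, c ≤ ∑ s ∈ (m i).support.filter (fun s => n < s.length ∧
      ∃ α : ℕ → ℕ, (∀ q, α q ≤ g q) ∧ ∀ q (h : q < s.length), q < n → f α q = s[q]), m i s) :
    ∃ (i : ℕ → ι) (E : ℕ → Finset Node), (∀ k, Adm f E k) ∧ ∀ j, c ≤ ∑ s ∈ E j, m (i j) s := by
  obtain ⟨L, i, E, hL, hb, hR, hE⟩ := selcases_rec (ι := ι)
    (fun j => max (j + 1) ((range (j + 1)).sup g))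
    (fun _ l i E => (∀ s ∈ E, l < s.length ∧
      ∃ α : ℕ → ℕ, (∀ q, α q ≤ g q) ∧ ∀ q (h : q < s.length), q < l → f α q = s[q]) ∧
      c ≤ ∑ s ∈ E, m i s) (by
      intro j l
      obtain ⟨i, hc⟩ := hh l
      exact ⟨i, _, fun s hs => (Finset.mem_filter.1 hs).2, hc⟩)
  refine ⟨i, E, ?_, fun j => (hR j).2⟩
  have hjL : ∀ j, j + 1 ≤ L j := fun j => (le_max_left _ _).trans (hb j)
  refine adm_cantor (g := g) ?_ ?_ ?_ ?_
  · intro a b hab s hs t ht
    exact lt_of_le_of_lt ((hE a s hs).trans (hL (Nat.succ_le_of_lt hab))) ((hR b).1 t ht).1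
  · intro j s hs q hq
    have h1 : g q ≤ (range (j + 1)).sup g :=
      Finset.le_sup (f := g) (Finset.mem_range.2 (Nat.lt_succ_of_le hq))
    exact ((h1.trans (le_max_right _ _)).trans (hb j)).trans ((hR j).1 s hs).1.le
  · intro j s hs
    exact lt_of_lt_of_le (Nat.lt_succ_self j) ((hjL j).trans ((hR j).1 s hs).1.le)
  · intro j s hs
    obtain ⟨α, h1, h2⟩ := ((hR j).1 s hs).2
    exact ⟨α, h1, fun q hq hqj => h2 q hq (lt_of_lt_of_le (Nat.lt_succ_of_le hqj) (hjL j))⟩

end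

end Pool.Agent.WCT
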