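import Pool.Agent.WCT.ShrinkKey

/-!
# The basis is shrinking on the branches of points outside the range of `f` (module Shrink)
-/

namespace Pool.Agent.WCT

open Finset Filter Topology

noncomputable section

variable {f : (ℕ → ℕ) → (ℕ → Bool)}

/-- the sets `V n` -/
private def shrink_V (x : ℕ → Bool) (ψ : X f →L[ℝ] ℝ) (ε : ℝ) (n : ℕ) : Set (X f) :=
  {v : X f | (∃ N : ℕ, ∀ s, co v s ≠ 0 → On x s ∧ n < s.length ∧ s.length ≤ N) ∧ ε / 2 ≤ ψ v}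

private theorem shrink_V_anti {x : ℕ → Bool} {ψ : X f →L[ℝ] ℝ} {ε : ℝ} {m n : ℕ} (h : m ≤ n) :
    shrink_V x ψ ε n ⊆ shrink_V x ψ ε m := by
  rintro v ⟨⟨N, hN⟩, hv⟩
  refine ⟨⟨N, fun s hs => ?_⟩, hv⟩
  obtain ⟨h1, h2, h3⟩ := hN s hs
  exact ⟨h1, lt_of_le_of_lt h h2, h3⟩

/-- cut at a high level -/
private theorem shrink_exists {x : ℕ → Bool} {ψ : X f →L[ℝ] ℝ} {ε : ℝ} (hε : 0 < ε) {n : ℕ}
    {v : X f} (hv : ‖v‖ ≤ 1) (hs : ∀ s, co v s ≠ 0 → On x s ∧ n < s.length) (hψ : ε < ψ v) :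
    ∃ w ∈ shrink_V x ψ ε n, ‖w‖ ≤ 1 := by
  have h1 : Tendsto (fun N => ψ (PS (Lv N) v)) atTop (𝓝 (ψ v)) :=
    (ψ.continuous.tendsto v).comp (PS_Lv_tendsto v)
  have h2 : ∀ᶠ N in atTop, ε / 2 < ψ (PS (Lv N) v) :=
    h1.eventually_const_lt (by linarith)
  obtain ⟨N, hN⟩ := h2.exists
  refine ⟨PS (Lv N) v, ⟨⟨N, fun s hs' => ?_⟩, hN.le⟩, (norm_PS_le _ _).trans hv⟩
  by_cases h3 : s ∈ Lv N
  · rw [co_PS_mem h3] at hs'
    obtain ⟨h4, h5⟩ := hs s hs'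
    exact ⟨h4, h5, h3⟩
  · exact absurd (co_PS_not_mem h3 v) hs'

/-- **Shrinking.**  Proof. By contradiction (replace `ψ` by `-ψ` on half of the `v`'s by using `-v`): let
`V n = {v : X f | (∃ N, ∀ s, co v s ≠ 0 → On x s ∧ n < s.length ∧ s.length ≤ N) ∧ ε / 2 ≤ ψ v}`, a convex set, decreasing in `n`,
containing for every `n` an element of norm `≤ 1` (cut the given `v` at a high level with `PS (Lv N)`, `PS_Lv_tendsto`). `c n = inf of the norms of V n`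
(`sInf`) satisfies `0 < ε / (2 (‖ψ‖ + 1)) ≤ c n ≤ 1` and is increasing; let `c = sup c n`. Choose `n` with `c n > (7/8) c` and so large that `α 0 ≤ n` for some
`α` with `f α 0 = x 0`. Choose recursively `N 0 = n` and `u l ∈ V (N l)` with `‖u l‖ < (9/8) c`, supported on levels
in `(N l, N (l+1)]`. By `ptak` (with `δ = 1/8`, `μ l = N (l+1)`) and `key_estimate`, `v = ∑ a_l u_l` satisfies
`‖v‖ ≤ (5/8) (9/8) c < (7/8) c < c n`, but `v ∈ V n`. -/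
theorem shrink (hf : Continuous f) (hd : ∀ (x : ℕ → Bool) (k : ℕ), ∃ α, ∀ q < k, f α q = x q)
    {x : ℕ → Bool} (hx : x ∉ Set.range f) (ψ : X f →L[ℝ] ℝ) {ε : ℝ} (hε : 0 < ε) :
    ∃ n : ℕ, ∀ v : X f, ‖v‖ ≤ 1 → (∀ s, co v s ≠ 0 → On x s ∧ n < s.length) → |ψ v| ≤ ε := by
  by_contra hcon
  push Not at hcon
  -- elements of norm at most one
  have hne : ∀ n, ∃ w ∈ shrink_V x ψ ε n, ‖w‖ ≤ 1 := by
    intro n
    obtain ⟨v, hv, hs, hψ⟩ := hcon n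
    rcases lt_abs.1 hψ with h1 | h1
    · exact shrink_exists hε hv hs h1
    · refine shrink_exists (v := -v) hε (by rwa [norm_neg]) (fun s hs' => hs s ?_) (by
        rwa [map_neg])
      intro h0
      apply hs'
      have h2 : co (-v) s = -co v s := by
        have := co_smul (-1) v s
        simpa using this
      rw [h2, h0, neg_zero]
  -- the infima of the norms
  obtain ⟨c, hc⟩ : ∃ c : ℕ → ℝ, ∀ n, c n = sInf (norm '' shrink_V x ψ ε n) := ⟨_, fun _ => rfl⟩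
  have hbdd : ∀ n, BddBelow (norm '' shrink_V x ψ ε n) := fun n =>
    ⟨0, by rintro _ ⟨v, _, rfl⟩; exact norm_nonneg v⟩
  have hnon : ∀ n, (norm '' shrink_V x ψ ε n).Nonempty := fun n => by
    obtain ⟨w, hw, _⟩ := hne n
    exact ⟨_, w, hw, rfl⟩
  have hcle : ∀ n, ∀ v ∈ shrink_V x ψ ε n, c n ≤ ‖v‖ := fun n v hv => by
    rw [hc]
    exact csInf_le (hbdd n) ⟨v, hv, rfl⟩
  have hc1 : ∀ n, c n ≤ 1 := fun n => by
    obtain ⟨w, hw, hw1⟩ := hne n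
    exact (hcle n w hw).trans hw1
  obtain ⟨b, hb⟩ : ∃ b : ℝ, b = ε / (2 * (‖ψ‖ + 1)) := ⟨_, rfl⟩
  have hψ0 : 0 ≤ ‖ψ‖ := norm_nonneg ψ
  have hb0 : 0 < b := by rw [hb]; positivity
  have hcb : ∀ n, b ≤ c n := fun n => by
    rw [hc]
    refine le_csInf (hnon n) ?_
    rintro _ ⟨v, ⟨_, hv⟩, rfl⟩
    have h1 : ψ v ≤ ‖ψ‖ * ‖v‖ := (le_abs_self _).trans (ψ.le_opNorm v)
    have h2 : 0 ≤ ‖v‖ := norm_nonneg v
    rw [hb, div_le_iff₀ (by positivity)]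
    nlinarith
  have hcmono : Monotone c := by
    intro m n hmn
    rw [hc m, hc n]
    exact csInf_le_csInf (hbdd m) (hnon n) (Set.image_mono (shrink_V_anti hmn))
  have hcbdd : BddAbove (Set.range c) := ⟨1, by rintro _ ⟨n, rfl⟩; exact hc1 n⟩
  obtain ⟨C, hC⟩ : ∃ C : ℝ, C = ⨆ n, c n := ⟨_, rfl⟩
  have hCle : ∀ n, c n ≤ C := fun n => by rw [hC]; exact le_ciSup hcbdd n
  have hC0 : 0 < C := lt_of_lt_of_le hb0 ((hcb 0).trans (hCle 0))
  -- the choice of `n`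
  obtain ⟨α, hα⟩ := hd x 1
  obtain ⟨n0, hn0⟩ : ∃ n0, 7 / 8 * C < c n0 := by
    have h1 : 7 / 8 * C < ⨆ n, c n := by rw [← hC]; linarith
    exact exists_lt_of_lt_ciSup h1
  obtain ⟨n, hn⟩ : ∃ n, n = max n0 (α 0) := ⟨_, rfl⟩
  have hn1 : 7 / 8 * C < c n := lt_of_lt_of_le hn0 (hcmono (by rw [hn]; exact le_max_left _ _))
  have hn2 : α 0 ≤ n := by rw [hn]; exact le_max_right _ _
  -- the choice of the vectors
  have hU : ∀ m, ∃ u ∈ shrink_V x ψ ε m, ‖u‖ < 9 / 8 * C := by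
    intro m
    have h1 : sInf (norm '' shrink_V x ψ ε m) < 9 / 8 * C := by
      rw [← hc]
      have := hCle m
      linarith
    obtain ⟨_, ⟨u, hu, rfl⟩, h2⟩ := exists_lt_of_csInf_lt (hnon m) h1
    exact ⟨u, hu, h2⟩
  choose U hUV hUn using hU
  have hM : ∀ m, ∃ M : ℕ, ∀ s, co (U m) s ≠ 0 → On x s ∧ m < s.length ∧ s.length ≤ M :=
    fun m => (hUV m).1
  choose M hM using hM
  obtain ⟨N, hN0, hNs⟩ : ∃ N : ℕ → ℕ, N 0 = n ∧ ∀ l, N (l + 1) = max (M (N l)) (N l + 1) :=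
    ⟨fun l => Nat.rec n (fun _ m => max (M m) (m + 1)) l, rfl, fun _ => rfl⟩
  have hNlt : ∀ l, N l < N (l + 1) := fun l => by
    rw [hNs]
    exact lt_of_lt_of_le (Nat.lt_succ_self _) (le_max_right _ _)
  have hNm : StrictMono N := strictMono_nat_of_lt_succ hNlt
  have hsupp : ∀ l, ∀ s, co (U (N l)) s ≠ 0 → On x s ∧ N l < s.length ∧ s.length ≤ N (l + 1) := by
    intro l s hs
    obtain ⟨h1, h2, h3⟩ := hM (N l) s hs
    refine ⟨h1, h2, h3.trans ?_⟩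
    rw [hNs]
    exact le_max_left _ _
  have hnN : ∀ l, n ≤ N l := fun l => by
    rw [← hN0]
    exact hNm.monotone (Nat.zero_le l)
  obtain ⟨L, a, ha, hsum, hG⟩ := ptak hf hx (fun l => N (l + 1)) (δ := 1 / 8) (by norm_num)
  have hkey := key_estimate (x := x) hNm
    ⟨α, hα 0 (by norm_num), fun l => hn2.trans (hnN (l + 1))⟩
    (L := L) (u := fun l => U (N l)) (C := 9 / 8 * C) (fun l _ => (hUn (N l)).le)
    (fun l _ => hsupp l) ha hsum (δ := 1 / 8) (by norm_num) hG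
  have hv : (∑ l ∈ range L, a l • U (N l)) ∈ shrink_V x ψ ε n := by
    refine ⟨⟨N L, fun s hs => ?_⟩, ?_⟩
    · rw [co_sum] at hs
      obtain ⟨l, hl, hl'⟩ := Finset.exists_ne_zero_of_sum_ne_zero hs
      rw [co_smul] at hl'
      obtain ⟨h1, h2, h3⟩ := hsupp l s (right_ne_zero_of_mul hl')
      rw [mem_range] at hl
      exact ⟨h1, lt_of_le_of_lt (hnN l) h2, h3.trans (hNm.monotone hl)⟩
    · rw [map_sum]
      have h1 : ∀ l ∈ range L, a l * (ε / 2) ≤ ψ (a l • U (N l)) := by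
        intro l _
        rw [map_smul, smul_eq_mul]
        exact mul_le_mul_of_nonneg_left (hUV (N l)).2 (ha l)
      calc ε / 2 = ∑ l ∈ range L, a l * (ε / 2) := by rw [← Finset.sum_mul, hsum, one_mul]
        _ ≤ _ := Finset.sum_le_sum h1
  have h1 := hcle n _ hv
  have h2 : (1 / 8 + 1 / 2 : ℝ) * (9 / 8 * C) < 7 / 8 * C := by linarith
  have h3 : ‖∑ l ∈ range L, a l • U (N l)‖ ≤ (1 / 8 + 1 / 2) * (9 / 8 * C) := hkey
  linarith

end

end Pool.Agent.WCT
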