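import Pool.Agent.WCT.Ptak

/-!
# Key estimate (module ShrinkKey)
-/

namespace Pool.Agent.WCT

open Finset Filter Topology

noncomputable section

variable {f : (ℕ → ℕ) → (ℕ → Bool)}

/-- the functional `φ` has a node of the branch in the `l`-th block of levels in its support -/
private def shrinkkey_See (x : ℕ → Bool) (N : ℕ → ℕ) (φ : Node →₀ ℝ) (l : ℕ) : Prop :=
  ∃ s ∈ φ.support, On x s ∧ N l < s.length ∧ s.length ≤ N (l + 1)

private theorem shrinkkey_see {x : ℕ → Bool} {N : ℕ → ℕ} {u : X f} {l : ℕ}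
    (hu : ∀ s, co u s ≠ 0 → On x s ∧ N l < s.length ∧ s.length ≤ N (l + 1)) {φ : Node →₀ ℝ}
    (h : ev φ u ≠ 0) : shrinkkey_See x N φ l := by
  rw [ev_apply] at h
  obtain ⟨s, hs, hne⟩ := Finset.exists_ne_zero_of_sum_ne_zero h
  exact ⟨s, hs, hu s (right_ne_zero_of_mul hne)⟩

private theorem shrinkkey_good {x : ℕ → Bool} {N : ℕ → ℕ} (hN : StrictMono N) {k : ℕ}
    {φ : ℕ → Node →₀ ℝ} (ha : Adm f (fun i => (φ i).support) k) (G : Finset ℕ)
    (hG : ∀ l ∈ G, ∃ i i', i < i' ∧ i' < k ∧ shrinkkey_See x N (φ i) l ∧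
      shrinkkey_See x N (φ i') l) : GoodIdx f x (fun l => N (l + 1)) G := by
  classical
  choose! i i' hi using hG
  have hmono : ∀ l ∈ G, ∀ l' ∈ G, l < l' → i' l < i' l' := by
    intro l hl l' hl' hll
    have h1 := hi l hl
    have h2 := hi l' hl'
    refine lt_of_le_of_lt ?_ h2.1
    by_contra hcon
    push Not at hcon
    obtain ⟨s, hs, -, hs1, -⟩ := h2.2.2.1
    obtain ⟨t, ht, -, -, ht2⟩ := h1.2.2.2
    have h3 := ha.1 (i l') (i' l) hcon h1.2.1 s hs t ht
    have h4 : N (l + 1) ≤ N l' := hN.monotone hll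
    omega
  have hinj : ∀ l ∈ G, ∀ l' ∈ G, i' l = i' l' → l = l' := by
    intro l hl l' hl' he
    rcases lt_trichotomy l l' with h | h | h
    · have := hmono l hl l' hl' h; omega
    · exact h
    · have := hmono l' hl' l hl h; omega
  have hmeet : ∀ l ∈ G, Meets x ((φ (i' l)).support) := by
    intro l hl
    obtain ⟨s, hs, hon, -, -⟩ := (hi l hl).2.2.2
    exact ⟨s, hs, hon⟩
  obtain ⟨α, hα1, hα2⟩ := ha.2 x
  refine ⟨α, ?_, ?_⟩
  · intro q hq
    refine hα1 q (lt_of_lt_of_le hq ?_)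
    unfold cnt
    refine Finset.card_le_card_of_injOn i' ?_ ?_
    · intro l hl
      have hl' : l ∈ G := hl
      simp only [coe_filter, mem_range, Set.mem_ofPred_eq]
      exact ⟨(hi l hl').2.1, hmeet l hl'⟩
    · intro l hl l' hl' he
      exact hinj l hl l' hl' he
  · intro l hl q hq
    obtain ⟨s, hs, -, -, hs2⟩ := (hi l hl).2.2.2
    refine le_trans (hα2 (i' l) (hi l hl).2.1 (hmeet l hl) q (hq.trans ?_) s hs) hs2
    unfold cnt
    refine Finset.card_le_card_of_injOn i' ?_ ?_
    · intro l' hl'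
      simp only [coe_filter, Set.mem_ofPred_eq] at hl'
      simp only [coe_filter, mem_range, Set.mem_ofPred_eq]
      exact ⟨hmono l' hl'.1 l hl hl'.2, hmeet l' hl'.1⟩
    · intro l1 hl1 l2 hl2 he
      simp only [coe_filter, Set.mem_ofPred_eq] at hl1 hl2
      exact hinj l1 hl1.1 l2 hl2.1 he

private theorem shrinkkey_one {x : ℕ → Bool} {N : ℕ → ℕ} {u : X f} {l k : ℕ}
    (hu : ∀ s, co u s ≠ 0 → On x s ∧ N l < s.length ∧ s.length ≤ N (l + 1))
    {φ : ℕ → Node →₀ ℝ} (hφ : ∀ i < k, Nrm f (φ i))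
    (hl : ¬ ∃ i i', i < i' ∧ i' < k ∧ shrinkkey_See x N (φ i) l ∧ shrinkkey_See x N (φ i') l) :
    |∑ i ∈ range k, ev (φ i) u| ≤ ‖u‖ := by
  by_cases hex : ∃ j ∈ range k, ev (φ j) u ≠ 0
  · obtain ⟨j, hj, hne⟩ := hex
    have h1 : ∑ i ∈ range k, ev (φ i) u = ev (φ j) u := by
      refine Finset.sum_eq_single_of_mem j hj ?_
      intro i hi hij
      by_contra hne'
      have s1 := shrinkkey_see hu hne
      have s2 := shrinkkey_see hu hne'
      rw [mem_range] at hi hj
      rcases lt_or_gt_of_ne hij with h | h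
      · exact hl ⟨i, j, h, hj, s2, s1⟩
      · exact hl ⟨j, i, h, hi, s1, s2⟩
    rw [h1]
    exact ev_le (hφ j (mem_range.mp hj)) u
  · push Not at hex
    rw [Finset.sum_eq_zero hex, abs_zero]
    exact norm_nonneg _

/-- **Key estimate.**  `u l` (`l < L`) are supported on the branch of `x` between the levels `N l` and `N (l + 1)`, have norm `≤ C`,
and the convex weights `a` give mass `≤ δ` to every good set (for `μ l = N (l + 1)`). Then `‖∑ a_l u_l‖ ≤ (δ + 1/2) C`.

Proof. `norm_le`: let `φ ∈ N` (`cases` on `Nrm f φ`).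
* `φ = single s c`: at most one `l` has `co (u l) s ≠ 0` (levels), and then `{l}` is good by `h1`
  (`GoodIdx` for a singleton: `f α 0 = x 0`, `α 0 ≤ N (l+1)`), so `|φ| ≤ a_l C ≤ δ C`.
* `φ = (1/2) ∑_{i<k} φ_i`, `E i = (φ i).support`. Let `G` be the set of the `l < L` such that there are `i < i' < k` such that both `E i`
  and `E i'` contain a node on `x` of level in `(N l, N (l+1)]`. For `l ∈ G` use `|ev φ (u l)| ≤ ‖u l‖ ≤ C` (`ev_le`), for `l ∉ G` at most one `i` has
  `ev (φ i) (u l) ≠ 0`, so `|ev φ (u l)| ≤ (1/2) C`. `G` is good: let `α` be the witness of `Adm f E k` for `x`; for `l ∈ G` let `i' l` be a second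
  index (larger one); by the level condition of `Adm`, `i' l ≤ i l' < i' l'` for `l < l'` in `G`; so `i'` is strictly increasing on `G`, the `E (i' l)` meet `x`,
  `#G ≤ cnt E x k`, `#{l' ∈ G, l' < l} ≤ cnt E x (i' l)`, and `α q ≤ s.length ≤ N (l+1)` for a node `s ∈ E (i' l)`
  on `x` of level in `(N l, N (l+1)]`. -/
theorem key_estimate {x : ℕ → Bool} {N : ℕ → ℕ} (hN : StrictMono N)
    (h1 : ∃ α : ℕ → ℕ, f α 0 = x 0 ∧ ∀ l, α 0 ≤ N (l + 1))
    {L : ℕ} {u : ℕ → X f} {C : ℝ} (hC : ∀ l < L, ‖u l‖ ≤ C)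
    (hu : ∀ l < L, ∀ s, co (u l) s ≠ 0 → On x s ∧ N l < s.length ∧ s.length ≤ N (l + 1))
    {a : ℕ → ℝ} (ha : ∀ l, 0 ≤ a l) (hsum : ∑ l ∈ range L, a l = 1) {δ : ℝ} (hδ : 0 ≤ δ)
    (hG : ∀ G ⊆ range L, GoodIdx f x (fun l => N (l + 1)) G → ∑ l ∈ G, a l ≤ δ) :
    ‖∑ l ∈ range L, a l • u l‖ ≤ (δ + 1 / 2) * C := by
  classical
  have hL : 0 < L := by
    rcases Nat.eq_zero_or_pos L with rfl | h
    · simp at hsum
    · exact h
  have hC0 : 0 ≤ C := (norm_nonneg _).trans (hC 0 hL)
  have hev : ∀ φ : Node →₀ ℝ, |ev φ (∑ l ∈ range L, a l • u l)| ≤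
      ∑ l ∈ range L, a l * |ev φ (u l)| := by
    intro φ
    rw [map_sum]
    refine (Finset.abs_sum_le_sum_abs _ _).trans (Finset.sum_le_sum fun l _ => ?_)
    rw [map_smul, smul_eq_mul, abs_mul, abs_of_nonneg (ha l)]
  refine norm_le (by positivity) ?_
  intro φ hφ
  refine (hev φ).trans ?_
  cases hφ with
  | single s c hc =>
    have hle : ∀ l ∈ range L, a l * |ev (Finsupp.single s c) (u l)| ≤ a l * |co (u l) s| := by
      intro l _
      rw [ev_single, abs_mul]
      refine mul_le_mul_of_nonneg_left ?_ (ha l)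
      calc |c| * |co (u l) s| ≤ 1 * |co (u l) s| :=
            mul_le_mul_of_nonneg_right hc (abs_nonneg _)
        _ = _ := one_mul _
    refine (Finset.sum_le_sum hle).trans ?_
    by_cases hex : ∃ l ∈ range L, co (u l) s ≠ 0
    · obtain ⟨l, hl, hne⟩ := hex
      have h2 : ∑ l ∈ range L, a l * |co (u l) s| = a l * |co (u l) s| := by
        refine Finset.sum_eq_single_of_mem l hl ?_
        intro j hj hjl
        by_cases h0 : co (u j) s = 0
        · rw [h0, abs_zero, mul_zero]
        · exfalso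
          rw [mem_range] at hl hj
          have e1 := hu l hl s hne
          have e2 := hu j hj s h0
          rcases lt_or_gt_of_ne hjl with h | h
          · have h4 : N (j + 1) ≤ N l := hN.monotone h
            omega
          · have h4 : N (l + 1) ≤ N j := hN.monotone h
            omega
      rw [h2]
      obtain ⟨α, hα0, hα1⟩ := h1
      have hgood : GoodIdx f x (fun l => N (l + 1)) {l} := by
        refine ⟨α, ?_, ?_⟩
        · intro q hq
          rw [card_singleton] at hq
          have : q = 0 := by omega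
          rw [this]; exact hα0
        · intro l' hl' q hq
          rw [mem_singleton] at hl'
          subst hl'
          have : (({l'} : Finset ℕ).filter fun l'' => l'' < l').card = 0 := by
            rw [card_eq_zero, filter_eq_empty_iff]
            intro b hb
            rw [mem_singleton] at hb
            omega
          rw [this] at hq
          have : q = 0 := by omega
          rw [this]; exact hα1 l'
      have hal := hG {l} (singleton_subset_iff.mpr hl) hgood
      rw [sum_singleton] at hal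
      have h5 : |co (u l) s| ≤ C := (abs_co_le _ _).trans (hC l (mem_range.mp hl))
      calc a l * |co (u l) s| ≤ δ * C := mul_le_mul hal h5 (abs_nonneg _) hδ
        _ ≤ (δ + 1 / 2) * C := mul_le_mul_of_nonneg_right (by linarith) hC0
    · push Not at hex
      rw [Finset.sum_eq_zero (fun l hl => by rw [hex l hl, abs_zero, mul_zero])]
      positivity
  | comb k φ h hadm =>
    set G : Finset ℕ := (range L).filter (fun l => ∃ i i', i < i' ∧ i' < k ∧
      shrinkkey_See x N (φ i) l ∧ shrinkkey_See x N (φ i') l) with hGdef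
    have hGsub : G ⊆ range L := filter_subset _ _
    have hgood : GoodIdx f x (fun l => N (l + 1)) G :=
      shrinkkey_good hN hadm G (fun l hl => (mem_filter.mp hl).2)
    have hmass := hG G hGsub hgood
    have hN' : Nrm f ((1 / 2 : ℝ) • ∑ i ∈ range k, φ i) := Nrm.comb k φ h hadm
    have hb1 : ∀ l ∈ G, a l * |ev ((1 / 2 : ℝ) • ∑ i ∈ range k, φ i) (u l)| ≤ a l * C := by
      intro l hl
      exact mul_le_mul_of_nonneg_left
        ((ev_le hN' _).trans (hC l (mem_range.mp (hGsub hl)))) (ha l)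
    have hb2 : ∀ l ∈ range L \ G, a l * |ev ((1 / 2 : ℝ) • ∑ i ∈ range k, φ i) (u l)| ≤
        a l * (1 / 2 * C) := by
      intro l hl
      rw [Finset.mem_sdiff] at hl
      refine mul_le_mul_of_nonneg_left ?_ (ha l)
      rw [ev_smul, ev_finset_sum, abs_mul, abs_of_pos (by norm_num : (0 : ℝ) < 1 / 2)]
      refine mul_le_mul_of_nonneg_left ?_ (by norm_num)
      refine (shrinkkey_one (hu l (mem_range.mp hl.1)) h ?_).trans (hC l (mem_range.mp hl.1))
      intro hcon
      exact hl.2 (mem_filter.mpr ⟨hl.1, hcon⟩)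
    have hsplit : ∑ l ∈ range L, a l * |ev ((1 / 2 : ℝ) • ∑ i ∈ range k, φ i) (u l)| ≤
        (∑ l ∈ range L \ G, a l) * (1 / 2 * C) + (∑ l ∈ G, a l) * C := by
      rw [← Finset.sum_sdiff hGsub, Finset.sum_mul, Finset.sum_mul]
      exact add_le_add (Finset.sum_le_sum hb2) (Finset.sum_le_sum hb1)
    refine hsplit.trans ?_
    have h6 : ∑ l ∈ range L \ G, a l ≤ 1 := by
      rw [← hsum]
      exact Finset.sum_le_sum_of_subset_of_nonneg Finset.sdiff_subset (fun l _ _ => ha l)
    have h7 : (∑ l ∈ range L \ G, a l) * (1 / 2 * C) ≤ 1 * (1 / 2 * C) :=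
      mul_le_mul_of_nonneg_right h6 (by positivity)
    have h8 : (∑ l ∈ G, a l) * C ≤ δ * C := mul_le_mul_of_nonneg_right hmass hC0
    linarith

end

end Pool.Agent.WCT
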