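import Mathlib

/-!
# Tukey reductions of asymptotic structures (definitions)
-/

namespace Pool.Agent.WCT

/-- Tukey reduction `P ⪯ Q` between sets with relations `rP t`, `rQ t` (`t > 0`): maps `F ε : P → Q` such that
for every `ε > 0` there is `δ > 0` such that for every `q₀` there is `p₀` with `p ≤_ε p₀` whenever
`F ε p ≤_δ q₀`. -/
def TLe {P Q : Type*} (rP : ℝ → P → P → Prop) (rQ : ℝ → Q → Q → Prop) : Prop :=
  ∃ F : ℝ → P → Q, ∀ ε > 0, ∃ δ > 0, ∀ q₀ : Q, ∃ p₀ : P, ∀ p : P, rQ δ (F ε p) q₀ → rP ε p p₀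

/-- Tukey equivalence -/
def TEq {P Q : Type*} (rP : ℝ → P → P → Prop) (rQ : ℝ → Q → Q → Prop) : Prop :=
  TLe rP rQ ∧ TLe rQ rP

/-- a partially ordered set as an asymptotic structure -/
def po (Q : Type*) [LE Q] : ℝ → Q → Q → Prop := fun _ a b => a ≤ b

/-- the weakly compact subsets of the closed unit ball -/
def AK (Y : Type*) [NormedAddCommGroup Y] [NormedSpace ℝ Y] : Type _ :=
  {W : Set Y // W ⊆ Metric.closedBall 0 1 ∧ IsCompact (toWeakSpace ℝ Y '' W)}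

/-- `K ≤_ε L` iff `K ⊆ L + ε B_Y` -/
def AKr (Y : Type*) [NormedAddCommGroup Y] [NormedSpace ℝ Y] : ℝ → AK Y → AK Y → Prop :=
  fun ε K L => ∀ x ∈ K.1, ∃ y ∈ L.1, ‖x - y‖ ≤ ε

/-- `Y` is a separable Banach space that is not reflexive (`Y → Y**` is not surjective) -/
def SepNonRefl (Y : Type) [NormedAddCommGroup Y] [NormedSpace ℝ Y] : Prop :=
  CompleteSpace Y ∧ TopologicalSpace.SeparableSpace Y ∧
    ¬ Function.Surjective (NormedSpace.inclusionInDoubleDual ℝ Y)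

/-- `AK(B_Y)` is Tukey equivalent to `ω`, `ω^ω`, `K(ℚ)` or `[𝔠]^{<ω}` -/
def InList (Y : Type) [NormedAddCommGroup Y] [NormedSpace ℝ Y] : Prop :=
  TEq (AKr Y) (po ℕ) ∨ TEq (AKr Y) (po (ℕ → ℕ)) ∨
    TEq (AKr Y) (po (TopologicalSpace.Compacts ℚ)) ∨ TEq (AKr Y) (po (Finset ℝ))

end Pool.Agent.WCT
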