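import Pool.Agent.WCT.WComp
import Pool.Agent.WCT.ClaimB
import Pool.Agent.WCT.TDefs

/-!
# The Tukey type of the space `X f` (module Tukey)
-/

namespace Pool.Agent.WCT

open Finset Filter Topology

noncomputable section

variable {f : (ℕ → ℕ) → (ℕ → Bool)}

/-- the initial segment of length `n` -/
def tk_seg (x : ℕ → Bool) (n : ℕ) : Node := List.ofFn (fun i : Fin n => x i)

theorem tk_seg_length (x : ℕ → Bool) (n : ℕ) : (tk_seg x n).length = n := by
  simp [tk_seg]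

theorem tk_seg_get (x : ℕ → Bool) (n : ℕ) (i : ℕ) (h : i < (tk_seg x n).length) :
    (tk_seg x n)[i] = x i := by
  simp [tk_seg]

theorem tk_seg_on (x : ℕ → Bool) (n : ℕ) : On x (tk_seg x n) := fun i h => tk_seg_get x n i h

theorem tk_on_seg {x y : ℕ → Bool} {n : ℕ} (h : On y (tk_seg x n)) (i : ℕ) (hi : i < n) :
    y i = x i := by
  have h1 : i < (tk_seg x n).length := by rwa [tk_seg_length]
  rw [← h i h1, tk_seg_get]

/-- the finset of a subtype as a finset of points -/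
def tk_img (Φ : Finset ((Set.range f)ᶜ : Set (ℕ → Bool))) : Finset (ℕ → Bool) :=
  Φ.map ⟨Subtype.val, Subtype.val_injective⟩

theorem tk_img_mem {Φ : Finset ((Set.range f)ᶜ : Set (ℕ → Bool))} {x : ℕ → Bool}
    (h : x ∈ tk_img Φ) : x ∉ Set.range f := by
  unfold tk_img at h
  rw [Finset.mem_map] at h
  obtain ⟨y, _, rfl⟩ := h
  exact y.2

theorem tk_LL_ball (Φ : Finset (ℕ → Bool)) (n : ℕ) : LL f Φ n ⊆ Metric.closedBall 0 1 := by
  intro v hv
  rw [mem_closedBall_zero_iff]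
  exact hv.1

theorem tk_compl (Φ : Finset (ℕ → Bool)) (n : ℕ) :
    ({s | n < s.length ∧ ∀ x ∈ Φ, ¬ On x s} : Set Node) =
      ({s | s.length ≤ n ∨ ∃ x ∈ Φ, On x s} : Set Node)ᶜ := by
  ext s
  simp only [Set.mem_ofPred_eq, Set.mem_compl_iff, not_or, not_le, not_exists, not_and]

/-- **Upper bound.** -/
theorem tle_AK_finset (hf : Continuous f)
    (hd : ∀ (x : ℕ → Bool) (k : ℕ), ∃ α, ∀ q < k, f α q = x q)
    (hcpt : ∀ F : Set (ℕ → Bool), IsCompact F → Disjoint F (Set.range f) → F.Countable)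
    (hinf : Infinite ((Set.range f)ᶜ : Set (ℕ → Bool))) :
    TLe (AKr (X f)) (po (Finset ((Set.range f)ᶜ : Set (ℕ → Bool)))) := by
  classical
  obtain ⟨d⟩ : Nonempty (ℕ ↪ ((Set.range f)ᶜ : Set (ℕ → Bool))) := ⟨Infinite.natEmbedding _⟩
  have hcl : ∀ (ε : ℝ) (W : AK (X f)), ∃ (Ψ : Finset ((Set.range f)ᶜ : Set (ℕ → Bool))),
      0 < ε → ∃ (Φ : Finset ((Set.range f)ᶜ : Set (ℕ → Bool))) (n : ℕ), Φ ⊆ Ψ ∧ n ≤ Ψ.card ∧
        ∀ w ∈ W.1, ‖PS {s | n < s.length ∧ ∀ x ∈ tk_img Φ, ¬ On x s} w‖ ≤ ε := by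
    intro ε W
    by_cases hε : 0 < ε
    · obtain ⟨Φ, n, hΦ, hW⟩ := claimB hf hd hcpt W.2.2 hε
      let Φ' : Finset ((Set.range f)ᶜ : Set (ℕ → Bool)) := Φ.subtype _
      have hΦ' : tk_img Φ' = Φ := by
        ext x
        unfold tk_img
        rw [Finset.mem_map]
        constructor
        · rintro ⟨y, hy, rfl⟩
          exact Finset.mem_subtype.1 hy
        · intro hx
          exact ⟨⟨x, hΦ x hx⟩, Finset.mem_subtype.2 hx, rfl⟩
      refine ⟨Φ' ∪ (range n).map d, fun _ => ⟨Φ', n, subset_union_left, ?_, ?_⟩⟩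
      · calc n = ((range n).map d).card := by rw [card_map, card_range]
          _ ≤ _ := card_le_card subset_union_right
      · rw [hΦ']; exact hW
    · exact ⟨∅, fun h => absurd h hε⟩
  choose F hF using hcl
  refine ⟨F, fun ε hε => ⟨1, one_pos, fun q₀ => ⟨⟨LL f (tk_img q₀) q₀.card, tk_LL_ball _ _,
    isCompact_LL hf hd (fun x hx => tk_img_mem hx) _⟩, fun W hW => ?_⟩⟩⟩
  obtain ⟨Φ, n, hΦ, hn, hWn⟩ := hF ε W hε
  have hsub : F ε W ⊆ q₀ := hW
  intro w hw
  refine ⟨PS ({s | s.length ≤ n ∨ ∃ x ∈ tk_img Φ, On x s} : Set Node) w, ⟨?_, ?_⟩, ?_⟩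
  · refine (norm_PS_le _ _).trans ?_
    exact mem_closedBall_zero_iff.1 (W.2.1 hw)
  · intro s hs
    by_cases h : s ∈ ({s | s.length ≤ n ∨ ∃ x ∈ tk_img Φ, On x s} : Set Node)
    · rcases h with h | ⟨x, hx, hox⟩
      · left
        exact h.trans (hn.trans (card_le_card hsub))
      · right
        refine ⟨x, ?_, hox⟩
        unfold tk_img at hx ⊢
        exact Finset.map_subset_map.2 (hΦ.trans hsub) hx
    · exact absurd (co_PS_not_mem h w) hs
  · have h1 := hWn w hw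
    rw [tk_compl, PS_compl] at h1
    exact h1

/-- **Lower bound.** -/
theorem tle_finset_AK (hf : Continuous f)
    (hd : ∀ (x : ℕ → Bool) (k : ℕ), ∃ α, ∀ q < k, f α q = x q)
    (hcpt : ∀ F : Set (ℕ → Bool), IsCompact F → Disjoint F (Set.range f) → F.Countable) :
    TLe (po (Finset ((Set.range f)ᶜ : Set (ℕ → Bool)))) (AKr (X f)) := by
  classical
  refine ⟨fun _ Φ => ⟨LL f (tk_img Φ) 0, tk_LL_ball _ _,
    isCompact_LL hf hd (fun x hx => tk_img_mem hx) _⟩, fun ε _ => ⟨1 / 4, by norm_num,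
    fun W => ?_⟩⟩
  obtain ⟨Φ₀, n₀, hΦ₀, hW⟩ := claimB hf hd hcpt W.2.2 (by norm_num : (0 : ℝ) < 1 / 4)
  refine ⟨Φ₀.subtype _, fun Φ hΦ => ?_⟩
  change Φ ⊆ _
  intro x hx
  rw [Finset.mem_subtype]
  have hx' : x.1 ∈ tk_img Φ := by
    unfold tk_img
    rw [Finset.mem_map]
    exact ⟨x, hx, rfl⟩
  -- for every large `n` some point of `Φ₀` agrees with `x` below `n`
  have key : ∀ n, n₀ < n → ∃ y ∈ Φ₀, On y (tk_seg x.1 n) := by
    intro n hn
    have hmem : eX f (tk_seg x.1 n) ∈ LL f (tk_img Φ) 0 := by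
      refine ⟨(norm_eX _).le, fun s hs => ?_⟩
      rw [co_eX] at hs
      by_cases h : tk_seg x.1 n = s
      · right
        exact ⟨x.1, hx', h ▸ tk_seg_on _ _⟩
      · rw [if_neg h] at hs
        exact absurd rfl hs
    obtain ⟨w, hw, hdist⟩ := hΦ _ hmem
    by_contra hcon
    push Not at hcon
    have h1 : |co w (tk_seg x.1 n)| ≤ 1 / 4 := by
      have h2 := abs_co_le (PS ({s | n₀ < s.length ∧ ∀ y ∈ Φ₀, ¬ On y s} : Set Node) w)
        (tk_seg x.1 n)
      have hmem2 : tk_seg x.1 n ∈ ({s | n₀ < s.length ∧ ∀ y ∈ Φ₀, ¬ On y s} : Set Node) :=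
        ⟨by rw [tk_seg_length]; exact hn, hcon⟩
      rw [co_PS_mem hmem2] at h2
      exact h2.trans (hW w hw)
    have h3 := (abs_co_le (eX f (tk_seg x.1 n) - w) (tk_seg x.1 n)).trans hdist
    rw [co_sub, co_eX, if_pos rfl] at h3
    have h4 := abs_le.1 h1
    have h5 := abs_le.1 h3
    linarith [h4.2, h5.2]
  -- pigeonhole
  by_contra hnot
  have hdiff : ∀ y ∈ Φ₀, ∃ i, y i ≠ x.1 i := by
    intro y hy
    by_contra h
    push Not at h
    exact hnot (funext h ▸ hy)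
  choose! I hI using hdiff
  obtain ⟨y, hy, hon⟩ := key (n₀ + 1 + Φ₀.sup I + 1) (by omega)
  have h6 : I y ≤ Φ₀.sup I := Finset.le_sup hy
  exact hI y hy (tk_on_seg hon (I y) (by omega))

/-- The closed unit ball is not weakly compact. -/
theorem ball_not_compact (hf : Continuous f)
    (hd : ∀ (x : ℕ → Bool) (k : ℕ), ∃ α, ∀ q < k, f α q = x q)
    (hcpt : ∀ F : Set (ℕ → Bool), IsCompact F → Disjoint F (Set.range f) → F.Countable) :
    ¬ IsCompact (toWeakSpace ℝ (X f) '' Metric.closedBall 0 1) := by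
  classical
  intro hW
  obtain ⟨Φ, n, hΦ, h⟩ := claimB hf hd hcpt hW (by norm_num : (0 : ℝ) < 1 / 2)
  obtain ⟨z, hz⟩ := Infinite.exists_notMem_finset Φ
  have hdiff : ∀ y ∈ Φ, ∃ i, y i ≠ z i := by
    intro y hy
    by_contra hc
    push Not at hc
    exact hz (funext hc ▸ hy)
  choose! I hI using hdiff
  set N := n + 1 + Φ.sup I + 1 with hN
  have hmem : tk_seg z N ∈ ({s | n < s.length ∧ ∀ x ∈ Φ, ¬ On x s} : Set Node) := by
    refine ⟨by rw [tk_seg_length]; omega, fun y hy hon => ?_⟩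
    have h6 : I y ≤ Φ.sup I := Finset.le_sup hy
    exact hI y hy (tk_on_seg hon (I y) (by omega))
  have h1 := h (eX f (tk_seg z N)) (by rw [mem_closedBall_zero_iff, norm_eX])
  rw [PS_eX_mem hmem, norm_eX] at h1
  norm_num at h1

end

end Pool.Agent.WCT
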