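import Pool.Agent.WCT.Shrink
import Pool.Agent.WCT.Bdd

/-!
# Weak compactness of the unit balls of finite unions of branches (module WComp)
-/

namespace Pool.Agent.WCT

open Finset Filter Topology

noncomputable section

variable {f : (ℕ → ℕ) → (ℕ → Bool)}

/-- the part of the unit ball carried by the levels `≤ n` and the branches of the points of `Φ` -/
def LL (f : (ℕ → ℕ) → (ℕ → Bool)) (Φ : Finset (ℕ → Bool)) (n : ℕ) : Set (X f) :=
  {v | ‖v‖ ≤ 1 ∧ ∀ s, co v s ≠ 0 → s.length ≤ n ∨ ∃ x ∈ Φ, On x s}

/-- Shrinking for finitely many branches (induction on `Φ`, or: split `v` into the pieces `PS {s | On x s} ...` made disjoint; every piece has norm `≤ 1`;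
use `shrink` with `ε / (#Φ + 1)`). -/
theorem shrink_LL (hf : Continuous f) (hd : ∀ (x : ℕ → Bool) (k : ℕ), ∃ α, ∀ q < k, f α q = x q)
    {Φ : Finset (ℕ → Bool)} (hΦ : ∀ x ∈ Φ, x ∉ Set.range f) (ψ : X f →L[ℝ] ℝ) {ε : ℝ} (hε : 0 < ε) :
    ∃ n : ℕ, ∀ v : X f, ‖v‖ ≤ 1 → (∀ s, co v s ≠ 0 → n < s.length ∧ ∃ x ∈ Φ, On x s) →
      |ψ v| ≤ ε := by
  classical
  induction Φ using Finset.induction_on generalizing ε with
  | empty =>
    refine ⟨0, fun v _ hv => ?_⟩
    have : v = 0 := by
      apply X_ext
      intro s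
      rw [co_zero]
      by_contra h
      obtain ⟨_, x, hx, _⟩ := hv s h
      exact absurd hx (Finset.notMem_empty x)
    rw [this, map_zero, abs_zero]
    exact hε.le
  | insert x Φ hxΦ ih =>
    obtain ⟨n1, h1⟩ := shrink hf hd (hΦ x (Finset.mem_insert_self _ _)) ψ (half_pos hε)
    obtain ⟨n2, h2⟩ := ih (fun y hy => hΦ y (Finset.mem_insert_of_mem hy)) (half_pos hε)
    refine ⟨max n1 n2, fun v hv1 hv => ?_⟩
    have e := PS_add_compl {s | On x s} v
    have hA : |ψ (PS {s | On x s} v)| ≤ ε / 2 := by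
      apply h1 _ ((norm_PS_le _ _).trans hv1)
      intro s hs
      rw [co_PS] at hs
      split_ifs at hs with hm
      · exact ⟨hm, lt_of_le_of_lt (le_max_left _ _) (hv s hs).1⟩
      · exact absurd rfl hs
    have hB : |ψ (PS {s | On x s}ᶜ v)| ≤ ε / 2 := by
      apply h2 _ ((norm_PS_le _ _).trans hv1)
      intro s hs
      rw [co_PS] at hs
      split_ifs at hs with hm
      · obtain ⟨h3, y, hy, hy2⟩ := hv s hs
        refine ⟨lt_of_le_of_lt (le_max_right _ _) h3, y, ?_, hy2⟩
        rcases Finset.mem_insert.1 hy with rfl | hy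
        · exact absurd hy2 hm
        · exact hy
      · exact absurd rfl hs
    calc |ψ v| = |ψ (PS {s | On x s} v) + ψ (PS {s | On x s}ᶜ v)| := by rw [← map_add, e]
      _ ≤ |ψ (PS {s | On x s} v)| + |ψ (PS {s | On x s}ᶜ v)| := abs_add_le _ _
      _ ≤ ε := by linarith

private theorem wcomp_sum (φ : Node →₀ ℝ) (S : Set Node) (v : Node → ℝ) :
    ∑ s ∈ φ.support, φ s * S.indicator v s = ∑ s ∈ (resF S φ).support, resF S φ s * v s := by
  have h1 : ∑ s ∈ (resF S φ).support, resF S φ s * v s = ∑ s ∈ φ.support, resF S φ s * v s := by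
    apply Finset.sum_subset (s₁ := (resF S φ).support) (mulF_support _ _)
    intro s _ hs
    have h2 : resF S φ s = 0 := Finsupp.notMem_support_iff.1 hs
    rw [h2, zero_mul]
  rw [h1]
  apply Finset.sum_congr rfl
  intro s _
  by_cases h : s ∈ S
  · rw [Set.indicator_of_mem h, resF_apply_mem h]
  · rw [Set.indicator_of_notMem h, resF_apply_not_mem h, mul_zero, zero_mul]

/-- finite combinations have the expected coordinates -/
private theorem wcomp_co_sum (A : Finset Node) (v : Node → ℝ) (s : Node) :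
    co (∑ t ∈ A, v t • eX f t) s = if s ∈ A then v s else 0 := by
  rw [co_sum]
  simp only [co_smul, co_eX, mul_ite, mul_one, mul_zero]
  rw [Finset.sum_ite_eq' A s v]

/-- Existence of vectors with given coordinates (induction on `Φ` with `bdd`, or split `v` into disjoint pieces as above; the pieces satisfy the hypothesis `hC`
since `N` is closed under restrictions `Nrm.res`; the levels `≤ n` are finitely many nodes). -/
theorem bdd_LL (hd : ∀ (x : ℕ → Bool) (k : ℕ), ∃ α, ∀ q < k, f α q = x q)
    {Φ : Finset (ℕ → Bool)} {n : ℕ} {v : Node → ℝ}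
    (hv : ∀ s, v s ≠ 0 → s.length ≤ n ∨ ∃ x ∈ Φ, On x s) {C : ℝ}
    (hC : ∀ φ, Nrm f φ → |∑ s ∈ φ.support, φ s * v s| ≤ C) : ∃ y : X f, ∀ s, co y s = v s := by
  classical
  induction Φ using Finset.induction_on generalizing v with
  | empty =>
    refine ⟨∑ s ∈ (finite_Lv n).toFinset, v s • eX f s, fun s => ?_⟩
    rw [wcomp_co_sum]
    split_ifs with h
    · rfl
    · by_contra hne
      rcases hv s (Ne.symm hne) with h1 | ⟨x, hx, _⟩
      · exact h ((finite_Lv n).mem_toFinset.2 h1)
      · exact absurd hx (Finset.notMem_empty x)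
  | insert x Φ hxΦ ih =>
    obtain ⟨y1, hy1⟩ := bdd (f := f) hd (x := x) (v := Set.indicator {s | On x s} v)
      (fun s hs => Set.mem_of_indicator_ne_zero hs) (C := C)
      (fun φ hφ => by rw [wcomp_sum]; exact hC _ (hφ.res _))
    obtain ⟨y2, hy2⟩ := ih (v := Set.indicator {s | On x s}ᶜ v)
      (fun s hs => by
        have h1 := Set.mem_of_indicator_ne_zero hs
        rw [Set.indicator_of_mem h1] at hs
        rcases hv s hs with h2 | ⟨y, hy, hy2⟩
        · exact Or.inl h2
        · refine Or.inr ⟨y, ?_, hy2⟩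
          rcases Finset.mem_insert.1 hy with rfl | hy
          · exact absurd hy2 h1
          · exact hy)
      (fun φ hφ => by rw [wcomp_sum]; exact hC _ (hφ.res _))
    refine ⟨y1 + y2, fun s => ?_⟩
    rw [co_add, hy1, hy2]
    exact congrFun (Set.indicator_self_add_compl {s | On x s} v) s

/-- **Weak compactness.**  Proof. Let `Im = {v : Node → ℝ | (∀ s, v s ≠ 0 → s.length ≤ n ∨ ∃ x ∈ Φ, On x s) ∧ ∀ φ, Nrm f φ → |∑ φ s v s| ≤ 1}`: a closed subset of the compact
product `Set.pi univ (fun _ => Set.Icc (-1) 1)` (singles in `N`), so compact in the product topology. By `bdd_LL` (and `norm_le`, `ev_apply`) there is a map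
`Γ : Im → X f` with `co (Γ v) s = v s`, with values in `LL f Φ n`, onto `LL f Φ n` (`X_ext`, `ev_le`). It is continuous into
`WeakSpace ℝ (X f)` (`WeakBilin.continuous_of_continuous_eval`): for `ψ` in the dual and `ε > 0` take `n'` from `shrink_LL` for `ε`; for `v, v' ∈ Im`,
`|ψ (Γ v) - ψ (Γ v')| ≤ |ψ (PS (Lv n'') (Γ v - Γ v'))| + 2 ε` (`n'' = max n n'`), and `PS (Lv n'') (Γ v)` is a finite combination of the vectors `eX f s`
with continuous coefficients. So `ψ ∘ Γ` is a uniform limit of continuous functions. -/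
theorem isCompact_LL (hf : Continuous f)
    (hd : ∀ (x : ℕ → Bool) (k : ℕ), ∃ α, ∀ q < k, f α q = x q)
    {Φ : Finset (ℕ → Bool)} (hΦ : ∀ x ∈ Φ, x ∉ Set.range f) (n : ℕ) :
    IsCompact (toWeakSpace ℝ (X f) '' LL f Φ n) := by
  classical
  set K : Set (Node → ℝ) := {v | (∀ s, v s ≠ 0 → s.length ≤ n ∨ ∃ x ∈ Φ, On x s) ∧
    ∀ φ, Nrm f φ → |∑ s ∈ φ.support, φ s * v s| ≤ 1} with hK
  have hKc : IsCompact K := by
    have h1 : IsCompact (Set.pi Set.univ (fun _ : Node => Set.Icc (-1 : ℝ) 1)) :=
      isCompact_univ_pi (fun _ => isCompact_Icc)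
    refine h1.of_isClosed_subset ?_ ?_
    · have e : K = (⋂ s : Node, {v : Node → ℝ | v s ≠ 0 → s.length ≤ n ∨ ∃ x ∈ Φ, On x s}) ∩
          ⋂ φ : NN f, {v : Node → ℝ | |∑ s ∈ φ.1.support, φ.1 s * v s| ≤ 1} := by
        ext v
        simp only [hK, Set.mem_inter_iff, Set.mem_iInter, Subtype.forall]
        rfl
      rw [e]
      apply IsClosed.inter
      · apply isClosed_iInter
        intro s
        by_cases h : s.length ≤ n ∨ ∃ x ∈ Φ, On x s
        · have : {v : Node → ℝ | v s ≠ 0 → s.length ≤ n ∨ ∃ x ∈ Φ, On x s} = Set.univ := by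
            ext v
            simp only [Set.mem_univ, iff_true]
            exact fun _ => h
          rw [this]
          exact isClosed_univ
        · have : {v : Node → ℝ | v s ≠ 0 → s.length ≤ n ∨ ∃ x ∈ Φ, On x s} =
              {v : Node → ℝ | v s = 0} := by
            ext v
            constructor
            · intro hv
              by_contra hne
              exact h (hv hne)
            · intro hv hne
              exact absurd hv hne
          rw [this]
          exact isClosed_eq (continuous_apply s) continuous_const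
      · apply isClosed_iInter
        intro φ
        apply isClosed_le _ continuous_const
        exact (continuous_finsetSum _ (fun s _ => continuous_const.mul (continuous_apply s))).abs
    · intro v hv
      rw [Set.mem_univ_pi]
      intro s
      have := hv.2 _ (Nrm.single s 1 (by simp))
      have h2 : ∑ t ∈ (Finsupp.single s (1 : ℝ)).support, (Finsupp.single s (1 : ℝ)) t * v t
          = v s := by
        rw [Finset.sum_subset (s₂ := {s}) Finsupp.support_single_subset]
        · simp
        · intro t _ ht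
          rw [Finsupp.notMem_support_iff.1 ht, zero_mul]
      rw [h2] at this
      exact abs_le.1 this
  have hex : ∀ v : K, ∃ y : X f, ∀ s, co y s = v.1 s := fun v => bdd_LL hd v.2.1 v.2.2
  choose Γ hΓ using hex
  have hnorm : ∀ v : K, ‖Γ v‖ ≤ 1 := by
    intro v
    apply norm_le zero_le_one
    intro φ hφ
    rw [ev_apply]
    simp only [hΓ]
    exact v.2.2 φ hφ
  have himg : toWeakSpace ℝ (X f) '' LL f Φ n =
      Set.range (fun v : K => toWeakSpace ℝ (X f) (Γ v)) := by
    ext w
    constructor
    · rintro ⟨y, hy, rfl⟩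
      have hmem : (fun s => co y s) ∈ K := by
        refine ⟨fun s hs => hy.2 s hs, ?_⟩
        intro φ hφ
        have := (ev_le hφ y).trans hy.1
        rwa [ev_apply] at this
      have hy' : Γ ⟨fun s => co y s, hmem⟩ = y := by
        apply X_ext
        intro s
        rw [hΓ]
      exact ⟨⟨fun s => co y s, hmem⟩, congrArg (toWeakSpace ℝ (X f)) hy'⟩
    · rintro ⟨v, rfl⟩
      refine ⟨Γ v, ⟨hnorm v, ?_⟩, rfl⟩
      intro s hs
      rw [hΓ] at hs
      exact v.2.1 s hs
  rw [himg]
  have : CompactSpace K := isCompact_iff_compactSpace.1 hKc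
  apply isCompact_range
  apply WeakBilin.continuous_of_continuous_eval
  intro ψ
  change Continuous (fun v : K => ψ (Γ v))
  apply continuous_of_uniform_approx_of_continuous
  intro u hu
  obtain ⟨ε, hε, hεu⟩ := Metric.mem_uniformity_dist.1 hu
  obtain ⟨n', hn'⟩ := shrink_LL hf hd hΦ ψ (half_pos hε)
  refine ⟨fun v => ∑ s ∈ (finite_Lv (max n n')).toFinset, v.1 s * ψ (eX f s), ?_, ?_⟩
  · apply continuous_finsetSum
    intro s _
    exact ((continuous_apply s).comp continuous_subtype_val).mul continuous_const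
  · intro v
    apply hεu
    have h1 : PS (Lv (max n n')) (Γ v) =
        ∑ s ∈ (finite_Lv (max n n')).toFinset, v.1 s • eX f s := by
      apply X_ext
      intro s
      rw [wcomp_co_sum, co_PS, hΓ]
      simp only [Set.Finite.mem_toFinset]
    have h2 : ψ (PS (Lv (max n n')) (Γ v)) =
        ∑ s ∈ (finite_Lv (max n n')).toFinset, v.1 s * ψ (eX f s) := by
      rw [h1, map_sum]
      simp only [map_smul, smul_eq_mul]
    change dist (ψ (Γ v)) (∑ s ∈ (finite_Lv (max n n')).toFinset, v.1 s * ψ (eX f s)) < ε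
    rw [← h2, Real.dist_eq, ← map_sub, ← PS_compl]
    refine lt_of_le_of_lt (hn' _ ((norm_PS_le _ _).trans (hnorm v)) ?_) (half_lt_self hε)
    intro s hs
    rw [co_PS] at hs
    split_ifs at hs with hm
    · have hlen : max n n' < s.length := not_le.1 hm
      refine ⟨lt_of_le_of_lt (le_max_right _ _) hlen, ?_⟩
      rw [hΓ] at hs
      rcases v.2.1 s hs with h3 | h3
      · exact absurd h3 (not_le.2 (lt_of_le_of_lt (le_max_left _ _) hlen))
      · exact h3
    · exact absurd rfl hs

end

end Pool.Agent.WCT
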